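import Pool.Agent.H.MP_b7167f_an.SS.Final
import Pool.Agent.H.MP_b7167f_an.SV.LQw

/-!
Symmetric cones and functions supported in them.
-/

open MeasureTheory Set
open scoped ENNReal

namespace Pool.Agent.H.MP_b7167f_an.SV

open Pool.Agent.H.MP_b7167f_an.SS

/-- Measurable symmetric cones. -/
structure Cone (S : Set (ℝ × ℝ)) : Prop where
  meas : MeasurableSet S
  smul : ∀ l : ℝ, 0 < l → ∀ z : ℝ × ℝ, z ∈ S → (l * z.1, l * z.2) ∈ S
  neg : ∀ z : ℝ × ℝ, z ∈ S → -z ∈ S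

/-- The measure of the set of the directions in `S`. -/
noncomputable def mu (S : Set (ℝ × ℝ)) : ℝ≥0∞ :=
  nu {θ : ℝ | (Real.cos θ, Real.sin θ) ∈ S}

/-- The function is zero outside of `S`. -/
def SuppIn (S : Set (ℝ × ℝ)) (h : ℝ × ℝ → ℂ) : Prop := ∀ z, z ∉ S → h z = 0

theorem Cone.smul_iff {S : Set (ℝ × ℝ)} (hS : Cone S) {l : ℝ} (hl : 0 < l) (z : ℝ × ℝ) :
    (l * z.1, l * z.2) ∈ S ↔ z ∈ S := by
  refine ⟨fun h => ?_, hS.smul l hl z⟩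
  have h1 := hS.smul l⁻¹ (inv_pos.2 hl) _ h
  simpa only [← mul_assoc, inv_mul_cancel₀ hl.ne', one_mul, Prod.mk.eta] using h1

theorem Cone.neg_iff {S : Set (ℝ × ℝ)} (hS : Cone S) (z : ℝ × ℝ) : -z ∈ S ↔ z ∈ S := by
  refine ⟨fun h => ?_, hS.neg z⟩
  have h1 := hS.neg _ h
  rwa [neg_neg] at h1

theorem meas_dir {S : Set (ℝ × ℝ)} (hS : MeasurableSet S) :
    MeasurableSet {θ : ℝ | (Real.cos θ, Real.sin θ) ∈ S} := by
  have h : Measurable fun θ : ℝ => (Real.cos θ, Real.sin θ) := by fun_prop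
  exact h hS

theorem lint_le_mu {S : Set (ℝ × ℝ)} (hS : Cone S) (c : ℝ → ℂ) (hc1 : ∀ θ, ‖c θ‖ ≤ 1)
    (h0 : ∀ θ, (Real.cos θ, Real.sin θ) ∉ S → c θ = 0) : ∫⁻ θ, ‖c θ‖ₑ ∂nu ≤ mu S := by
  have h1 : ∀ θ, ‖c θ‖ₑ ≤ {θ : ℝ | (Real.cos θ, Real.sin θ) ∈ S}.indicator (fun _ => 1) θ := by
    intro θ
    by_cases hθ : (Real.cos θ, Real.sin θ) ∈ S
    · rw [indicator_of_mem (by exact hθ), ← ofReal_norm, ENNReal.ofReal_le_one]
      exact hc1 θ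
    · rw [h0 θ hθ, enorm_zero]
      exact zero_le
  refine (lintegral_mono h1).trans (le_of_eq ?_)
  rw [lintegral_indicator (meas_dir hS.meas)]
  simp [mu]

theorem gh_supp {S : Set (ℝ × ℝ)} (hS : Cone S) {h : ℝ × ℝ → ℂ} (hh : SuppIn S h) (θ η : ℝ)
    (hθ : (Real.cos θ, Real.sin θ) ∉ S) : gh h θ η = 0 := by
  unfold gh
  rw [intervalIntegral.integral_of_le zero_le_one]
  refine integral_eq_zero_of_ae ?_
  refine (ae_restrict_iff' measurableSet_Ioc).2 (Filter.Eventually.of_forall fun s hs => ?_)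
  have h1 : 0 < Real.sqrt s := Real.sqrt_pos.2 hs.1
  have h2 : (Real.sqrt s * Real.cos θ, Real.sqrt s * Real.sin θ) ∉ S := by
    intro h3
    exact hθ ((hS.smul_iff h1 (Real.cos θ, Real.sin θ)).1 h3)
  simp only [hh _ h2, mul_zero, Pi.zero_apply]

end Pool.Agent.H.MP_b7167f_an.SV
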