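import Pool.Agent.H.MP_b7167f_an.SV.CoreW
import Pool.Agent.H.MP_b7167f_an.SV.LQ2

/-!
The decay in time, and the exponents above `4` (odd functions).
-/

open MeasureTheory Set Complex
open scoped ENNReal NNReal

namespace Pool.Agent.H.MP_b7167f_an.SV

open Pool.Agent.H.MP_b7167f_an.SS

theorem coreS_u (u A : ℝ) (hA : 0 < A) :
    |u| * Real.exp (-(u ^ 2 / (4 * A))) ≤ 2 * Real.sqrt A := by
  have hs := Real.sqrt_pos.2 hA
  obtain ⟨y, hy⟩ : ∃ y, y = |u| / (2 * Real.sqrt A) := ⟨_, rfl⟩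
  have hy0 : 0 ≤ y := by rw [hy]; positivity
  have h1 : u ^ 2 / (4 * A) = y ^ 2 := by
    rw [hy, div_pow, mul_pow, Real.sq_sqrt hA.le, sq_abs]
    norm_num
  have h2 : y ≤ Real.exp (y ^ 2) := by
    nlinarith [Real.add_one_le_exp (y ^ 2), sq_nonneg (y - 1 / 2)]
  have h3 : |u| = y * (2 * Real.sqrt A) := by
    rw [hy, div_mul_cancel₀ _ (by positivity)]
  rw [h1, h3, Real.exp_neg, mul_assoc, mul_comm (2 * Real.sqrt A), ← mul_assoc]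
  refine mul_le_of_le_one_left (by positivity) ?_
  rw [← div_eq_mul_inv, div_le_one (Real.exp_pos _)]
  exact h2

theorem coreS_re (u τ : ℝ) :
    (-(u : ℂ) ^ 2 / (4 * aa τ)).re = -(u ^ 2 / (4 * (1 + τ ^ 2))) := by
  have h1 : (-(u : ℂ) ^ 2 / (4 * aa τ)) = ((-(u ^ 2) / 4 : ℝ) : ℂ) * (aa τ)⁻¹ := by
    push_cast
    field_simp
  have h2 : Complex.normSq (aa τ) = 1 + τ ^ 2 := by
    have h3 := Complex.normSq_eq_norm_sq (aa τ)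
    rw [h3, coreW_aa, Real.sq_sqrt (by positivity)]
  have h4 : (aa τ).re = 1 := by simp [aa]
  rw [h1, Complex.re_ofReal_mul, Complex.inv_re, h2, h4]
  field_simp

/-- The pointwise bound of the operators `T1`. -/
theorem t1_top (τ : ℝ) (c : ℝ → ℂ) (x : ℝ × ℝ) :
    ‖T1 τ c x‖ₑ ≤ ENNReal.ofReal (2 * Real.sqrt (1 + τ ^ 2)) * ∫⁻ θ, ‖c θ‖ₑ ∂nu := by
  unfold T1
  refine (enorm_integral_le_lintegral_enorm _).trans ?_
  rw [← lintegral_const_mul' _ _ ENNReal.ofReal_ne_top]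
  refine lintegral_mono fun θ => ?_
  simp only
  rw [mul_assoc, enorm_mul, mul_comm]
  refine mul_le_mul' ?_ le_rfl
  rw [← ofReal_norm]
  refine ENNReal.ofReal_le_ofReal ?_
  rw [norm_mul, Complex.norm_real, Complex.norm_exp, Real.norm_eq_abs, coreS_re]
  exact coreS_u _ _ (by positivity)

theorem coreS_gh {S : Set (ℝ × ℝ)} (hS : Cone S) {h : ℝ × ℝ → ℂ} (hA : Adm 1 h)
    (hh : SuppIn S h) (η : ℝ) :
    ∫⁻ θ, ‖gh h θ η‖ₑ ∂nu ≤ ENNReal.ofReal (24 / (1 + |η|)) * mu S := by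
  have hk0 : 0 < 24 / (1 + |η|) := by positivity
  obtain ⟨k, hk⟩ : ∃ k : ℝ, k = 24 / (1 + |η|) := ⟨_, rfl⟩
  rw [← hk] at hk0 ⊢
  have hk0' : (k : ℂ) ≠ 0 := by
    exact_mod_cast hk0.ne'
  have hcb : ∀ θ, ‖(k : ℂ)⁻¹ * gh h θ η‖ ≤ 1 := by
    intro θ
    have h1 := gh_bound h 1 hA θ η
    rw [mul_one, ← hk] at h1
    rw [norm_mul, norm_inv, Complex.norm_real, Real.norm_of_nonneg hk0.le, inv_mul_le_iff₀ hk0,
      mul_one]
    exact h1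
  have hcs : ∀ θ, (Real.cos θ, Real.sin θ) ∉ S → (k : ℂ)⁻¹ * gh h θ η = 0 := by
    intro θ hθ
    rw [gh_supp hS hh θ _ hθ, mul_zero]
  have h2 := lint_le_mu hS _ hcb hcs
  have h3 : ∀ θ, ‖gh h θ η‖ₑ = ENNReal.ofReal k * ‖(k : ℂ)⁻¹ * gh h θ η‖ₑ := by
    intro θ
    have e : gh h θ η = (k : ℂ) * ((k : ℂ)⁻¹ * gh h θ η) := by
      rw [mul_inv_cancel_left₀ hk0']
    conv_lhs => rw [e]
    rw [enorm_mul, ← ofReal_norm (k : ℂ), Complex.norm_real, Real.norm_of_nonneg hk0.le]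
  calc ∫⁻ θ, ‖gh h θ η‖ₑ ∂nu = ∫⁻ θ, ENNReal.ofReal k * ‖(k : ℂ)⁻¹ * gh h θ η‖ₑ ∂nu :=
        lintegral_congr h3
    _ = ENNReal.ofReal k * ∫⁻ θ, ‖(k : ℂ)⁻¹ * gh h θ η‖ₑ ∂nu :=
        lintegral_const_mul' _ _ ENNReal.ofReal_ne_top
    _ ≤ ENNReal.ofReal k * mu S := mul_le_mul' le_rfl h2

theorem coreS_real (m τ η : ℝ) (hm : 0 < m) :
    (1 + τ ^ 2) ^ (-(3 / 4) : ℝ) * (2 * Real.sqrt (1 + τ ^ 2) * (24 / (1 + |η|) * m)) ≤
      96 * m * ((1 + |η|) ^ (-1 : ℝ) * (1 + |τ|) ^ (-(1 / 2) : ℝ)) := by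
  have h0 : (0 : ℝ) < 1 + τ ^ 2 := by positivity
  have hτ : (0 : ℝ) < 1 + |τ| := by positivity
  have hη : (0 : ℝ) < 1 + |η| := by positivity
  have e1 : (1 + τ ^ 2) ^ (-(3 / 4) : ℝ) * Real.sqrt (1 + τ ^ 2) = (1 + τ ^ 2) ^ (-(1 / 4) : ℝ) := by
    rw [Real.sqrt_eq_rpow, ← Real.rpow_add h0]
    norm_num
  have e2 : (1 + τ ^ 2) ^ (-(1 / 4) : ℝ) ≤ 2 * (1 + |τ|) ^ (-(1 / 2) : ℝ) := by
    obtain ⟨a, ha⟩ : ∃ a : ℝ, a = (1 + τ ^ 2) ^ (1 / 4 : ℝ) := ⟨_, rfl⟩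
    obtain ⟨b, hb⟩ : ∃ b : ℝ, b = (1 + |τ|) ^ (1 / 2 : ℝ) := ⟨_, rfl⟩
    have ha0 : 0 < a := by rw [ha]; positivity
    have hb0 : 0 < b := by rw [hb]; positivity
    have ha4 : a ^ 4 = 1 + τ ^ 2 := by
      rw [ha, ← Real.rpow_natCast, ← Real.rpow_mul h0.le]
      norm_num
    have hb4 : b ^ 4 = (1 + |τ|) ^ 2 := by
      rw [hb, ← Real.rpow_natCast, ← Real.rpow_mul hτ.le, ← Real.rpow_natCast]
      norm_num
    have hab : b ≤ 2 * a := by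
      have h1 : b ^ 4 ≤ (2 * a) ^ 4 := by
        rw [mul_pow, ha4, hb4]
        have := sq_abs τ
        nlinarith [sq_nonneg (1 - |τ|), abs_nonneg τ]
      exact (pow_le_pow_iff_left₀ hb0.le (by positivity) (by norm_num)).1 h1
    rw [Real.rpow_neg h0.le, Real.rpow_neg hτ.le, ← ha, ← hb, ← div_eq_mul_inv, inv_eq_one_div,
      div_le_div_iff₀ ha0 hb0]
    linarith
  have e3 : 24 / (1 + |η|) = 24 * (1 + |η|) ^ (-1 : ℝ) := by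
    rw [Real.rpow_neg_one, div_eq_mul_inv]
  have h5 : 0 < (1 + |η|) ^ (-1 : ℝ) := by positivity
  calc (1 + τ ^ 2) ^ (-(3 / 4) : ℝ) * (2 * Real.sqrt (1 + τ ^ 2) * (24 / (1 + |η|) * m))
      = 48 * m * (1 + |η|) ^ (-1 : ℝ) *
        ((1 + τ ^ 2) ^ (-(3 / 4) : ℝ) * Real.sqrt (1 + τ ^ 2)) := by
        rw [e3]
        ring
    _ ≤ 48 * m * (1 + |η|) ^ (-1 : ℝ) * (2 * (1 + |τ|) ^ (-(1 / 2) : ℝ)) := by
        rw [e1]
        gcongr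
    _ = _ := by ring

theorem coreS_phi {S : Set (ℝ × ℝ)} (hS : Cone S) {h : ℝ × ℝ → ℂ} (hA : Adm 1 h)
    (hh : SuppIn S h) {m : ℝ} (hm : 0 < m) (hmu : mu S ≤ ENNReal.ofReal m) (t τ : ℝ)
    (x : ℝ × ℝ) :
    coreW_phi h t τ x ≤ ENNReal.ofReal
      (96 * m * ((1 + |τ - t|) ^ (-1 : ℝ) * (1 + |τ|) ^ (-(1 / 2) : ℝ))) := by
  unfold coreW_phi
  rw [← mul_assoc, enorm_mul]
  have h1 : ‖((1 / (4 * Real.pi) : ℝ) : ℂ) * coreW_pr τ‖ₑ ≤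
      ENNReal.ofReal ((1 + τ ^ 2) ^ (-(3 / 4) : ℝ)) := by
    rw [← ofReal_norm]
    exact ENNReal.ofReal_le_ofReal (coreW_pr_norm τ)
  have h2 : ‖T1 τ (fun θ => gh h θ (τ - t)) x‖ₑ ≤
      ENNReal.ofReal (2 * Real.sqrt (1 + τ ^ 2) * (24 / (1 + |τ - t|) * m)) := by
    refine (t1_top τ _ x).trans ?_
    have h3 : 0 ≤ 24 / (1 + |τ - t|) := by positivity
    rw [ENNReal.ofReal_mul (by positivity : 0 ≤ 2 * Real.sqrt (1 + τ ^ 2)),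
      ENNReal.ofReal_mul h3]
    exact mul_le_mul' le_rfl ((coreS_gh hS hA hh (τ - t)).trans (mul_le_mul' le_rfl hmu))
  refine (mul_le_mul' h1 h2).trans ?_
  rw [← ENNReal.ofReal_mul (by positivity)]
  exact ENNReal.ofReal_le_ofReal (coreS_real m τ (τ - t) hm)

/-- The decay in time. -/
theorem e0_time_top (γ : ℝ) (hγ : 0 < γ) (hγ2 : γ < 1 / 2) : ∃ C : ℝ, 0 < C ∧
    ∀ (S : Set (ℝ × ℝ)) (m : ℝ), Cone S → 0 < m → mu S ≤ ENNReal.ofReal m →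
    ∀ h : ℝ × ℝ → ℂ, IsOdd h → Adm 1 h → SuppIn S h → ∀ (t : ℝ) (x : ℝ × ℝ),
      ‖E0 h (x, t)‖ₑ ≤ ENNReal.ofReal (m * C * (1 + |t|) ^ (-γ)) := by
  obtain ⟨C₃, hC₃, hconv⟩ := conv (1 / 2) γ hγ hγ2 (by norm_num)
  refine ⟨96 * C₃, by positivity, fun S m hS hm hmu h ho hA hh t x => ?_⟩
  refine (coreW_le h ho hA t x).trans ?_
  refine (lintegral_mono fun τ => coreS_phi hS hA hh hm hmu t τ x).trans ?_
  have e1 : ∫⁻ τ : ℝ,
      ENNReal.ofReal (96 * m * ((1 + |τ - t|) ^ (-1 : ℝ) * (1 + |τ|) ^ (-(1 / 2) : ℝ))) =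
      ENNReal.ofReal (96 * m) *
        ∫⁻ τ : ℝ, ENNReal.ofReal ((1 + |τ - t|) ^ (-1 : ℝ) * (1 + |τ|) ^ (-(1 / 2) : ℝ)) := by
    rw [← lintegral_const_mul' _ _ ENNReal.ofReal_ne_top]
    refine lintegral_congr fun τ => ?_
    rw [← ENNReal.ofReal_mul (by positivity)]
  rw [e1]
  refine (mul_le_mul_right (hconv t) _).trans (le_of_eq ?_)
  rw [← ENNReal.ofReal_mul (by positivity)]
  congr 1
  ring

theorem e0_time_low (q : ℝ) (hq : 2 < q) (hq4 : q < 4) : ∃ C : ℝ, 0 < C ∧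
    ∀ (S : Set (ℝ × ℝ)) (m : ℝ), Cone S → 0 < m → mu S ≤ ENNReal.ofReal m →
    ∀ h : ℝ × ℝ → ℂ, IsOdd h → Adm 1 h → SuppIn S h → ∀ t : ℝ,
      ∫⁻ x : ℝ × ℝ, ‖E0 h (x, t)‖ₑ ^ q ≤ ENNReal.ofReal (C * m) := by
  obtain ⟨β, hβ1, hβ2, C₁, hC₁, hT⟩ := t1_Lq2 q hq hq4
  have hq0 : 0 < q := by linarith
  obtain ⟨C, hC, hE⟩ := e0_time_gen q C₁ β (β / 2) (by linarith) hC₁ (by linarith) (by linarith)
    hβ2 hT
  refine ⟨C ^ q, by positivity, fun S m hS hm hmu h ho hA hh t => ?_⟩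
  refine (hE S m hS hm hmu h ho hA hh t).trans ?_
  rw [ENNReal.ofReal_rpow_of_nonneg (by positivity) hq0.le]
  refine ENNReal.ofReal_le_ofReal ?_
  rw [Real.mul_rpow (by positivity) (by positivity), Real.mul_rpow (by positivity) (by positivity),
    ← Real.rpow_mul hm.le, one_div, inv_mul_cancel₀ hq0.ne', Real.rpow_one,
    ← Real.rpow_mul (by positivity)]
  have h1 : (1 + |t|) ^ (-(β / 2) * q) ≤ 1 :=
    Real.rpow_le_one_of_one_le_of_nonpos (by linarith [abs_nonneg t])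
      (by nlinarith)
  have h2 : 0 ≤ m * C ^ q := by positivity
  calc m * C ^ q * (1 + |t|) ^ (-(β / 2) * q) ≤ m * C ^ q * 1 :=
        mul_le_mul_of_nonneg_left h1 h2
    _ = C ^ q * m := by ring

/-- Exponents above `4`: the integral. -/
theorem core_oddS (q δ : ℝ) (hδ : 0 < δ) (hδ2 : δ < 2) (hq : 4 + δ < q) : ∃ C : ℝ, 0 < C ∧
    ∀ (S : Set (ℝ × ℝ)) (m : ℝ), Cone S → 0 < m → mu S ≤ ENNReal.ofReal m →
    ∀ h : ℝ × ℝ → ℂ, IsOdd h → Adm 1 h → SuppIn S h →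
      ∫⁻ y : (ℝ × ℝ) × ℝ, ‖E0 h y‖ₑ ^ q ≤ ENNReal.ofReal (C * m ^ (q - 1 - δ)) := by
  have hq2 : 0 < q - 2 - δ := by linarith
  obtain ⟨γ, hγ⟩ : ∃ γ : ℝ, γ = (1 / 2 + 1 / (q - 2 - δ)) / 2 := ⟨_, rfl⟩
  have h1 : 1 / (q - 2 - δ) < 1 / 2 := by
    rw [div_lt_div_iff₀ hq2 (by norm_num)]
    linarith
  have hi0 : 0 < 1 / (q - 2 - δ) := by positivity
  have hγ0 : 0 < γ := by rw [hγ]; linarith
  have hγ2 : γ < 1 / 2 := by rw [hγ]; linarith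
  have hγq : 1 < γ * (q - 2 - δ) := by
    have h2 : 1 / (q - 2 - δ) < γ := by rw [hγ]; linarith
    rwa [div_lt_iff₀ hq2] at h2
  obtain ⟨C₁, hC₁, hE1⟩ := e0_time_top γ hγ0 hγ2
  obtain ⟨C₂, hC₂, hE2⟩ := e0_time_low (2 + δ) (by linarith) (by linarith)
  have hfin : ∫⁻ t : ℝ, ENNReal.ofReal ((1 + |t|) ^ (-(γ * (q - 2 - δ)))) < ⊤ := by
    have := finite_integral_one_add_norm (E := ℝ) (μ := (volume : Measure ℝ))
      (r := γ * (q - 2 - δ)) (by simpa using hγq)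
    simpa only [Real.norm_eq_abs] using this
  obtain ⟨I, hI⟩ : ∃ I : ℝ≥0∞, I = ∫⁻ t : ℝ, ENNReal.ofReal ((1 + |t|) ^ (-(γ * (q - 2 - δ)))) :=
    ⟨_, rfl⟩
  rw [← hI] at hfin
  refine ⟨C₁ ^ (q - 2 - δ) * C₂ * (I.toReal + 1), by positivity,
    fun S m hS hm hmu h ho hA hh => ?_⟩
  have hm' : Measurable fun y : (ℝ × ℝ) × ℝ => ‖E0 h y‖ₑ ^ q :=
    ((e0_meas h hA.meas).enorm).pow_const q
  rw [Measure.volume_eq_prod, lintegral_prod_symm _ hm'.aemeasurable]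
  have key : ∀ t : ℝ, ∫⁻ x : ℝ × ℝ, ‖E0 h (x, t)‖ₑ ^ q ≤
      ENNReal.ofReal (C₁ ^ (q - 2 - δ) * C₂ * m ^ (q - 1 - δ)) *
        ENNReal.ofReal ((1 + |t|) ^ (-(γ * (q - 2 - δ)))) := by
    intro t
    have ht : 0 < 1 + |t| := by positivity
    calc ∫⁻ x : ℝ × ℝ, ‖E0 h (x, t)‖ₑ ^ q
        ≤ ∫⁻ x : ℝ × ℝ, ENNReal.ofReal (m * C₁ * (1 + |t|) ^ (-γ)) ^ (q - 2 - δ) *
            ‖E0 h (x, t)‖ₑ ^ (2 + δ) := by
          refine lintegral_mono fun x => ?_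
          have e : ‖E0 h (x, t)‖ₑ ^ q =
              ‖E0 h (x, t)‖ₑ ^ (q - 2 - δ) * ‖E0 h (x, t)‖ₑ ^ (2 + δ) := by
            rw [← ENNReal.rpow_add_of_nonneg _ _ hq2.le (by linarith)]
            congr 1
            ring
          simp only
          rw [e]
          exact mul_le_mul' (ENNReal.rpow_le_rpow (hE1 S m hS hm hmu h ho hA hh t x) hq2.le) le_rfl
      _ = ENNReal.ofReal (m * C₁ * (1 + |t|) ^ (-γ)) ^ (q - 2 - δ) *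
            ∫⁻ x : ℝ × ℝ, ‖E0 h (x, t)‖ₑ ^ (2 + δ) :=
          lintegral_const_mul' _ _ (ENNReal.rpow_ne_top_of_nonneg hq2.le ENNReal.ofReal_ne_top)
      _ ≤ ENNReal.ofReal (m * C₁ * (1 + |t|) ^ (-γ)) ^ (q - 2 - δ) * ENNReal.ofReal (C₂ * m) :=
          mul_le_mul' le_rfl (hE2 S m hS hm hmu h ho hA hh t)
      _ = _ := by
          rw [ENNReal.ofReal_rpow_of_nonneg (by positivity) hq2.le,
            ← ENNReal.ofReal_mul (by positivity), ← ENNReal.ofReal_mul (by positivity)]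
          congr 1
          rw [Real.mul_rpow (by positivity) (by positivity),
            Real.mul_rpow (by positivity) (by positivity), ← Real.rpow_mul ht.le]
          have e : m ^ (q - 1 - δ) = m ^ (q - 2 - δ) * m := by
            rw [← Real.rpow_add_one hm.ne']
            congr 1
            ring
          rw [e]
          ring_nf
  calc ∫⁻ t : ℝ, ∫⁻ x : ℝ × ℝ, ‖E0 h (x, t)‖ₑ ^ q
      ≤ ∫⁻ t : ℝ, ENNReal.ofReal (C₁ ^ (q - 2 - δ) * C₂ * m ^ (q - 1 - δ)) *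
        ENNReal.ofReal ((1 + |t|) ^ (-(γ * (q - 2 - δ)))) := lintegral_mono key
    _ = ENNReal.ofReal (C₁ ^ (q - 2 - δ) * C₂ * m ^ (q - 1 - δ)) * I := by
        rw [hI]
        exact lintegral_const_mul' _ _ ENNReal.ofReal_ne_top
    _ ≤ ENNReal.ofReal (C₁ ^ (q - 2 - δ) * C₂ * m ^ (q - 1 - δ)) *
        ENNReal.ofReal (I.toReal + 1) := by
        refine mul_le_mul' le_rfl ?_
        calc I = ENNReal.ofReal I.toReal := (ENNReal.ofReal_toReal hfin.ne).symm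
          _ ≤ ENNReal.ofReal (I.toReal + 1) := ENNReal.ofReal_le_ofReal (by linarith)
    _ = _ := by
        rw [← ENNReal.ofReal_mul (by positivity)]
        congr 1
        ring

end Pool.Agent.H.MP_b7167f_an.SV
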