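import Pool.Agent.H.MP_b7167f_an.SV.CoreS
import Pool.Agent.H.MP_b7167f_an.SV.LQT

/-!
Estimates at a fixed time for odd functions supported in a cone.
-/

open MeasureTheory Set Complex
open scoped ENNReal NNReal

namespace Pool.Agent.H.MP_b7167f_an.SV

open Pool.Agent.H.MP_b7167f_an.SS

/-- The norm at the time `t`. -/
noncomputable def NT (q t : ℝ) (h : ℝ × ℝ → ℂ) : ℝ≥0∞ :=
  eLpNorm (fun x : ℝ × ℝ => E0 h (x, t)) (ENNReal.ofReal q) volume

theorem NT_eq {q : ℝ} (hq : 0 < q) (t : ℝ) (h : ℝ × ℝ → ℂ) :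
    NT q t h = (∫⁻ x : ℝ × ℝ, ‖E0 h (x, t)‖ₑ ^ q) ^ (1 / q) := by
  unfold NT
  rw [eLpNorm_eq_lintegral_rpow_enorm_toReal (by simpa using hq) ENNReal.ofReal_ne_top,
    ENNReal.toReal_ofReal hq.le]

/-- The first estimate: from the decay and the exponents near `2`. -/
theorem time_ab (q δ γ : ℝ) (hδ : 0 < δ) (hδ2 : δ < 2) (hδq : δ < q - 2) (hγ0 : 0 < γ)
    (hγ2 : γ < 1 / 2) : ∃ C : ℝ, 0 < C ∧
    ∀ (S : Set (ℝ × ℝ)) (m : ℝ), Cone S → 0 < m → mu S ≤ ENNReal.ofReal m →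
    ∀ h : ℝ × ℝ → ℂ, IsOdd h → Adm 1 h → SuppIn S h → ∀ t : ℝ,
      ∫⁻ x : ℝ × ℝ, ‖E0 h (x, t)‖ₑ ^ q ≤
        ENNReal.ofReal (C * m ^ (q - 1 - δ) * (1 + |t|) ^ (-(γ * (q - 2 - δ)))) := by
  have hq2 : 0 < q - 2 - δ := by linarith
  obtain ⟨C₁, hC₁, hE1⟩ := e0_time_top γ hγ0 hγ2
  obtain ⟨C₂, hC₂, hE2⟩ := e0_time_low (2 + δ) (by linarith) (by linarith)
  refine ⟨C₁ ^ (q - 2 - δ) * C₂, by positivity, fun S m hS hm hmu h ho hA hh t => ?_⟩
  have ht : 0 < 1 + |t| := by positivity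
  calc ∫⁻ x : ℝ × ℝ, ‖E0 h (x, t)‖ₑ ^ q
      ≤ ∫⁻ x : ℝ × ℝ, ENNReal.ofReal (m * C₁ * (1 + |t|) ^ (-γ)) ^ (q - 2 - δ) *
          ‖E0 h (x, t)‖ₑ ^ (2 + δ) := by
        refine lintegral_mono fun x => ?_
        have e : ‖E0 h (x, t)‖ₑ ^ q =
            ‖E0 h (x, t)‖ₑ ^ (q - 2 - δ) * ‖E0 h (x, t)‖ₑ ^ (2 + δ) := by
          rw [← ENNReal.rpow_add_of_nonneg _ _ hq2.le (by linarith)]
          congr 1
          ring
        simp only
        rw [e]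
        exact mul_le_mul' (ENNReal.rpow_le_rpow (hE1 S m hS hm hmu h ho hA hh t x) hq2.le) le_rfl
    _ = ENNReal.ofReal (m * C₁ * (1 + |t|) ^ (-γ)) ^ (q - 2 - δ) *
          ∫⁻ x : ℝ × ℝ, ‖E0 h (x, t)‖ₑ ^ (2 + δ) :=
        lintegral_const_mul' _ _ (ENNReal.rpow_ne_top_of_nonneg hq2.le ENNReal.ofReal_ne_top)
    _ ≤ ENNReal.ofReal (m * C₁ * (1 + |t|) ^ (-γ)) ^ (q - 2 - δ) * ENNReal.ofReal (C₂ * m) :=
        mul_le_mul' le_rfl (hE2 S m hS hm hmu h ho hA hh t)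
    _ = _ := by
        rw [ENNReal.ofReal_rpow_of_nonneg (by positivity) hq2.le,
          ← ENNReal.ofReal_mul (by positivity)]
        congr 1
        rw [Real.mul_rpow (by positivity) (by positivity),
          Real.mul_rpow (by positivity) (by positivity), ← Real.rpow_mul ht.le]
        have e : m ^ (q - 1 - δ) = m ^ (q - 2 - δ) * m := by
          rw [← Real.rpow_add_one hm.ne']
          congr 1
          ring
        rw [e]
        ring_nf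

/-- The second estimate: exponents up to `4`. -/
theorem time_c (q β' : ℝ) (hq : 2 < q) (hq4 : q ≤ 4) (hβ0 : 0 < β') (hβ : β' * q < q - 2) :
    ∃ C : ℝ, 0 < C ∧
    ∀ (S : Set (ℝ × ℝ)) (m : ℝ), Cone S → 0 < m → mu S ≤ ENNReal.ofReal m →
    ∀ h : ℝ × ℝ → ℂ, IsOdd h → Adm 1 h → SuppIn S h → ∀ t : ℝ,
      ∫⁻ x : ℝ × ℝ, ‖E0 h (x, t)‖ₑ ^ q ≤
        ENNReal.ofReal (C * m * (1 + |t|) ^ (-(β' * q))) := by
  have hq0 : 0 < q := by linarith
  have hq2 : 0 < q - 2 := by linarith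
  obtain ⟨β₀, hβ₀⟩ : ∃ β₀ : ℝ, β₀ = (β' + (q - 2) / q) / 2 := ⟨_, rfl⟩
  have h1 : β' < (q - 2) / q := by
    rw [lt_div_iff₀ hq0]
    exact hβ
  obtain ⟨β, hβ1, hβ2, C₁, hC₁, hT⟩ := t1_LqT q β₀ hq hq4 (by rw [hβ₀]; linarith) (by
    have h2 : β₀ < (q - 2) / q := by rw [hβ₀]; linarith
    rw [lt_div_iff₀ hq0] at h2
    exact h2)
  have h3 : β' < β := by
    have : β' < β₀ := by rw [hβ₀]; linarith
    linarith
  obtain ⟨C, hC, hE⟩ := e0_time_gen q C₁ β β' (by linarith) hC₁ hβ0 h3 hβ2 hT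
  refine ⟨C ^ q, by positivity, fun S m hS hm hmu h ho hA hh t => ?_⟩
  have ht : 0 < 1 + |t| := by positivity
  refine (hE S m hS hm hmu h ho hA hh t).trans (le_of_eq ?_)
  rw [ENNReal.ofReal_rpow_of_nonneg (by positivity) hq0.le]
  congr 1
  rw [Real.mul_rpow (by positivity) (by positivity), Real.mul_rpow (by positivity) (by positivity),
    ← Real.rpow_mul hm.le, one_div, inv_mul_cancel₀ hq0.ne', Real.rpow_one,
    ← Real.rpow_mul ht.le]
  ring_nf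

/-- From integrals to norms. -/
theorem NT_of_int {q κ l a b K : ℝ} (hq : 0 < q) (hK : 0 < K) (ha : κ * q ≤ a) (hb : l * q ≤ b)
    {h : ℝ × ℝ → ℂ} {m t : ℝ} (hm : 0 < m) (hm16 : m ≤ 16)
    (hI : ∫⁻ x : ℝ × ℝ, ‖E0 h (x, t)‖ₑ ^ q ≤ ENNReal.ofReal (K * m ^ a * (1 + |t|) ^ (-b))) :
    NT q t h ≤ ((Real.toNNReal (K ^ (1 / q) * 16 ^ (a / q - κ)) : ℝ≥0) : ℝ≥0∞) *
        ENNReal.ofReal (m ^ κ) * ENNReal.ofReal ((1 + |t|) ^ (-l)) := by
  have haq : κ ≤ a / q := by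
    rw [le_div_iff₀ hq]
    exact ha
  have hbq : l ≤ b / q := by
    rw [le_div_iff₀ hq]
    exact hb
  have ht : 1 ≤ 1 + |t| := by linarith [abs_nonneg t]
  have ht0 : 0 < 1 + |t| := by linarith
  rw [NT_eq hq]
  refine (ENNReal.rpow_le_rpow hI (by positivity)).trans ?_
  rw [ENNReal.ofReal_rpow_of_nonneg (by positivity) (by positivity)]
  show _ ≤ ENNReal.ofReal (K ^ (1 / q) * 16 ^ (a / q - κ)) * ENNReal.ofReal (m ^ κ) *
    ENNReal.ofReal ((1 + |t|) ^ (-l))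
  rw [← ENNReal.ofReal_mul (by positivity), ← ENNReal.ofReal_mul (by positivity)]
  refine ENNReal.ofReal_le_ofReal ?_
  rw [Real.mul_rpow (by positivity) (by positivity), Real.mul_rpow hK.le (by positivity),
    ← Real.rpow_mul hm.le, ← Real.rpow_mul ht0.le, mul_one_div, mul_one_div]
  have h1 : m ^ (a / q) = m ^ (a / q - κ) * m ^ κ := by
    rw [← Real.rpow_add hm]
    congr 1
    ring
  have h2 : m ^ (a / q - κ) ≤ 16 ^ (a / q - κ) :=
    Real.rpow_le_rpow hm.le hm16 (by linarith)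
  have h3 : (1 + |t|) ^ (-b / q) ≤ (1 + |t|) ^ (-l) := by
    apply Real.rpow_le_rpow_of_exponent_le ht
    rw [neg_div]
    linarith
  rw [h1, ← mul_assoc]
  gcongr

/-- The estimate for odd functions at a fixed time. -/
theorem oddT (q θ κ l : ℝ) (hq : 2 < q) (hθ0 : 0 ≤ θ) (hθ1 : θ ≤ 1) (hqθ : q ≤ 4 ∨ θ = 1)
    (hκ : κ * q < 1 + θ * (q - 2)) (hl : l * q < (q - 2) * (1 - θ / 2)) : ∃ C : ℝ≥0,
    ∀ (S : Set (ℝ × ℝ)) (m : ℝ), Cone S → 0 < m → m ≤ 16 → mu S ≤ ENNReal.ofReal m →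
    ∀ h : ℝ × ℝ → ℂ, IsOdd h → Adm 1 h → SuppIn S h → ∀ t : ℝ,
      NT q t h ≤ C * ENNReal.ofReal (m ^ κ) * ENNReal.ofReal ((1 + |t|) ^ (-l)) := by
  have hq0 : 0 < q := by linarith
  have hq2 : 0 < q - 2 := by linarith
  obtain ⟨ε, hε⟩ : ∃ ε : ℝ, ε = min (min (1 + θ * (q - 2) - κ * q)
    (((q - 2) * (1 - θ / 2) - l * q) / (q + 2))) (min ((q - 2) / 2) (1 / 4)) := ⟨_, rfl⟩
  have hε0 : 0 < ε := by
    rw [hε]
    exact lt_min (lt_min (by linarith) (div_pos (by linarith) (by linarith)))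
      (lt_min (by linarith) (by norm_num))
  have hε1 : ε ≤ 1 + θ * (q - 2) - κ * q := hε ▸ (min_le_left _ _).trans (min_le_left _ _)
  have hε2 : ε ≤ ((q - 2) * (1 - θ / 2) - l * q) / (q + 2) :=
    hε ▸ (min_le_left _ _).trans (min_le_right _ _)
  have hε3 : ε ≤ (q - 2) / 2 := hε ▸ (min_le_right _ _).trans (min_le_left _ _)
  have hε4 : ε ≤ 1 / 4 := hε ▸ (min_le_right _ _).trans (min_le_right _ _)
  have hε2' : ε * (q + 2) ≤ (q - 2) * (1 - θ / 2) - l * q := by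
    rwa [le_div_iff₀ (by linarith)] at hε2
  obtain ⟨C₂, hC₂, h2⟩ := time_ab q ε (1 / 2 - ε) hε0 (by linarith) (by linarith) (by linarith)
    (by linarith)
  rcases eq_or_ne θ 1 with hθ | hθ
  · subst hθ
    refine ⟨Real.toNNReal (C₂ ^ (1 / q) * 16 ^ ((q - 1 - ε) / q - κ)),
      fun S m hS hm hm16 hmu h ho hA hh t => ?_⟩
    refine NT_of_int hq0 hC₂ (by linarith) ?_ hm hm16 (h2 S m hS hm hmu h ho hA hh t)
    nlinarith
  · have hq4 : q ≤ 4 := hqθ.resolve_right hθ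
    obtain ⟨C₁, hC₁, h1⟩ := time_c q ((q - 2 - ε) / q) hq hq4 (div_pos (by linarith) hq0) (by
      rw [div_mul_cancel₀ _ hq0.ne']
      linarith)
    have e0 : (q - 2 - ε) / q * q = q - 2 - ε := div_mul_cancel₀ _ hq0.ne'
    rw [e0] at h1
    have hθ2 : 0 ≤ 1 - θ := by linarith
    obtain ⟨a, ha⟩ : ∃ a : ℝ, a = (1 - θ) + θ * (q - 1 - ε) := ⟨_, rfl⟩
    obtain ⟨b, hb⟩ : ∃ b : ℝ, b = (1 - θ) * (q - 2 - ε) + θ * ((1 / 2 - ε) * (q - 2 - ε)) :=
      ⟨_, rfl⟩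
    refine ⟨Real.toNNReal ((C₁ ^ (1 - θ) * C₂ ^ θ) ^ (1 / q) * 16 ^ (a / q - κ)),
      fun S m hS hm hm16 hmu h ho hA hh t => ?_⟩
    have ht : 0 < 1 + |t| := by positivity
    refine NT_of_int (b := b) hq0 (by positivity) (a := a) ?_ ?_ hm hm16 ?_
    · rw [ha]
      nlinarith
    · rw [hb]
      have e1 : (1 - θ) * (q - 2 - ε) ≥ (1 - θ) * (q - 2) - ε := by nlinarith
      have e2 : θ * ((1 / 2 - ε) * (q - 2 - ε)) ≥ θ * ((q - 2) / 2) - ε * (q - 2) - ε := by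
        have e3 : θ * ((1 / 2 - ε) * (q - 2 - ε)) = θ * ((q - 2) / 2) - θ * (ε * (q - 2)) -
          θ * (ε / 2) + θ * ε ^ 2 := by ring
        rw [e3]
        have e4 : θ * (ε * (q - 2)) ≤ 1 * (ε * (q - 2)) :=
          mul_le_mul_of_nonneg_right hθ1 (by positivity)
        have e5 : θ * (ε / 2) ≤ 1 * (ε / 2) := mul_le_mul_of_nonneg_right hθ1 (by positivity)
        have e6 : 0 ≤ θ * ε ^ 2 := by positivity
        linarith
      nlinarith
    · calc ∫⁻ x : ℝ × ℝ, ‖E0 h (x, t)‖ₑ ^ q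
          = (∫⁻ x : ℝ × ℝ, ‖E0 h (x, t)‖ₑ ^ q) ^ (1 - θ) *
            (∫⁻ x : ℝ × ℝ, ‖E0 h (x, t)‖ₑ ^ q) ^ θ := by
            rw [← ENNReal.rpow_add_of_nonneg _ _ hθ2 hθ0, sub_add_cancel, ENNReal.rpow_one]
        _ ≤ ENNReal.ofReal (C₁ * m * (1 + |t|) ^ (-(q - 2 - ε))) ^ (1 - θ) *
            ENNReal.ofReal (C₂ * m ^ (q - 1 - ε) *
              (1 + |t|) ^ (-((1 / 2 - ε) * (q - 2 - ε)))) ^ θ :=
            mul_le_mul' (ENNReal.rpow_le_rpow (h1 S m hS hm hmu h ho hA hh t) hθ2)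
              (ENNReal.rpow_le_rpow (h2 S m hS hm hmu h ho hA hh t) hθ0)
        _ = _ := by
            rw [ENNReal.ofReal_rpow_of_nonneg (by positivity) hθ2,
              ENNReal.ofReal_rpow_of_nonneg (by positivity) hθ0,
              ← ENNReal.ofReal_mul (by positivity)]
            congr 1
            rw [Real.mul_rpow (by positivity) (by positivity), Real.mul_rpow hC₁.le hm.le,
              Real.mul_rpow (by positivity) (by positivity), Real.mul_rpow hC₂.le (by positivity),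
              ← Real.rpow_mul hm.le, ← Real.rpow_mul ht.le, ← Real.rpow_mul ht.le]
            have e1 : m ^ a = m ^ (1 - θ) * m ^ ((q - 1 - ε) * θ) := by
              rw [← Real.rpow_add hm, ha]
              congr 1
              ring
            have e2 : (1 + |t|) ^ (-b) = (1 + |t|) ^ (-(q - 2 - ε) * (1 - θ)) *
                (1 + |t|) ^ (-((1 / 2 - ε) * (q - 2 - ε)) * θ) := by
              rw [← Real.rpow_add ht, hb]
              congr 1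
              ring
            rw [e1, e2]
            ring

end Pool.Agent.H.MP_b7167f_an.SV
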