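import Pool.Agent.H.MP_b7167f_an.SV.Cone

open MeasureTheory Set Complex
open scoped ENNReal

namespace Pool.Agent.H.MP_b7167f_an.SV

open Pool.Agent.H.MP_b7167f_an.SS

/-- The prefactor. -/
noncomputable def coreW_pr (τ : ℝ) : ℂ :=
  I / (2 * aa τ) * (Real.pi / aa τ) ^ (1 / 2 : ℂ)

theorem coreW_aa (τ : ℝ) : ‖aa τ‖ = Real.sqrt (1 + τ ^ 2) := by
  have h1 : aa τ = (1 : ℝ) + ((-τ : ℝ) : ℂ) * I := by
    unfold aa
    push_cast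
    ring
  rw [h1, Complex.norm_add_mul_I]
  congr 1
  ring

theorem coreW_aa0 (τ : ℝ) : aa τ ≠ 0 := by
  intro h
  have h1 := coreW_aa τ
  rw [h, norm_zero] at h1
  have h2 : 0 < Real.sqrt (1 + τ ^ 2) := Real.sqrt_pos.2 (by positivity)
  linarith

theorem coreW_pr_norm (τ : ℝ) :
    ‖((1 / (4 * Real.pi) : ℝ) : ℂ) * coreW_pr τ‖ ≤ (1 + τ ^ 2) ^ (-(3 / 4) : ℝ) := by
  have h0 : (0 : ℝ) < 1 + τ ^ 2 := by positivity
  have hs : 0 < Real.sqrt (1 + τ ^ 2) := Real.sqrt_pos.2 h0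
  have h1 : ‖((Real.pi : ℂ) / aa τ) ^ (1 / 2 : ℂ)‖ =
      (Real.pi / Real.sqrt (1 + τ ^ 2)) ^ (1 / 2 : ℝ) := by
    have e : (1 / 2 : ℂ) = ((1 / 2 : ℝ) : ℂ) := by norm_num
    rw [e, Complex.norm_cpow_real, norm_div, coreW_aa, Complex.norm_real,
      Real.norm_of_nonneg Real.pi_pos.le]
  have h2 : ‖((1 / (4 * Real.pi) : ℝ) : ℂ) * coreW_pr τ‖ =
      1 / (4 * Real.pi) * (1 / (2 * Real.sqrt (1 + τ ^ 2)) *
        (Real.pi / Real.sqrt (1 + τ ^ 2)) ^ (1 / 2 : ℝ)) := by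
    unfold coreW_pr
    rw [norm_mul, norm_mul, h1, norm_div, norm_mul, coreW_aa, Complex.norm_I, Complex.norm_real,
      Real.norm_of_nonneg (by positivity)]
    norm_num
  rw [h2, Real.div_rpow Real.pi_pos.le hs.le]
  have h3 : Real.sqrt (1 + τ ^ 2) ^ (1 / 2 : ℝ) = (1 + τ ^ 2) ^ (1 / 4 : ℝ) := by
    rw [Real.sqrt_eq_rpow, ← Real.rpow_mul h0.le]
    norm_num
  have h4 : (1 + τ ^ 2) ^ (-(3 / 4) : ℝ) =
      1 / (Real.sqrt (1 + τ ^ 2) * (1 + τ ^ 2) ^ (1 / 4 : ℝ)) := by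
    rw [Real.sqrt_eq_rpow, ← Real.rpow_add h0, Real.rpow_neg h0.le, one_div]
    norm_num
  rw [h3, h4]
  have h5 : Real.pi ^ (1 / 2 : ℝ) ≤ Real.pi := by
    have := Real.rpow_le_rpow_of_exponent_le (x := Real.pi) (by linarith [Real.pi_gt_three])
      (show (1 / 2 : ℝ) ≤ 1 by norm_num)
    rwa [Real.rpow_one] at this
  have h6 : 0 < (1 + τ ^ 2) ^ (1 / 4 : ℝ) := Real.rpow_pos_of_pos h0 _
  have h7 : 1 / (4 * Real.pi) * (1 / (2 * Real.sqrt (1 + τ ^ 2)) *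
      (Real.pi ^ (1 / 2 : ℝ) / (1 + τ ^ 2) ^ (1 / 4 : ℝ))) =
      (Real.pi ^ (1 / 2 : ℝ) / (8 * Real.pi)) *
        (1 / (Real.sqrt (1 + τ ^ 2) * (1 + τ ^ 2) ^ (1 / 4 : ℝ))) := by
    field_simp
    ring
  rw [h7]
  refine mul_le_of_le_one_left (by positivity) ?_
  rw [div_le_one (by positivity)]
  linarith [Real.pi_pos]

theorem coreW_pow (f : ℝ × ℝ → ℂ) {q : ℝ} (hq : 0 < q) :
    ∫⁻ x, ‖f x‖ₑ ^ q = eLpNorm f (ENNReal.ofReal q) volume ^ q := by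
  rw [eLpNorm_eq_lintegral_rpow_enorm_toReal (by simpa using hq) ENNReal.ofReal_ne_top,
    ENNReal.toReal_ofReal hq.le, ← ENNReal.rpow_mul, one_div, inv_mul_cancel₀ hq.ne',
    ENNReal.rpow_one]

/-- The majorant of the integrand of `rep`. -/
noncomputable def coreW_phi (h : ℝ × ℝ → ℂ) (t τ : ℝ) (x : ℝ × ℝ) : ℝ≥0∞ :=
  ‖((1 / (4 * Real.pi) : ℝ) : ℂ) * (coreW_pr τ * T1 τ (fun θ => gh h θ (τ - t)) x)‖ₑ

theorem coreW_pr_meas : Measurable coreW_pr := by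
  have m4 : Measurable aa := by
    unfold aa
    fun_prop
  unfold coreW_pr
  exact (measurable_const.div (measurable_const.mul m4)).mul
    ((measurable_const.div m4).pow_const _)

theorem coreW_phi_meas (h : ℝ × ℝ → ℂ) (hh : Measurable h) (t : ℝ) :
    Measurable (Function.uncurry (coreW_phi h t)) := by
  have m1 := phi_meas (fun p => gh h p.1 p.2) (gh_meas h hh)
  have m2 : Measurable fun p : ℝ × (ℝ × ℝ) => (((t, p.1), p.2) : (ℝ × ℝ) × (ℝ × ℝ)) := by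
    fun_prop
  have m3 := m1.comp m2
  have m5 : Measurable fun p : ℝ × (ℝ × ℝ) => coreW_pr p.1 :=
    coreW_pr_meas.comp measurable_fst
  exact (measurable_const.mul (m5.mul m3)).enorm

theorem coreW_one (T : ℝ × ℝ → ℂ) (u k : ℂ) (a b c q : ℝ) (hq : 0 < q) (ha : 0 ≤ a)
    (hc : 0 ≤ c) (hu : ‖u‖ ≤ a) (hk : ‖k‖ ≤ c)
    (hT : eLpNorm T (ENNReal.ofReal q) volume ≤ ENNReal.ofReal b) :
    ∫⁻ x, ‖u * (k * T x)‖ₑ ^ q ≤ ENNReal.ofReal (a * c * b) ^ q := by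
  have h1 : ∀ x, ‖u * (k * T x)‖ₑ ^ q = (‖u‖ₑ * ‖k‖ₑ) ^ q * ‖T x‖ₑ ^ q := by
    intro x
    rw [enorm_mul, enorm_mul, ← mul_assoc, ENNReal.mul_rpow_of_nonneg _ _ hq.le]
  calc ∫⁻ x, ‖u * (k * T x)‖ₑ ^ q = ∫⁻ x, (‖u‖ₑ * ‖k‖ₑ) ^ q * ‖T x‖ₑ ^ q := lintegral_congr h1
    _ = (‖u‖ₑ * ‖k‖ₑ) ^ q * ∫⁻ x, ‖T x‖ₑ ^ q :=
        lintegral_const_mul' _ _ (ENNReal.rpow_ne_top_of_nonneg hq.le
          (ENNReal.mul_ne_top enorm_ne_top enorm_ne_top))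
    _ = (‖u‖ₑ * ‖k‖ₑ * eLpNorm T (ENNReal.ofReal q) volume) ^ q := by
        rw [coreW_pow _ hq, ENNReal.mul_rpow_of_nonneg _ (eLpNorm _ _ _) hq.le]
    _ ≤ ENNReal.ofReal (a * c * b) ^ q := by
        refine ENNReal.rpow_le_rpow ?_ hq.le
        rw [ENNReal.ofReal_mul (mul_nonneg ha hc), ENNReal.ofReal_mul ha]
        refine mul_le_mul' (mul_le_mul' ?_ ?_) hT
        · rw [← ofReal_norm]
          exact ENNReal.ofReal_le_ofReal hu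
        · rw [← ofReal_norm]
          exact ENNReal.ofReal_le_ofReal hk

theorem coreW_real (C₁ β t τ : ℝ) :
    (1 + τ ^ 2) ^ (-(3 / 4) : ℝ) * (24 / (1 + |τ - t|)) *
      (C₁ * (1 + τ ^ 2) ^ (3 / 4 : ℝ) * (1 + |τ|) ^ (-β)) =
      24 * C₁ * ((1 + |τ - t|) ^ (-1 : ℝ) * (1 + |τ|) ^ (-β)) := by
  have e1 : (1 + τ ^ 2) ^ (-(3 / 4) : ℝ) * (1 + τ ^ 2) ^ (3 / 4 : ℝ) = 1 := by
    rw [← Real.rpow_add (by positivity)]
    norm_num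
  have e2 : 24 / (1 + |τ - t|) = 24 * (1 + |τ - t|) ^ (-1 : ℝ) := by
    rw [Real.rpow_neg_one, div_eq_mul_inv]
  rw [e2]
  linear_combination (24 * C₁ * ((1 + |τ - t|) ^ (-1 : ℝ) * (1 + |τ|) ^ (-β))) * e1

theorem coreW_scale (k : ℂ) (hk : k ≠ 0) (τ : ℝ) (g : ℝ → ℂ) (x : ℝ × ℝ) :
    T1 τ g x = k * T1 τ (fun θ => k⁻¹ * g θ) x := by
  rw [← t1_smul]
  simp only [mul_inv_cancel_left₀ hk]

theorem coreW_gm (h : ℝ × ℝ → ℂ) (hh : Measurable h) (η : ℝ) :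
    Measurable fun θ : ℝ => gh h θ η := by
  have h1 : Measurable fun θ : ℝ => ((θ, η) : ℝ × ℝ) := measurable_id.prodMk measurable_const
  have h2 := (gh_meas h hh).comp h1
  exact h2

theorem coreW_key {S : Set (ℝ × ℝ)} (hS : Cone S) (q C₁ β : ℝ) (hq : 0 < q) (τ : ℝ)
    (hT : ∀ c : ℝ → ℂ, Measurable c → (∀ θ, ‖c θ‖ ≤ 1) →
      (∀ θ, (Real.cos θ, Real.sin θ) ∉ S → c θ = 0) →
      eLpNorm (T1 τ c) (ENNReal.ofReal q) volume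
        ≤ ENNReal.ofReal (C₁ * (1 + τ ^ 2) ^ (3 / 4 : ℝ) * (1 + |τ|) ^ (-β)))
    (h : ℝ × ℝ → ℂ) (hA : Adm 1 h) (hh : SuppIn S h) (t : ℝ) :
    ∫⁻ x, coreW_phi h t τ x ^ q ≤
      ENNReal.ofReal (24 * C₁ * ((1 + |τ - t|) ^ (-1 : ℝ) * (1 + |τ|) ^ (-β))) ^ q := by
  have hk0 : 0 < 24 / (1 + |τ - t|) := by positivity
  obtain ⟨k, hk⟩ : ∃ k : ℝ, k = 24 / (1 + |τ - t|) := ⟨_, rfl⟩
  rw [← hk] at hk0
  have hk0' : (k : ℂ) ≠ 0 := by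
    exact_mod_cast hk0.ne'
  have hgm : Measurable fun θ : ℝ => gh h θ (τ - t) := coreW_gm h hA.meas (τ - t)
  have hcm : Measurable fun θ : ℝ => (k : ℂ)⁻¹ * gh h θ (τ - t) := measurable_const.mul hgm
  have hcb : ∀ θ, ‖(k : ℂ)⁻¹ * gh h θ (τ - t)‖ ≤ 1 := by
    intro θ
    have h1 := gh_bound h 1 hA θ (τ - t)
    rw [mul_one, ← hk] at h1
    rw [norm_mul, norm_inv, Complex.norm_real, Real.norm_of_nonneg hk0.le, inv_mul_le_iff₀ hk0,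
      mul_one]
    exact h1
  have hcs : ∀ θ, (Real.cos θ, Real.sin θ) ∉ S → (k : ℂ)⁻¹ * gh h θ (τ - t) = 0 := by
    intro θ hθ
    rw [gh_supp hS hh θ _ hθ, mul_zero]
  have hT1 : ∀ x, T1 τ (fun θ => gh h θ (τ - t)) x =
      (k : ℂ) * T1 τ (fun θ => (k : ℂ)⁻¹ * gh h θ (τ - t)) x :=
    coreW_scale k hk0' τ _
  have hφe : ∀ x, coreW_phi h t τ x ^ q =
      ‖((1 / (4 * Real.pi) : ℝ) : ℂ) * coreW_pr τ *
        ((k : ℂ) * T1 τ (fun θ => (k : ℂ)⁻¹ * gh h θ (τ - t)) x)‖ₑ ^ q := by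
    intro x
    unfold coreW_phi
    rw [hT1 x, mul_assoc]
  rw [lintegral_congr hφe]
  refine (coreW_one (T1 τ fun θ => (k : ℂ)⁻¹ * gh h θ (τ - t))
    (((1 / (4 * Real.pi) : ℝ) : ℂ) * coreW_pr τ) k ((1 + τ ^ 2) ^ (-(3 / 4) : ℝ))
    (C₁ * (1 + τ ^ 2) ^ (3 / 4 : ℝ) * (1 + |τ|) ^ (-β)) k q hq (by positivity) hk0.le
    (coreW_pr_norm τ) ?_ (hT _ hcm hcb hcs)).trans (le_of_eq ?_)
  · rw [Complex.norm_real, Real.norm_of_nonneg hk0.le]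
  · rw [hk, coreW_real]

theorem coreW_le (h : ℝ × ℝ → ℂ) (ho : IsOdd h) (hA : Adm 1 h) (t : ℝ) (x : ℝ × ℝ) :
    ‖E0 h (x, t)‖ₑ ≤ ∫⁻ τ, coreW_phi h t τ x := by
  rw [rep h 1 hA ho x t, ← integral_const_mul]
  exact enorm_integral_le_lintegral_enorm _

/-- From the operators `T1` to the extension operator at a fixed time. -/
theorem e0_time_gen (q C₁ β β' : ℝ) (hq : 1 < q) (hC₁ : 0 < C₁) (h0 : 0 < β') (h1 : β' < β)
    (h2 : β < 1)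
    (hT : ∀ (t : ℝ) (c : ℝ → ℂ), Measurable c → (∀ θ, ‖c θ‖ ≤ 1) →
      eLpNorm (T1 t c) (ENNReal.ofReal q) volume
        ≤ ENNReal.ofReal (C₁ * (1 + t ^ 2) ^ (3 / 4 : ℝ) * (1 + |t|) ^ (-β)) *
          (∫⁻ θ, ‖c θ‖ₑ ∂nu) ^ (1 / q)) : ∃ C : ℝ, 0 < C ∧
    ∀ (S : Set (ℝ × ℝ)) (m : ℝ), Cone S → 0 < m → mu S ≤ ENNReal.ofReal m →
    ∀ h : ℝ × ℝ → ℂ, IsOdd h → Adm 1 h → SuppIn S h → ∀ t : ℝ,
      ∫⁻ x : ℝ × ℝ, ‖E0 h (x, t)‖ₑ ^ q ≤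
        ENNReal.ofReal (m ^ (1 / q) * C * (1 + |t|) ^ (-β')) ^ q := by
  have hq0 : 0 < q := by linarith
  have hqi : 0 < 1 / q := by positivity
  obtain ⟨C₃, hC₃, hconv⟩ := conv β β' h0 h1 h2
  refine ⟨24 * C₁ * C₃, by positivity, fun S m hS hm hmu h ho hA hh t => ?_⟩
  obtain ⟨D, hD⟩ : ∃ D : ℝ, D = m ^ (1 / q) := ⟨_, rfl⟩
  have hD0 : 0 < D := by rw [hD]; positivity
  have hwm : Measurable fun τ : ℝ =>
      ENNReal.ofReal (24 * (D * C₁) * ((1 + |τ - t|) ^ (-1 : ℝ) * (1 + |τ|) ^ (-β))) := by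
    fun_prop
  have hwp : ∀ τ : ℝ, 0 < 24 * (D * C₁) * ((1 + |τ - t|) ^ (-1 : ℝ) * (1 + |τ|) ^ (-β)) := by
    intro τ
    positivity
  have hT' : ∀ τ : ℝ, ∀ c : ℝ → ℂ, Measurable c → (∀ θ, ‖c θ‖ ≤ 1) →
      (∀ θ, (Real.cos θ, Real.sin θ) ∉ S → c θ = 0) →
      eLpNorm (T1 τ c) (ENNReal.ofReal q) volume
        ≤ ENNReal.ofReal (D * C₁ * (1 + τ ^ 2) ^ (3 / 4 : ℝ) * (1 + |τ|) ^ (-β)) := by
    intro τ c hc hc1 hc0
    refine (hT τ c hc hc1).trans ?_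
    have h1 : (∫⁻ θ, ‖c θ‖ₑ ∂nu) ^ (1 / q) ≤ ENNReal.ofReal D := by
      rw [hD, ← ENNReal.ofReal_rpow_of_nonneg hm.le hqi.le]
      exact ENNReal.rpow_le_rpow ((lint_le_mu hS c hc1 hc0).trans hmu) hqi.le
    refine (mul_le_mul' le_rfl h1).trans (le_of_eq ?_)
    rw [mul_comm, ← ENNReal.ofReal_mul hD0.le]
    congr 1
    ring
  have hmk := mink q (by linarith) (coreW_phi h t) (coreW_phi_meas h hA.meas t) _ hwm
    (fun τ => (ENNReal.ofReal_pos.2 (hwp τ)).ne') (fun τ => ENNReal.ofReal_ne_top)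
    (fun τ => coreW_key hS q (D * C₁) β hq0 τ (hT' τ) h hA hh t)
  refine (lintegral_mono fun x => ENNReal.rpow_le_rpow (coreW_le h ho hA t x) hq0.le).trans
    (hmk.trans (ENNReal.rpow_le_rpow ?_ hq0.le))
  have e1 : ∫⁻ τ : ℝ,
      ENNReal.ofReal (24 * (D * C₁) * ((1 + |τ - t|) ^ (-1 : ℝ) * (1 + |τ|) ^ (-β))) =
      ENNReal.ofReal (24 * (D * C₁)) *
        ∫⁻ τ : ℝ, ENNReal.ofReal ((1 + |τ - t|) ^ (-1 : ℝ) * (1 + |τ|) ^ (-β)) := by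
    rw [← lintegral_const_mul' _ _ ENNReal.ofReal_ne_top]
    refine lintegral_congr fun τ => ?_
    rw [← ENNReal.ofReal_mul (by positivity)]
  rw [e1]
  refine (mul_le_mul_right (hconv t) _).trans (le_of_eq ?_)
  rw [← ENNReal.ofReal_mul (by positivity), ← hD]
  congr 1
  ring

theorem e0_timew (q : ℝ) (hq : 3 < q) (hq4 : q < 4) : ∃ β' : ℝ, 1 / q < β' ∧ ∃ C : ℝ, 0 < C ∧
    ∀ (S : Set (ℝ × ℝ)) (m : ℝ), Cone S → 0 < m → mu S ≤ ENNReal.ofReal m →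
    ∀ h : ℝ × ℝ → ℂ, IsOdd h → Adm 1 h → SuppIn S h → ∀ t : ℝ,
      ∫⁻ x : ℝ × ℝ, ‖E0 h (x, t)‖ₑ ^ q ≤
        ENNReal.ofReal (m ^ (1 / q) * C * (1 + |t|) ^ (-β')) ^ q := by
  obtain ⟨β, hβ1, hβ2, C₁, hC₁, hT⟩ := t1_Lqw q hq hq4
  have hq0 : 0 < q := by linarith
  have hqi : 0 < 1 / q := by positivity
  refine ⟨(1 / q + β) / 2, by linarith, ?_⟩
  exact e0_time_gen q C₁ β ((1 / q + β) / 2) (by linarith) hC₁ (by linarith) (by linarith) hβ2 hT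

theorem core_oddw (q : ℝ) (hq : 3 < q) (hq4 : q < 4) : ∃ C : NNReal,
    ∀ (S : Set (ℝ × ℝ)) (m : ℝ), Cone S → 0 < m → mu S ≤ ENNReal.ofReal m →
    ∀ h : ℝ × ℝ → ℂ, IsOdd h → Adm 1 h → SuppIn S h →
      eLpNorm (E0 h) (ENNReal.ofReal q) volume ≤ C * ENNReal.ofReal (m ^ (1 / q)) := by
  obtain ⟨β', hβ', C, hC, hE⟩ := e0_timew q hq hq4
  have hq0 : 0 < q := by linarith
  have hb : 1 < β' * q := by
    rwa [div_lt_iff₀ hq0] at hβ'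
  obtain ⟨D, hD⟩ : ∃ D : ℝ≥0∞, D =
      ∫⁻ t : ℝ, ENNReal.ofReal (C * (1 + |t|) ^ (-β')) ^ q := ⟨_, rfl⟩
  have hDt : D ≠ ⊤ := by
    have h1 := finite_integral_one_add_norm (E := ℝ) (μ := volume) (r := β' * q) (by simpa using hb)
    have h2 : D = ENNReal.ofReal (C ^ q) * ∫⁻ t : ℝ, ENNReal.ofReal ((1 + ‖t‖) ^ (-(β' * q))) := by
      rw [hD, ← lintegral_const_mul' _ _ ENNReal.ofReal_ne_top]
      refine lintegral_congr fun t => ?_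
      rw [ENNReal.ofReal_rpow_of_pos (by positivity), ← ENNReal.ofReal_mul (by positivity),
        Real.mul_rpow hC.le (by positivity), ← Real.rpow_mul (by positivity), Real.norm_eq_abs]
      congr 3
      ring
    rw [h2]
    exact ENNReal.mul_ne_top ENNReal.ofReal_ne_top h1.ne
  refine ⟨(D ^ (1 / q)).toNNReal, fun S m hS hm hmu h ho hA hh => ?_⟩
  rw [ENNReal.coe_toNNReal (ENNReal.rpow_ne_top_of_nonneg (by positivity) hDt),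
    eLpNorm_eq_lintegral_rpow_enorm_toReal (by simpa using hq0) ENNReal.ofReal_ne_top,
    ENNReal.toReal_ofReal hq0.le]
  obtain ⟨M, hM⟩ : ∃ M : ℝ, M = m ^ (1 / q) := ⟨_, rfl⟩
  have hM0 : 0 < M := by rw [hM]; positivity
  have e2 : D ^ (1 / q) * ENNReal.ofReal M = (ENNReal.ofReal M ^ q * D) ^ (1 / q) := by
    rw [ENNReal.mul_rpow_of_nonneg _ _ (by positivity), ← ENNReal.rpow_mul, mul_one_div,
      div_self hq0.ne', ENNReal.rpow_one, mul_comm]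
  rw [← hM, e2]
  refine ENNReal.rpow_le_rpow ?_ (by positivity)
  have hm' : Measurable fun y : (ℝ × ℝ) × ℝ => ‖E0 h y‖ₑ ^ q :=
    ((e0_meas h hA.meas).enorm).pow_const q
  rw [Measure.volume_eq_prod, lintegral_prod_symm _ hm'.aemeasurable, hD,
    ← lintegral_const_mul' _ _ (ENNReal.rpow_ne_top_of_nonneg hq0.le ENNReal.ofReal_ne_top)]
  refine lintegral_mono fun t => (hE S m hS hm hmu h ho hA hh t).trans (le_of_eq ?_)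
  rw [← ENNReal.mul_rpow_of_nonneg _ _ hq0.le, ← ENNReal.ofReal_mul hM0.le, ← hM, mul_assoc]

end Pool.Agent.H.MP_b7167f_an.SV
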