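import Pool.Agent.H.MP_b7167f_an.SV.Polar

/-!
Cutting off a function outside of a set of directions.
-/

open MeasureTheory Set
open scoped ENNReal NNReal

namespace Pool.Agent.H.MP_b7167f_an.SV

open Pool.Agent.H.MP_b7167f_an.SS

/-- The direction of `z`, in `(-π, π]`. -/
noncomputable def dir (z : ℝ × ℝ) : ℝ := Complex.arg ((z.1 : ℂ) + (z.2 : ℂ) * Complex.I)

/-- The function `h`, replaced by zero outside of the directions in `T`. -/
noncomputable def cutT (T : Set ℝ) (h : ℝ × ℝ → ℂ) : ℝ × ℝ → ℂ :=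
  {z : ℝ × ℝ | z ≠ 0 ∧ dir z ∈ T}.indicator h

/-- The symmetric cone generated by the directions in `T`. -/
def coneT (T : Set ℝ) : Set (ℝ × ℝ) := {z : ℝ × ℝ | z ≠ 0 ∧ (dir z ∈ T ∨ dir (-z) ∈ T)}

theorem measurable_dir : Measurable dir := by
  unfold dir
  exact Complex.measurable_arg.comp (by fun_prop)

theorem dir_mem (z : ℝ × ℝ) : dir z ∈ Ioc (-Real.pi) Real.pi := Complex.arg_mem_Ioc _

theorem dir_smul {l : ℝ} (hl : 0 < l) (z : ℝ × ℝ) : dir (l * z.1, l * z.2) = dir z := by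
  unfold dir
  have : (((l * z.1 : ℝ) : ℂ) + ((l * z.2 : ℝ) : ℂ) * Complex.I) =
      (l : ℂ) * ((z.1 : ℂ) + (z.2 : ℂ) * Complex.I) := by
    push_cast
    ring
  simp only
  rw [this, Complex.arg_real_mul _ hl]

theorem dir_cos_sin {θ : ℝ} (hθ : θ ∈ Ioc (-Real.pi) Real.pi) :
    dir (Real.cos θ, Real.sin θ) = θ := by
  unfold dir
  simp only [Complex.ofReal_cos, Complex.ofReal_sin]
  exact Complex.arg_cos_add_sin_mul_I hθ

theorem dir_polar {θ r : ℝ} (hθ : θ ∈ Ioc (-Real.pi) Real.pi) (hr : 0 < r) :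
    dir (r * Real.cos θ, r * Real.sin θ) = θ := by
  rw [dir_smul hr (Real.cos θ, Real.sin θ), dir_cos_sin hθ]

/-- Polar coordinates. -/
theorem exists_polar {z : ℝ × ℝ} (hz : z ≠ 0) : ∃ r : ℝ, 0 < r ∧
    z = (r * Real.cos (dir z), r * Real.sin (dir z)) := by
  have h0 : ((z.1 : ℂ) + (z.2 : ℂ) * Complex.I) ≠ 0 := by
    intro h
    apply hz
    have h1 := congrArg Complex.re h
    have h2 := congrArg Complex.im h
    simp at h1 h2
    exact Prod.ext h1 h2
  refine ⟨‖((z.1 : ℂ) + (z.2 : ℂ) * Complex.I)‖, norm_pos_iff.2 h0, ?_⟩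
  have h3 := Complex.norm_mul_cos_add_sin_mul_I ((z.1 : ℂ) + (z.2 : ℂ) * Complex.I)
  have h1 := congrArg Complex.re h3
  have h2 := congrArg Complex.im h3
  unfold dir
  rw [← Complex.ofReal_cos, ← Complex.ofReal_sin] at h1 h2
  simp only [Complex.mul_re, Complex.mul_im, Complex.add_re, Complex.add_im, Complex.ofReal_re,
    Complex.ofReal_im, Complex.I_re, Complex.I_im, mul_zero, mul_one, zero_mul, sub_zero,
    add_zero, zero_add] at h1 h2
  exact Prod.ext h1.symm h2.symm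

theorem meas_cut {T : Set ℝ} (hT : MeasurableSet T) :
    MeasurableSet {z : ℝ × ℝ | z ≠ 0 ∧ dir z ∈ T} :=
  (measurableSet_singleton (0 : ℝ × ℝ)).compl.inter (measurable_dir hT)

theorem pos_ne {θ r : ℝ} (hr : 0 < r) : ((r * Real.cos θ, r * Real.sin θ) : ℝ × ℝ) ≠ 0 := by
  intro h
  have h1 : r * Real.cos θ = 0 := congrArg Prod.fst h
  have h2 : r * Real.sin θ = 0 := congrArg Prod.snd h
  have h3 := Real.sin_sq_add_cos_sq θ
  have h4 : Real.cos θ = 0 := by
    rcases mul_eq_zero.1 h1 with h | h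
    · exact absurd h hr.ne'
    · exact h
  have h5 : Real.sin θ = 0 := by
    rcases mul_eq_zero.1 h2 with h | h
    · exact absurd h hr.ne'
    · exact h
  rw [h4, h5] at h3
  norm_num at h3

theorem cutT_polar {T : Set ℝ} (h : ℝ × ℝ → ℂ) {θ r : ℝ} (hθ : θ ∈ Ioc (-Real.pi) Real.pi)
    (hr : 0 < r) (hT : θ ∈ T) :
    cutT T h (r * Real.cos θ, r * Real.sin θ) = h (r * Real.cos θ, r * Real.sin θ) := by
  have h1 : (r * Real.cos θ, r * Real.sin θ) ∈ {z : ℝ × ℝ | z ≠ 0 ∧ dir z ∈ T} := by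
    refine ⟨pos_ne hr, ?_⟩
    rw [dir_polar hθ hr]
    exact hT
  unfold cutT
  rw [indicator_of_mem h1]

theorem cutT_polar' {T : Set ℝ} (h : ℝ × ℝ → ℂ) {θ r : ℝ} (hθ : θ ∈ Ioc (-Real.pi) Real.pi)
    (hr : 0 < r) (hT : θ ∉ T) :
    cutT T h (r * Real.cos θ, r * Real.sin θ) = 0 := by
  unfold cutT
  refine indicator_of_notMem (fun h1 => hT ?_) h
  have h2 := h1.2
  rwa [dir_polar hθ hr] at h2

theorem adm_cutT {h : ℝ × ℝ → ℂ} (hm : Measurable h)
    (hs : ∀ z : ℝ × ℝ, 1 < z.1 ^ 2 + z.2 ^ 2 → h z = 0) {V : ℝ → ℝ≥0∞}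
    (hb : ∀ θ ∈ Ioc (-Real.pi) Real.pi, ∀ r : ℝ, 0 < r →
      ‖h (r * Real.cos θ, r * Real.sin θ)‖ₑ ≤ V θ)
    (hv : ∀ θ ∈ Ioc (-Real.pi) Real.pi,
      eVariationOn (fun r : ℝ => h (r * Real.cos θ, r * Real.sin θ)) (Ioi 0) ≤ V θ)
    {T : Set ℝ} (hT : MeasurableSet T) {b : ℝ≥0}
    (hTb : ∀ θ ∈ T, V θ ≤ b) : Adm (3 * b) (cutT T h) := by
  have hb0 : (0 : ℝ) ≤ b := b.2
  refine
    { meas := hm.indicator (meas_cut hT)
      bdd := ?_
      supp := ?_
      var := ?_ }
  · intro z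
    unfold cutT
    by_cases hz : z ∈ {z : ℝ × ℝ | z ≠ 0 ∧ dir z ∈ T}
    · rw [indicator_of_mem hz]
      obtain ⟨r, hr, hzr⟩ := exists_polar hz.1
      have h1 : ‖h z‖ₑ ≤ b := by
        have h2 := hb _ (dir_mem z) r hr
        rw [← hzr] at h2
        exact h2.trans (hTb _ hz.2)
      have h3 : ‖h z‖ ≤ b := by
        rw [← ofReal_norm, ← ENNReal.ofReal_coe_nnreal, ENNReal.ofReal_le_ofReal_iff hb0] at h1
        exact h1
      linarith
    · rw [indicator_of_notMem hz, norm_zero]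
      positivity
  · intro z hz
    unfold cutT
    rw [indicator_apply_eq_zero]
    intro _
    exact hs z hz
  · intro θ
    obtain ⟨φ, hφ⟩ : ∃ φ : ℝ, φ = dir (Real.cos θ, Real.sin θ) := ⟨_, rfl⟩
    have hφm : φ ∈ Ioc (-Real.pi) Real.pi := hφ ▸ dir_mem _
    have hcs : Real.cos φ = Real.cos θ ∧ Real.sin φ = Real.sin θ := by
      have h0 : ((Real.cos θ, Real.sin θ) : ℝ × ℝ) ≠ 0 := by
        have := pos_ne (θ := θ) one_pos
        simpa using this
      obtain ⟨r, hr, hzr⟩ := exists_polar h0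
      rw [← hφ] at hzr
      have h1 : Real.cos θ = r * Real.cos φ := congrArg Prod.fst hzr
      have h2 : Real.sin θ = r * Real.sin φ := congrArg Prod.snd hzr
      have h3 := Real.sin_sq_add_cos_sq θ
      have h4 := Real.sin_sq_add_cos_sq φ
      rw [h1, h2] at h3
      have h5 : r ^ 2 = 1 := by
        have : (r * Real.sin φ) ^ 2 + (r * Real.cos φ) ^ 2 =
          r ^ 2 * (Real.sin φ ^ 2 + Real.cos φ ^ 2) := by ring
        rw [this, h4, mul_one] at h3
        exact h3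
      have h6 : r = 1 := by nlinarith
      rw [h6, one_mul] at h1 h2
      exact ⟨h1.symm, h2.symm⟩
    rw [← hcs.1, ← hcs.2]
    by_cases hφT : φ ∈ T
    · have e : EqOn (fun r : ℝ => cutT T h (r * Real.cos φ, r * Real.sin φ))
          ((Ioi (0 : ℝ)).indicator fun r : ℝ => h (r * Real.cos φ, r * Real.sin φ)) (Ici 0) := by
        intro r hr
        rcases eq_or_lt_of_le (show (0 : ℝ) ≤ r from hr) with h0 | h0
        · subst h0
          simp [cutT]
        · simp only
          rw [indicator_of_mem (by exact h0)]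
          exact cutT_polar h hφm h0 hφT
      rw [eVariationOn.eq_of_eqOn e]
      have h3 := evar_indicator_le (g := fun r : ℝ => h (r * Real.cos φ, r * Real.sin φ))
        (s := Ici (0 : ℝ)) (ordConnected_Ioi (a := (0 : ℝ))) (A := b) (fun x hx => ?_)
      · refine h3.trans ?_
        have h4 : ENNReal.ofReal (3 * (b : ℝ)) = (b : ℝ≥0∞) + 2 * b := by
          rw [ENNReal.ofReal_mul (by norm_num), ENNReal.ofReal_coe_nnreal]
          have : ENNReal.ofReal 3 = 1 + 2 := by
            norm_num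
          rw [this]
          ring
        rw [h4]
        gcongr
        exact (hv φ hφm).trans (hTb _ hφT)
      · have h1 := (hb φ hφm x hx).trans (hTb _ hφT)
        rw [← ofReal_norm, ← ENNReal.ofReal_coe_nnreal, ENNReal.ofReal_le_ofReal_iff hb0] at h1
        exact h1
    · have e : EqOn (fun r : ℝ => cutT T h (r * Real.cos φ, r * Real.sin φ))
          (fun _ => (0 : ℂ)) (Ici 0) := by
        intro r hr
        rcases eq_or_lt_of_le (show (0 : ℝ) ≤ r from hr) with h0 | h0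
        · subst h0
          simp [cutT]
        · exact cutT_polar' h hφm h0 hφT
      rw [eVariationOn.eq_of_eqOn e, eVariationOn.constant_on]
      · exact zero_le
      · intro x hx y hy
        obtain ⟨_, _, rfl⟩ := hx
        obtain ⟨_, _, rfl⟩ := hy
        rfl

theorem cone_coneT {T : Set ℝ} (hT : MeasurableSet T) : Cone (coneT T) := by
  refine
    { meas := ?_
      smul := ?_
      neg := ?_ }
  · unfold coneT
    exact (measurableSet_singleton (0 : ℝ × ℝ)).compl.inter ((measurable_dir hT).union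
      ((measurable_dir.comp measurable_neg) hT))
  · intro l hl z hz
    refine ⟨fun h => hz.1 ?_, ?_⟩
    · have h1 : l * z.1 = 0 := congrArg Prod.fst h
      have h2 : l * z.2 = 0 := congrArg Prod.snd h
      refine Prod.ext ?_ ?_
      · rcases mul_eq_zero.1 h1 with h | h
        · exact absurd h hl.ne'
        · exact h
      · rcases mul_eq_zero.1 h2 with h | h
        · exact absurd h hl.ne'
        · exact h
    · have e : (-(l * z.1, l * z.2) : ℝ × ℝ) = (l * (-z).1, l * (-z).2) := by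
        ext <;> simp
      rw [e, dir_smul hl, dir_smul hl]
      exact hz.2
  · intro z hz
    refine ⟨neg_ne_zero.2 hz.1, ?_⟩
    rw [neg_neg]
    exact hz.2.symm

theorem suppIn_cutT (T : Set ℝ) (h : ℝ × ℝ → ℂ) : SuppIn (coneT T) (cutT T h) := by
  intro z hz
  unfold cutT
  exact indicator_of_notMem (fun h1 => hz ⟨h1.1, Or.inl h1.2⟩) h

theorem nu_shift {T : Set ℝ} (hT : MeasurableSet T) :
    nu {θ : ℝ | dir (-(Real.cos θ, Real.sin θ)) ∈ T} ≤ nu T := by
  have hpi := Real.pi_pos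
  have hm : MeasurableSet {θ : ℝ | dir (-(Real.cos θ, Real.sin θ)) ∈ T} :=
    (measurable_dir.comp (f := fun θ : ℝ => -((Real.cos θ, Real.sin θ) : ℝ × ℝ))
      (by fun_prop)) hT
  have h1 : {θ : ℝ | dir (-(Real.cos θ, Real.sin θ)) ∈ T} ∩ Ioc (-Real.pi) Real.pi ⊆
      ((fun θ => θ + Real.pi) ⁻¹' (T ∩ Ioc 0 Real.pi)) ∪
      ((fun θ => θ + -Real.pi) ⁻¹' (T ∩ Ioc (-Real.pi) 0)) := by
    rintro θ ⟨hθ, h2, h3⟩
    have hθ' : dir (-(Real.cos θ, Real.sin θ)) ∈ T := hθ
    rcases le_or_gt θ 0 with h | h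
    · left
      have e : (-(Real.cos θ, Real.sin θ) : ℝ × ℝ) =
          (Real.cos (θ + Real.pi), Real.sin (θ + Real.pi)) := by
        rw [Real.cos_add_pi, Real.sin_add_pi]
        rfl
      rw [e, dir_cos_sin ⟨by linarith, by linarith⟩] at hθ'
      exact ⟨hθ', by linarith, by linarith⟩
    · right
      have e : (-(Real.cos θ, Real.sin θ) : ℝ × ℝ) =
          (Real.cos (θ + -Real.pi), Real.sin (θ + -Real.pi)) := by
        rw [← sub_eq_add_neg, Real.cos_sub_pi, Real.sin_sub_pi]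
        rfl
      rw [e, dir_cos_sin ⟨by linarith, by linarith⟩] at hθ'
      exact ⟨hθ', by linarith, by linarith⟩
  unfold nu
  rw [Measure.restrict_apply hm, Measure.restrict_apply hT]
  calc volume ({θ : ℝ | dir (-(Real.cos θ, Real.sin θ)) ∈ T} ∩ Ioc (-Real.pi) Real.pi)
      ≤ volume ((fun θ => θ + Real.pi) ⁻¹' (T ∩ Ioc 0 Real.pi)) +
        volume ((fun θ => θ + -Real.pi) ⁻¹' (T ∩ Ioc (-Real.pi) 0)) :=
        (measure_mono h1).trans (measure_union_le _ _)
    _ = volume (T ∩ Ioc 0 Real.pi) + volume (T ∩ Ioc (-Real.pi) 0) := by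
        rw [measure_preimage_add_right, measure_preimage_add_right]
    _ = volume ((T ∩ Ioc 0 Real.pi) ∪ (T ∩ Ioc (-Real.pi) 0)) := by
        rw [measure_union _ (hT.inter measurableSet_Ioc)]
        refine Set.disjoint_left.2 fun x hx hy => ?_
        have h2 := hx.2.1
        have h3 := hy.2.2
        linarith
    _ ≤ volume (T ∩ Ioc (-Real.pi) Real.pi) := by
        refine measure_mono ?_
        rintro x (hx | hx)
        · exact ⟨hx.1, by linarith [hx.2.1], hx.2.2⟩
        · exact ⟨hx.1, hx.2.1, by linarith [hx.2.2]⟩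

theorem mu_coneT {T : Set ℝ} (hT : MeasurableSet T) : mu (coneT T) ≤ 2 * nu T := by
  have h1 : nu {θ : ℝ | dir (Real.cos θ, Real.sin θ) ∈ T} ≤ nu T := by
    have hm : MeasurableSet {θ : ℝ | dir (Real.cos θ, Real.sin θ) ∈ T} :=
      (measurable_dir.comp (f := fun θ : ℝ => ((Real.cos θ, Real.sin θ) : ℝ × ℝ))
        (by fun_prop)) hT
    unfold nu
    rw [Measure.restrict_apply hm, Measure.restrict_apply hT]
    refine measure_mono ?_
    rintro θ ⟨h2, h3⟩
    have h2' : dir (Real.cos θ, Real.sin θ) ∈ T := h2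
    rw [dir_cos_sin h3] at h2'
    exact ⟨h2', h3⟩
  calc mu (coneT T) ≤ nu ({θ : ℝ | dir (Real.cos θ, Real.sin θ) ∈ T} ∪
        {θ : ℝ | dir (-(Real.cos θ, Real.sin θ)) ∈ T}) := by
        unfold mu
        refine measure_mono ?_
        intro θ hθ
        exact hθ.2
    _ ≤ nu T + nu T := (measure_union_le _ _).trans (add_le_add h1 (nu_shift hT))
    _ = 2 * nu T := (two_mul _).symm

end Pool.Agent.H.MP_b7167f_an.SV
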