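import Pool.Agent.H.MP_b7167f_an.SS.Defs

/-!
PROOF.  `‖T1 t c x‖² = T1 t c x * conj (T1 t c x)` and
`conj (T1 t c x) = ∫ conj(c φ) (dt x φ) exp(-(dt x φ)²/(4 aa(-t))) dφ` because `conj (aa t) = aa (-t)`.
So `‖T1‖² e^{-ε|x|²} = ∫∫ c(θ) conj(c(φ)) [integrand of K2](x) dν dν` (`integral_prod_mul` or
`integral_mul_const`), everything dominated by `|x|² e^{-ε|x|²}` (real part of `1/(4 aa)` is positive,
`|dt x θ| ≤ |x|`), integrable on `ℝ² × (-π,π]²`.  `∫ ‖T1‖² e^{-ε|x|²} dx` (a real Bochner integral,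
equal to the lintegral: `ofReal_integral_eq_lintegral_ofReal`) is the norm of
`∫∫ c conj(c) K2 dν dν` (Fubini) and `‖c‖ ≤ 1`: `enorm_integral_le_lintegral_enorm`.
-/

open MeasureTheory Set Complex
open scoped ENNReal

namespace Pool.Agent.H.MP_b7167f_an.SV

open Pool.Agent.H.MP_b7167f_an.SS

private noncomputable def Exp2w_g (t : ℝ) (c : ℝ → ℂ) (x : ℝ × ℝ) (θ : ℝ) : ℂ :=
  c θ * (dt x θ : ℂ) * Complex.exp (-(dt x θ : ℂ) ^ 2 / (4 * aa t))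

private theorem Exp2w_aa (t : ℝ) : (starRingEnd ℂ) (aa t) = aa (-t) := by
  simp [aa]

private theorem Exp2w_conj (t : ℝ) (c : ℝ → ℂ) (x : ℝ × ℝ) (θ : ℝ) :
    (starRingEnd ℂ) (Exp2w_g t c x θ) = (starRingEnd ℂ) (c θ) * (dt x θ : ℂ) *
      Complex.exp (-(dt x θ : ℂ) ^ 2 / (4 * aa (-t))) := by
  unfold Exp2w_g
  have h4 : (starRingEnd ℂ) (4 : ℂ) = 4 := map_ofNat (starRingEnd ℂ) 4
  rw [map_mul, map_mul, Complex.conj_ofReal, ← Complex.exp_conj, map_div₀, map_neg, map_pow,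
    Complex.conj_ofReal, map_mul, Exp2w_aa, h4]

private theorem Exp2w_le (t d : ℝ) : ‖Complex.exp (-(d : ℂ) ^ 2 / (4 * aa t))‖ ≤ 1 := by
  rw [Complex.norm_exp, Real.exp_le_one_iff, Complex.div_re]
  have h1 : (-(d : ℂ) ^ 2).re = -d ^ 2 := by
    rw [← Complex.ofReal_pow, ← Complex.ofReal_neg, Complex.ofReal_re]
  have h2 : (-(d : ℂ) ^ 2).im = 0 := by
    rw [← Complex.ofReal_pow, ← Complex.ofReal_neg, Complex.ofReal_im]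
  have h3 : (4 * aa t).re = 4 := by simp [aa]
  rw [h1, h2, h3]
  have h4 := Complex.normSq_nonneg (4 * aa t)
  have h5 : 0 ≤ d ^ 2 * 4 / Complex.normSq (4 * aa t) := by positivity
  rw [zero_mul, zero_div, add_zero, neg_mul, neg_div]
  linarith

private theorem Exp2w_dt (x : ℝ × ℝ) (θ : ℝ) : |dt x θ| ≤ |x.1| + |x.2| := by
  unfold dt
  refine (abs_add_le _ _).trans (add_le_add ?_ ?_)
  · rw [abs_mul]
    exact mul_le_of_le_one_right (abs_nonneg _) (Real.abs_cos_le_one θ)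
  · rw [abs_mul]
    exact mul_le_of_le_one_right (abs_nonneg _) (Real.abs_sin_le_one θ)

private theorem Exp2w_gle (t : ℝ) (c : ℝ → ℂ) (hc1 : ∀ θ, ‖c θ‖ ≤ 1) (x : ℝ × ℝ) (θ : ℝ) :
    ‖Exp2w_g t c x θ‖ ≤ |x.1| + |x.2| := by
  unfold Exp2w_g
  rw [norm_mul, norm_mul, Complex.norm_real, Real.norm_eq_abs]
  have h1 := hc1 θ
  have h2 := Exp2w_dt x θ
  have h3 := Exp2w_le t (dt x θ)
  have h4 : 0 ≤ |x.1| + |x.2| := by positivity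
  calc ‖c θ‖ * |dt x θ| * ‖Complex.exp (-(dt x θ : ℂ) ^ 2 / (4 * aa t))‖
      ≤ 1 * (|x.1| + |x.2|) * 1 := by gcongr
    _ = |x.1| + |x.2| := by ring

private theorem Exp2w_meas (t : ℝ) {c : ℝ → ℂ} (hc : Measurable c) :
    Measurable fun q : (ℝ × ℝ) × ℝ => Exp2w_g t c q.1 q.2 := by
  unfold Exp2w_g dt
  have h1 : Measurable fun q : (ℝ × ℝ) × ℝ => c q.2 := hc.comp measurable_snd
  fun_prop

private theorem Exp2w_dom {ε : ℝ} (hε : 0 < ε) (x : ℝ × ℝ) :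
    (|x.1| + |x.2|) ^ 2 * Real.exp (-ε * (x.1 ^ 2 + x.2 ^ 2)) ≤
      4 / ε * (Real.exp (-(ε / 2) * x.1 ^ 2) * Real.exp (-(ε / 2) * x.2 ^ 2)) := by
  have h1 : (|x.1| + |x.2|) ^ 2 ≤ 2 * (x.1 ^ 2 + x.2 ^ 2) := by
    have := sq_nonneg (|x.1| - |x.2|)
    have e1 := sq_abs x.1
    have e2 := sq_abs x.2
    nlinarith
  have hr : 0 ≤ x.1 ^ 2 + x.2 ^ 2 := by positivity
  have h4 : x.1 ^ 2 + x.2 ^ 2 ≤ 2 / ε * Real.exp (ε / 2 * (x.1 ^ 2 + x.2 ^ 2)) := by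
    have h5 := Real.add_one_le_exp (ε / 2 * (x.1 ^ 2 + x.2 ^ 2))
    have h6 : ε / 2 * (x.1 ^ 2 + x.2 ^ 2) ≤ Real.exp (ε / 2 * (x.1 ^ 2 + x.2 ^ 2)) := by linarith
    have h7 : x.1 ^ 2 + x.2 ^ 2 = 2 / ε * (ε / 2 * (x.1 ^ 2 + x.2 ^ 2)) := by
      field_simp
    calc x.1 ^ 2 + x.2 ^ 2 = 2 / ε * (ε / 2 * (x.1 ^ 2 + x.2 ^ 2)) := h7
      _ ≤ _ := by gcongr
  have h5 : Real.exp (-(ε / 2) * x.1 ^ 2) * Real.exp (-(ε / 2) * x.2 ^ 2) =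
      Real.exp (ε / 2 * (x.1 ^ 2 + x.2 ^ 2)) * Real.exp (-ε * (x.1 ^ 2 + x.2 ^ 2)) := by
    rw [← Real.exp_add, ← Real.exp_add]
    congr 1
    ring
  rw [h5]
  calc (|x.1| + |x.2|) ^ 2 * Real.exp (-ε * (x.1 ^ 2 + x.2 ^ 2))
      ≤ (2 * (2 / ε * Real.exp (ε / 2 * (x.1 ^ 2 + x.2 ^ 2)))) *
        Real.exp (-ε * (x.1 ^ 2 + x.2 ^ 2)) := by
        gcongr
        exact h1.trans (by gcongr)
    _ = _ := by ring

private theorem Exp2w_int {ε : ℝ} (hε : 0 < ε) : Integrable fun x : ℝ × ℝ =>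
    4 / ε * (Real.exp (-(ε / 2) * x.1 ^ 2) * Real.exp (-(ε / 2) * x.2 ^ 2)) := by
  have h1 := integrable_exp_neg_mul_sq (half_pos hε)
  exact (h1.mul_prod h1).const_mul _

theorem exp2w (t ε : ℝ) (hε : 0 < ε) (c : ℝ → ℂ) (hc : Measurable c) (hc1 : ∀ θ, ‖c θ‖ ≤ 1) :
    ∫⁻ x : ℝ × ℝ, ‖T1 t c x‖ₑ ^ 2 * ENNReal.ofReal (Real.exp (-ε * (x.1 ^ 2 + x.2 ^ 2)))
      ≤ ∫⁻ p : ℝ × ℝ, ‖c p.1‖ₑ * ‖K2 t ε p.1 p.2‖ₑ ∂(nu.prod nu) := by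
  have : IsFiniteMeasure nu := by
    unfold nu
    infer_instance
  let w : ℝ × ℝ → ℝ := fun x => Real.exp (-ε * (x.1 ^ 2 + x.2 ^ 2))
  let G : ℝ × ℝ → ℝ × ℝ → ℂ := fun x p =>
    Exp2w_g t c x p.1 * (starRingEnd ℂ) (Exp2w_g t c x p.2)
  have hG : ∀ x, ∫ p, G x p ∂(nu.prod nu) = ((‖T1 t c x‖ ^ 2 : ℝ) : ℂ) := by
    intro x
    have h1 : ∫ p, G x p ∂(nu.prod nu) = (∫ θ, Exp2w_g t c x θ ∂nu) *
        (∫ θ, (starRingEnd ℂ) (Exp2w_g t c x θ) ∂nu) :=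
      integral_prod_mul (Exp2w_g t c x) (fun θ => (starRingEnd ℂ) (Exp2w_g t c x θ))
    have h2 : ∫ θ, Exp2w_g t c x θ ∂nu = T1 t c x := rfl
    rw [h1, integral_conj, h2]
    have h3 := Complex.mul_conj' (T1 t c x)
    push_cast
    exact h3
  have hint : Integrable (fun q : (ℝ × ℝ) × (ℝ × ℝ) => G q.1 q.2 * (w q.1 : ℂ))
      ((volume : Measure (ℝ × ℝ)).prod (nu.prod nu)) := by
    have hm := Exp2w_meas t hc
    have h1 : Measurable fun q : (ℝ × ℝ) × (ℝ × ℝ) => Exp2w_g t c q.1 q.2.1 :=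
      hm.comp (by fun_prop : Measurable fun q : (ℝ × ℝ) × (ℝ × ℝ) => (q.1, q.2.1))
    have h3 : Measurable fun q : (ℝ × ℝ) × (ℝ × ℝ) => Exp2w_g t c q.1 q.2.2 :=
      hm.comp (by fun_prop : Measurable fun q : (ℝ × ℝ) × (ℝ × ℝ) => (q.1, q.2.2))
    have h5 : Measurable fun q : (ℝ × ℝ) × (ℝ × ℝ) => (w q.1 : ℂ) := by
      show Measurable fun q : (ℝ × ℝ) × (ℝ × ℝ) =>
        ((Real.exp (-ε * (q.1.1 ^ 2 + q.1.2 ^ 2)) : ℝ) : ℂ)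
      fun_prop
    have hmeas : Measurable fun q : (ℝ × ℝ) × (ℝ × ℝ) => G q.1 q.2 * (w q.1 : ℂ) :=
      (h1.mul (Complex.continuous_conj.measurable.comp h3)).mul h5
    refine Integrable.mono' ((Exp2w_int hε).comp_fst _) hmeas.aestronglyMeasurable
      (Filter.Eventually.of_forall fun q => ?_)
    refine le_trans ?_ (Exp2w_dom hε q.1)
    show ‖Exp2w_g t c q.1 q.2.1 * (starRingEnd ℂ) (Exp2w_g t c q.1 q.2.2) *
        ((Real.exp (-ε * (q.1.1 ^ 2 + q.1.2 ^ 2)) : ℝ) : ℂ)‖ ≤ _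
    rw [norm_mul, norm_mul, RCLike.norm_conj,
      Complex.norm_real, Real.norm_eq_abs, abs_of_pos (Real.exp_pos _)]
    have g1 := Exp2w_gle t c hc1 q.1 q.2.1
    have g3 := Exp2w_gle t c hc1 q.1 q.2.2
    have g5 : 0 ≤ |q.1.1| + |q.1.2| := by positivity
    rw [pow_two (|q.1.1| + |q.1.2|)]
    gcongr
  have hf : ∀ x, ((‖T1 t c x‖ ^ 2 * w x : ℝ) : ℂ) =
      ∫ p, G x p * (w x : ℂ) ∂(nu.prod nu) := by
    intro x
    rw [integral_mul_const, hG]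
    push_cast
    ring
  have hI : Integrable (fun x : ℝ × ℝ => ((‖T1 t c x‖ ^ 2 * w x : ℝ) : ℂ)) := by
    have h1 := hint.integral_prod_left
    exact h1.congr (Filter.Eventually.of_forall fun x => (hf x).symm)
  have hIr : Integrable (fun x : ℝ × ℝ => ‖T1 t c x‖ ^ 2 * w x) := by
    have h1 := hI.re
    exact h1.congr (Filter.Eventually.of_forall fun x => Complex.ofReal_re _)
  have hpos : ∀ x : ℝ × ℝ, 0 ≤ ‖T1 t c x‖ ^ 2 * w x := fun x =>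
    mul_nonneg (by positivity) (Real.exp_pos _).le
  have e1 : ∫⁻ x : ℝ × ℝ, ‖T1 t c x‖ₑ ^ 2 *
      ENNReal.ofReal (Real.exp (-ε * (x.1 ^ 2 + x.2 ^ 2))) =
      ENNReal.ofReal (∫ x : ℝ × ℝ, ‖T1 t c x‖ ^ 2 * w x) := by
    rw [ofReal_integral_eq_lintegral_ofReal hIr (Filter.Eventually.of_forall hpos)]
    refine lintegral_congr fun x => ?_
    rw [ENNReal.ofReal_mul (by positivity), ENNReal.ofReal_pow (norm_nonneg _),
      ofReal_norm]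
  have e2 : ((∫ x : ℝ × ℝ, ‖T1 t c x‖ ^ 2 * w x : ℝ) : ℂ) =
      ∫ p, (∫ x : ℝ × ℝ, G x p * (w x : ℂ)) ∂(nu.prod nu) := by
    rw [← integral_integral_swap hint, ← integral_complex_ofReal]
    exact integral_congr_ae (Filter.Eventually.of_forall hf)
  have e3 : ∀ p : ℝ × ℝ, (∫ x : ℝ × ℝ, G x p * (w x : ℂ)) =
      (c p.1 * (starRingEnd ℂ) (c p.2)) * K2 t ε p.1 p.2 := by
    intro p
    unfold K2
    rw [← integral_const_mul]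
    refine integral_congr_ae (Filter.Eventually.of_forall fun x => ?_)
    show Exp2w_g t c x p.1 * (starRingEnd ℂ) (Exp2w_g t c x p.2) *
        ((Real.exp (-ε * (x.1 ^ 2 + x.2 ^ 2)) : ℝ) : ℂ) = _
    rw [Exp2w_conj]
    unfold Exp2w_g
    have h1 : ((Real.exp (-ε * (x.1 ^ 2 + x.2 ^ 2)) : ℝ) : ℂ) =
        cexp (-(ε * ((x.1 : ℂ) ^ 2 + (x.2 : ℂ) ^ 2))) := by
      rw [Complex.ofReal_exp]
      congr 1
      push_cast
      ring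
    have h2 : cexp (-(dt x p.1 : ℂ) ^ 2 / (4 * aa t) - (dt x p.2 : ℂ) ^ 2 / (4 * aa (-t))
      - ε * ((x.1 : ℂ) ^ 2 + (x.2 : ℂ) ^ 2)) =
        cexp (-(dt x p.1 : ℂ) ^ 2 / (4 * aa t)) * cexp (-(dt x p.2 : ℂ) ^ 2 / (4 * aa (-t))) *
        cexp (-(ε * ((x.1 : ℂ) ^ 2 + (x.2 : ℂ) ^ 2))) := by
      rw [← Complex.exp_add, ← Complex.exp_add]
      congr 1
      ring
    beta_reduce
    rw [h1, h2]
    ring
  rw [e1]
  have hnn : 0 ≤ ∫ x : ℝ × ℝ, ‖T1 t c x‖ ^ 2 * w x := integral_nonneg hpos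
  calc ENNReal.ofReal (∫ x : ℝ × ℝ, ‖T1 t c x‖ ^ 2 * w x)
      = ‖((∫ x : ℝ × ℝ, ‖T1 t c x‖ ^ 2 * w x : ℝ) : ℂ)‖ₑ := by
        rw [← ofReal_norm, Complex.norm_real, Real.norm_of_nonneg hnn]
    _ = ‖∫ p, (∫ x : ℝ × ℝ, G x p * (w x : ℂ)) ∂(nu.prod nu)‖ₑ := by
        rw [e2]
    _ ≤ ∫⁻ p, ‖∫ x : ℝ × ℝ, G x p * (w x : ℂ)‖ₑ ∂(nu.prod nu) :=
        enorm_integral_le_lintegral_enorm _
    _ ≤ _ := by
        refine lintegral_mono fun p => ?_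
        rw [e3, enorm_mul]
        refine mul_le_mul' ?_ le_rfl
        rw [enorm_mul]
        refine mul_le_of_le_one_right' ?_
        rw [← ofReal_norm, ENNReal.ofReal_le_one, RCLike.norm_conj]
        exact hc1 p.2

end Pool.Agent.H.MP_b7167f_an.SV
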