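import Pool.Agent.H.MP_b7167f_an.SS.Defs

/-!
PROOF.  As `exp2`, with `‖T1‖⁴ = T1² conj(T1)²`: `T1(x)² = ∫∫ c(θ₁)c(θ₂) (dt x θ₁)(dt x θ₂) exp(...)`,
`conj(T1(x))² = ∫∫ conj c(θ₃) conj c(θ₄) ...` with `conj (aa t) = aa (-t)`; the integrand is dominated by
`|x|⁴ e^{-ε|x|²}`, integrable on `ℝ² × (-π,π]⁴`; Fubini; `‖c‖ ≤ 1`.
-/

open MeasureTheory Set Complex
open scoped ENNReal

namespace Pool.Agent.H.MP_b7167f_an.SV

open Pool.Agent.H.MP_b7167f_an.SS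

private noncomputable def Exp4w_g (t : ℝ) (c : ℝ → ℂ) (x : ℝ × ℝ) (θ : ℝ) : ℂ :=
  c θ * (dt x θ : ℂ) * Complex.exp (-(dt x θ : ℂ) ^ 2 / (4 * aa t))

private theorem Exp4w_aa (t : ℝ) : (starRingEnd ℂ) (aa t) = aa (-t) := by
  simp [aa]

private theorem Exp4w_conj (t : ℝ) (c : ℝ → ℂ) (x : ℝ × ℝ) (θ : ℝ) :
    (starRingEnd ℂ) (Exp4w_g t c x θ) = (starRingEnd ℂ) (c θ) * (dt x θ : ℂ) *
      Complex.exp (-(dt x θ : ℂ) ^ 2 / (4 * aa (-t))) := by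
  unfold Exp4w_g
  have h4 : (starRingEnd ℂ) (4 : ℂ) = 4 := map_ofNat (starRingEnd ℂ) 4
  rw [map_mul, map_mul, Complex.conj_ofReal, ← Complex.exp_conj, map_div₀, map_neg, map_pow,
    Complex.conj_ofReal, map_mul, Exp4w_aa, h4]

private theorem Exp4w_le (t d : ℝ) : ‖Complex.exp (-(d : ℂ) ^ 2 / (4 * aa t))‖ ≤ 1 := by
  rw [Complex.norm_exp, Real.exp_le_one_iff, Complex.div_re]
  have h1 : (-(d : ℂ) ^ 2).re = -d ^ 2 := by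
    rw [← Complex.ofReal_pow, ← Complex.ofReal_neg, Complex.ofReal_re]
  have h2 : (-(d : ℂ) ^ 2).im = 0 := by
    rw [← Complex.ofReal_pow, ← Complex.ofReal_neg, Complex.ofReal_im]
  have h3 : (4 * aa t).re = 4 := by simp [aa]
  rw [h1, h2, h3]
  have h4 := Complex.normSq_nonneg (4 * aa t)
  have h5 : 0 ≤ d ^ 2 * 4 / Complex.normSq (4 * aa t) := by positivity
  rw [zero_mul, zero_div, add_zero, neg_mul, neg_div]
  linarith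

private theorem Exp4w_dt (x : ℝ × ℝ) (θ : ℝ) : |dt x θ| ≤ |x.1| + |x.2| := by
  unfold dt
  refine (abs_add_le _ _).trans (add_le_add ?_ ?_)
  · rw [abs_mul]
    exact mul_le_of_le_one_right (abs_nonneg _) (Real.abs_cos_le_one θ)
  · rw [abs_mul]
    exact mul_le_of_le_one_right (abs_nonneg _) (Real.abs_sin_le_one θ)

private theorem Exp4w_gle (t : ℝ) (c : ℝ → ℂ) (hc1 : ∀ θ, ‖c θ‖ ≤ 1) (x : ℝ × ℝ) (θ : ℝ) :
    ‖Exp4w_g t c x θ‖ ≤ |x.1| + |x.2| := by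
  unfold Exp4w_g
  rw [norm_mul, norm_mul, Complex.norm_real, Real.norm_eq_abs]
  have h1 := hc1 θ
  have h2 := Exp4w_dt x θ
  have h3 := Exp4w_le t (dt x θ)
  have h4 : 0 ≤ |x.1| + |x.2| := by positivity
  calc ‖c θ‖ * |dt x θ| * ‖Complex.exp (-(dt x θ : ℂ) ^ 2 / (4 * aa t))‖
      ≤ 1 * (|x.1| + |x.2|) * 1 := by gcongr
    _ = |x.1| + |x.2| := by ring

private theorem Exp4w_meas (t : ℝ) {c : ℝ → ℂ} (hc : Measurable c) :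
    Measurable fun q : (ℝ × ℝ) × ℝ => Exp4w_g t c q.1 q.2 := by
  unfold Exp4w_g dt
  have h1 : Measurable fun q : (ℝ × ℝ) × ℝ => c q.2 := hc.comp measurable_snd
  fun_prop

private theorem Exp4w_dom {ε : ℝ} (hε : 0 < ε) (x : ℝ × ℝ) :
    (|x.1| + |x.2|) ^ 4 * Real.exp (-ε * (x.1 ^ 2 + x.2 ^ 2)) ≤
      32 / ε ^ 2 * (Real.exp (-(ε / 2) * x.1 ^ 2) * Real.exp (-(ε / 2) * x.2 ^ 2)) := by
  have h1 : (|x.1| + |x.2|) ^ 2 ≤ 2 * (x.1 ^ 2 + x.2 ^ 2) := by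
    have := sq_nonneg (|x.1| - |x.2|)
    have e1 := sq_abs x.1
    have e2 := sq_abs x.2
    nlinarith
  have hr : 0 ≤ x.1 ^ 2 + x.2 ^ 2 := by positivity
  have h2 : (|x.1| + |x.2|) ^ 4 ≤ 4 * (x.1 ^ 2 + x.2 ^ 2) ^ 2 := by
    have h3 : (|x.1| + |x.2|) ^ 4 = ((|x.1| + |x.2|) ^ 2) ^ 2 := by ring
    rw [h3]
    calc ((|x.1| + |x.2|) ^ 2) ^ 2 ≤ (2 * (x.1 ^ 2 + x.2 ^ 2)) ^ 2 := by gcongr
      _ = 4 * (x.1 ^ 2 + x.2 ^ 2) ^ 2 := by ring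
  have h3 := Real.quadratic_le_exp_of_nonneg
    (show 0 ≤ ε / 2 * (x.1 ^ 2 + x.2 ^ 2) by positivity)
  have h4 : (x.1 ^ 2 + x.2 ^ 2) ^ 2 ≤ 8 / ε ^ 2 * Real.exp (ε / 2 * (x.1 ^ 2 + x.2 ^ 2)) := by
    have h5 : 0 ≤ ε / 2 * (x.1 ^ 2 + x.2 ^ 2) := by positivity
    have h6 : (ε / 2 * (x.1 ^ 2 + x.2 ^ 2)) ^ 2 / 2 ≤
        Real.exp (ε / 2 * (x.1 ^ 2 + x.2 ^ 2)) := by linarith
    have h7 : (x.1 ^ 2 + x.2 ^ 2) ^ 2 = 8 / ε ^ 2 * ((ε / 2 * (x.1 ^ 2 + x.2 ^ 2)) ^ 2 / 2) := by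
      field_simp
      ring
    rw [h7]
    gcongr
  have h5 : Real.exp (-(ε / 2) * x.1 ^ 2) * Real.exp (-(ε / 2) * x.2 ^ 2) =
      Real.exp (ε / 2 * (x.1 ^ 2 + x.2 ^ 2)) * Real.exp (-ε * (x.1 ^ 2 + x.2 ^ 2)) := by
    rw [← Real.exp_add, ← Real.exp_add]
    congr 1
    ring
  rw [h5]
  calc (|x.1| + |x.2|) ^ 4 * Real.exp (-ε * (x.1 ^ 2 + x.2 ^ 2))
      ≤ (4 * (8 / ε ^ 2 * Real.exp (ε / 2 * (x.1 ^ 2 + x.2 ^ 2)))) *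
        Real.exp (-ε * (x.1 ^ 2 + x.2 ^ 2)) := by
        gcongr
        exact h2.trans (by gcongr)
    _ = _ := by ring

private theorem Exp4w_int {ε : ℝ} (hε : 0 < ε) : Integrable fun x : ℝ × ℝ =>
    32 / ε ^ 2 * (Real.exp (-(ε / 2) * x.1 ^ 2) * Real.exp (-(ε / 2) * x.2 ^ 2)) := by
  have h1 := integrable_exp_neg_mul_sq (half_pos hε)
  exact (h1.mul_prod h1).const_mul _

theorem exp4w (t ε : ℝ) (hε : 0 < ε) (c : ℝ → ℂ) (hc : Measurable c) (hc1 : ∀ θ, ‖c θ‖ ≤ 1) :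
    ∫⁻ x : ℝ × ℝ, ‖T1 t c x‖ₑ ^ 4 * ENNReal.ofReal (Real.exp (-ε * (x.1 ^ 2 + x.2 ^ 2)))
      ≤ ∫⁻ p : (ℝ × ℝ) × (ℝ × ℝ), ‖c p.2.2‖ₑ * ‖K4 t ε p.1.1 p.1.2 p.2.1 p.2.2‖ₑ
          ∂((nu.prod nu).prod (nu.prod nu)) := by
  have : IsFiniteMeasure nu := by
    unfold nu
    infer_instance
  let w : ℝ × ℝ → ℝ := fun x => Real.exp (-ε * (x.1 ^ 2 + x.2 ^ 2))
  have hw : ∀ x, w x = Real.exp (-ε * (x.1 ^ 2 + x.2 ^ 2)) := fun x => rfl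
  let G : ℝ × ℝ → (ℝ × ℝ) × (ℝ × ℝ) → ℂ := fun x p =>
    (Exp4w_g t c x p.1.1 * Exp4w_g t c x p.1.2) *
      ((starRingEnd ℂ) (Exp4w_g t c x p.2.1) * (starRingEnd ℂ) (Exp4w_g t c x p.2.2))
  have hG : ∀ x, ∫ p, G x p ∂((nu.prod nu).prod (nu.prod nu)) = ((‖T1 t c x‖ ^ 4 : ℝ) : ℂ) := by
    intro x
    have h1 : ∫ p, G x p ∂((nu.prod nu).prod (nu.prod nu)) =
        (∫ p : ℝ × ℝ, Exp4w_g t c x p.1 * Exp4w_g t c x p.2 ∂(nu.prod nu)) *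
        (∫ p : ℝ × ℝ, (starRingEnd ℂ) (Exp4w_g t c x p.1) * (starRingEnd ℂ) (Exp4w_g t c x p.2)
          ∂(nu.prod nu)) :=
      integral_prod_mul (fun p : ℝ × ℝ => Exp4w_g t c x p.1 * Exp4w_g t c x p.2)
        (fun p : ℝ × ℝ => (starRingEnd ℂ) (Exp4w_g t c x p.1) * (starRingEnd ℂ) (Exp4w_g t c x p.2))
    have h2 : ∫ θ, Exp4w_g t c x θ ∂nu = T1 t c x := rfl
    rw [h1, integral_prod_mul (Exp4w_g t c x) (Exp4w_g t c x),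
      integral_prod_mul (fun θ => (starRingEnd ℂ) (Exp4w_g t c x θ))
        (fun θ => (starRingEnd ℂ) (Exp4w_g t c x θ)), integral_conj, h2]
    have h3 := Complex.mul_conj' (T1 t c x)
    push_cast
    linear_combination (T1 t c x * (starRingEnd ℂ) (T1 t c x) + (‖T1 t c x‖ : ℂ) ^ 2) * h3
  have hint : Integrable (fun q : (ℝ × ℝ) × ((ℝ × ℝ) × (ℝ × ℝ)) => G q.1 q.2 * (w q.1 : ℂ))
      ((volume : Measure (ℝ × ℝ)).prod ((nu.prod nu).prod (nu.prod nu))) := by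
    have hm := Exp4w_meas t hc
    have h1 : Measurable fun q : (ℝ × ℝ) × ((ℝ × ℝ) × (ℝ × ℝ)) => Exp4w_g t c q.1 q.2.1.1 :=
      hm.comp (by fun_prop : Measurable fun q : (ℝ × ℝ) × ((ℝ × ℝ) × (ℝ × ℝ)) => (q.1, q.2.1.1))
    have h2 : Measurable fun q : (ℝ × ℝ) × ((ℝ × ℝ) × (ℝ × ℝ)) => Exp4w_g t c q.1 q.2.1.2 :=
      hm.comp (by fun_prop : Measurable fun q : (ℝ × ℝ) × ((ℝ × ℝ) × (ℝ × ℝ)) => (q.1, q.2.1.2))
    have h3 : Measurable fun q : (ℝ × ℝ) × ((ℝ × ℝ) × (ℝ × ℝ)) => Exp4w_g t c q.1 q.2.2.1 :=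
      hm.comp (by fun_prop : Measurable fun q : (ℝ × ℝ) × ((ℝ × ℝ) × (ℝ × ℝ)) => (q.1, q.2.2.1))
    have h4 : Measurable fun q : (ℝ × ℝ) × ((ℝ × ℝ) × (ℝ × ℝ)) => Exp4w_g t c q.1 q.2.2.2 :=
      hm.comp (by fun_prop : Measurable fun q : (ℝ × ℝ) × ((ℝ × ℝ) × (ℝ × ℝ)) => (q.1, q.2.2.2))
    have h5 : Measurable fun q : (ℝ × ℝ) × ((ℝ × ℝ) × (ℝ × ℝ)) => (w q.1 : ℂ) := by
      show Measurable fun q : (ℝ × ℝ) × ((ℝ × ℝ) × (ℝ × ℝ)) =>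
        ((Real.exp (-ε * (q.1.1 ^ 2 + q.1.2 ^ 2)) : ℝ) : ℂ)
      fun_prop
    have hmeas : Measurable fun q : (ℝ × ℝ) × ((ℝ × ℝ) × (ℝ × ℝ)) => G q.1 q.2 * (w q.1 : ℂ) :=
      ((h1.mul h2).mul ((Complex.continuous_conj.measurable.comp h3).mul
        (Complex.continuous_conj.measurable.comp h4))).mul h5
    refine Integrable.mono' ((Exp4w_int hε).comp_fst _) hmeas.aestronglyMeasurable
      (Filter.Eventually.of_forall fun q => ?_)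
    refine le_trans ?_ (Exp4w_dom hε q.1)
    show ‖(Exp4w_g t c q.1 q.2.1.1 * Exp4w_g t c q.1 q.2.1.2) *
      ((starRingEnd ℂ) (Exp4w_g t c q.1 q.2.2.1) * (starRingEnd ℂ) (Exp4w_g t c q.1 q.2.2.2)) *
        ((Real.exp (-ε * (q.1.1 ^ 2 + q.1.2 ^ 2)) : ℝ) : ℂ)‖ ≤ _
    rw [norm_mul, norm_mul, norm_mul, norm_mul, RCLike.norm_conj, RCLike.norm_conj,
      Complex.norm_real, Real.norm_eq_abs, abs_of_pos (Real.exp_pos _)]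
    have g1 := Exp4w_gle t c hc1 q.1 q.2.1.1
    have g2 := Exp4w_gle t c hc1 q.1 q.2.1.2
    have g3 := Exp4w_gle t c hc1 q.1 q.2.2.1
    have g4 := Exp4w_gle t c hc1 q.1 q.2.2.2
    have g5 : 0 ≤ |q.1.1| + |q.1.2| := by positivity
    have g6 : (|q.1.1| + |q.1.2|) ^ 4 = (|q.1.1| + |q.1.2|) * (|q.1.1| + |q.1.2|) *
        ((|q.1.1| + |q.1.2|) * (|q.1.1| + |q.1.2|)) := by ring
    rw [g6]
    gcongr
  have hf : ∀ x, ((‖T1 t c x‖ ^ 4 * w x : ℝ) : ℂ) =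
      ∫ p, G x p * (w x : ℂ) ∂((nu.prod nu).prod (nu.prod nu)) := by
    intro x
    rw [integral_mul_const, hG]
    push_cast
    ring
  have hI : Integrable (fun x : ℝ × ℝ => ((‖T1 t c x‖ ^ 4 * w x : ℝ) : ℂ)) := by
    have h1 := hint.integral_prod_left
    exact h1.congr (Filter.Eventually.of_forall fun x => (hf x).symm)
  have hIr : Integrable (fun x : ℝ × ℝ => ‖T1 t c x‖ ^ 4 * w x) := by
    have h1 := hI.re
    exact h1.congr (Filter.Eventually.of_forall fun x => Complex.ofReal_re _)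
  have hpos : ∀ x : ℝ × ℝ, 0 ≤ ‖T1 t c x‖ ^ 4 * w x := fun x =>
    mul_nonneg (by positivity) (Real.exp_pos _).le
  have e1 : ∫⁻ x : ℝ × ℝ, ‖T1 t c x‖ₑ ^ 4 *
      ENNReal.ofReal (Real.exp (-ε * (x.1 ^ 2 + x.2 ^ 2))) =
      ENNReal.ofReal (∫ x : ℝ × ℝ, ‖T1 t c x‖ ^ 4 * w x) := by
    rw [ofReal_integral_eq_lintegral_ofReal hIr (Filter.Eventually.of_forall hpos)]
    refine lintegral_congr fun x => ?_
    rw [ENNReal.ofReal_mul (by positivity), ENNReal.ofReal_pow (norm_nonneg _),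
      ofReal_norm]
  have e2 : ((∫ x : ℝ × ℝ, ‖T1 t c x‖ ^ 4 * w x : ℝ) : ℂ) =
      ∫ p, (∫ x : ℝ × ℝ, G x p * (w x : ℂ)) ∂((nu.prod nu).prod (nu.prod nu)) := by
    rw [← integral_integral_swap hint, ← integral_complex_ofReal]
    exact integral_congr_ae (Filter.Eventually.of_forall hf)
  have e3 : ∀ p : (ℝ × ℝ) × (ℝ × ℝ), (∫ x : ℝ × ℝ, G x p * (w x : ℂ)) =
      (c p.1.1 * c p.1.2 * ((starRingEnd ℂ) (c p.2.1) * (starRingEnd ℂ) (c p.2.2))) *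
        K4 t ε p.1.1 p.1.2 p.2.1 p.2.2 := by
    intro p
    unfold K4
    rw [← integral_const_mul]
    refine integral_congr_ae (Filter.Eventually.of_forall fun x => ?_)
    show (Exp4w_g t c x p.1.1 * Exp4w_g t c x p.1.2) *
      ((starRingEnd ℂ) (Exp4w_g t c x p.2.1) * (starRingEnd ℂ) (Exp4w_g t c x p.2.2)) *
        ((Real.exp (-ε * (x.1 ^ 2 + x.2 ^ 2)) : ℝ) : ℂ) = _
    rw [Exp4w_conj, Exp4w_conj]
    unfold Exp4w_g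
    have h1 : ((Real.exp (-ε * (x.1 ^ 2 + x.2 ^ 2)) : ℝ) : ℂ) =
        cexp (-(ε * ((x.1 : ℂ) ^ 2 + (x.2 : ℂ) ^ 2))) := by
      rw [Complex.ofReal_exp]
      congr 1
      push_cast
      ring
    have h2 : cexp (-(dt x p.1.1 : ℂ) ^ 2 / (4 * aa t) - (dt x p.1.2 : ℂ) ^ 2 / (4 * aa t)
      - (dt x p.2.1 : ℂ) ^ 2 / (4 * aa (-t)) - (dt x p.2.2 : ℂ) ^ 2 / (4 * aa (-t))
      - ε * ((x.1 : ℂ) ^ 2 + (x.2 : ℂ) ^ 2)) =
        cexp (-(dt x p.1.1 : ℂ) ^ 2 / (4 * aa t)) * cexp (-(dt x p.1.2 : ℂ) ^ 2 / (4 * aa t)) *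
        cexp (-(dt x p.2.1 : ℂ) ^ 2 / (4 * aa (-t))) *
        cexp (-(dt x p.2.2 : ℂ) ^ 2 / (4 * aa (-t))) *
        cexp (-(ε * ((x.1 : ℂ) ^ 2 + (x.2 : ℂ) ^ 2))) := by
      rw [← Complex.exp_add, ← Complex.exp_add, ← Complex.exp_add, ← Complex.exp_add]
      congr 1
      ring
    beta_reduce
    rw [h1, h2]
    ring
  rw [e1]
  have hnn : 0 ≤ ∫ x : ℝ × ℝ, ‖T1 t c x‖ ^ 4 * w x := integral_nonneg hpos
  calc ENNReal.ofReal (∫ x : ℝ × ℝ, ‖T1 t c x‖ ^ 4 * w x)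
      = ‖((∫ x : ℝ × ℝ, ‖T1 t c x‖ ^ 4 * w x : ℝ) : ℂ)‖ₑ := by
        rw [← ofReal_norm, Complex.norm_real, Real.norm_of_nonneg hnn]
    _ = ‖∫ p, (∫ x : ℝ × ℝ, G x p * (w x : ℂ)) ∂((nu.prod nu).prod (nu.prod nu))‖ₑ := by
        rw [e2]
    _ ≤ ∫⁻ p, ‖∫ x : ℝ × ℝ, G x p * (w x : ℂ)‖ₑ ∂((nu.prod nu).prod (nu.prod nu)) :=
        enorm_integral_le_lintegral_enorm _
    _ ≤ _ := by
        refine lintegral_mono fun p => ?_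
        rw [e3, enorm_mul]
        refine mul_le_mul' ?_ le_rfl
        have e5 : c p.1.1 * c p.1.2 * ((starRingEnd ℂ) (c p.2.1) * (starRingEnd ℂ) (c p.2.2)) =
            (c p.1.1 * c p.1.2 * (starRingEnd ℂ) (c p.2.1)) * (starRingEnd ℂ) (c p.2.2) := by ring
        rw [e5, enorm_mul]
        have e6 : ‖(starRingEnd ℂ) (c p.2.2)‖ₑ = ‖c p.2.2‖ₑ := by
          rw [← ofReal_norm, ← ofReal_norm, RCLike.norm_conj]
        rw [e6]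
        refine mul_le_of_le_one_left' ?_
        rw [← ofReal_norm, ENNReal.ofReal_le_one, norm_mul, norm_mul, RCLike.norm_conj]
        have g1 := hc1 p.1.1
        have g2 := hc1 p.1.2
        have g3 := hc1 p.2.1
        calc ‖c p.1.1‖ * ‖c p.1.2‖ * ‖c p.2.1‖ ≤ 1 * 1 * 1 := by gcongr
          _ = 1 := by norm_num

end Pool.Agent.H.MP_b7167f_an.SV
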