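import Pool.Agent.H.MP_b7167f_an.SS.Gauss2

/-!
PROOF.  Here the exponent in `K2` is `-qf A B C x` with
`A = cos²θ/(4 aa t) + cos²φ/(4 aa(-t)) + ε`, `B = cosθ sinθ/(4 aa t) + cosφ sinφ/(4 aa(-t))`,
`C = sin²θ/(4 aa t) + sin²φ/(4 aa(-t)) + ε`.  With `1/aa t = (1+it)/(1+t²)`:
`A C - B² = sin²(θ-φ)/(16(1+t²)) + ε/(2(1+t²)) + ε²` (real) and `NN A B C θ φ = ε cos(θ-φ)`, so
`gauss2` gives `‖K2‖ ≤ (π/2) ε det^(-3/2)`, and `det ≥ (sin²(θ-φ) + 8ε)/(16(1+t²))`: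
`‖K2‖ ≤ 32 π ε (1+t²)^(3/2) (sin²(θ-φ)+8ε)^(-3/2)`.
Integral: for fixed `φ` put `ψ = θ-φ`, in an interval of length `2π` inside `[-2π,2π]`; the function is
`π`-periodic in `ψ`, `sin²ψ ≥ (4/π²) ψ²` on `[-π/2,π/2]`, and
`(cψ²+b)^(-3/2) ≤ b^(-1/2) (cψ²+b)⁻¹`, `∫_ℝ (cψ²+b)⁻¹ = π/√(c b)` (`integral_univ_inv_one_add_sq`);
so the integral over a period is `≤ C/ε` and the factor `ε` cancels.
-/

open MeasureTheory Set Complex
open scoped ENNReal

namespace Pool.Agent.H.MP_b7167f_an.SV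

open Pool.Agent.H.MP_b7167f_an.SS

private theorem K2w_alpha (t : ℝ) :
    (4 * aa t)⁻¹ = ((1 / (4 * (1 + t ^ 2)) : ℝ) : ℂ) + ((1 / (4 * (1 + t ^ 2)) * t : ℝ) : ℂ) * I := by
  have h : (1 + (t : ℂ) ^ 2) ≠ 0 := by
    have : (0 : ℝ) < 1 + t ^ 2 := by positivity
    exact_mod_cast this.ne'
  have hI : I ^ 2 = -1 := Complex.I_sq
  apply inv_eq_of_mul_eq_one_right
  unfold aa
  push_cast
  field_simp
  linear_combination (-(t : ℂ) ^ 2) * hI

private theorem K2w_beta (t : ℝ) :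
    (4 * aa (-t))⁻¹ =
      ((1 / (4 * (1 + t ^ 2)) : ℝ) : ℂ) - ((1 / (4 * (1 + t ^ 2)) * t : ℝ) : ℂ) * I := by
  rw [K2w_alpha (-t)]
  push_cast
  ring

private theorem K2w_sc (θ : ℝ) : ((Real.sin θ : ℝ) : ℂ) ^ 2 + ((Real.cos θ : ℝ) : ℂ) ^ 2 = 1 := by
  exact_mod_cast Real.sin_sq_add_cos_sq θ

/-- Bound for the kernel. -/
private theorem K2w_bound (t ε θ φ : ℝ) (hε : 0 < ε) :
    ‖K2 t ε θ φ‖ ≤ 32 * Real.pi * ((1 + t ^ 2) * Real.sqrt (1 + t ^ 2)) *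
      (ε / ((Real.sin (θ - φ) ^ 2 + 8 * ε) * Real.sqrt (Real.sin (θ - φ) ^ 2 + 8 * ε))) := by
  set α : ℂ := (4 * aa t)⁻¹ with hα
  set β : ℂ := (4 * aa (-t))⁻¹ with hβ
  set k : ℝ := 1 / (4 * (1 + t ^ 2)) with hk
  have ht : (0 : ℝ) < 1 + t ^ 2 := by positivity
  have hkpos : 0 < k := by rw [hk]; positivity
  have hα' : α = (k : ℂ) + ((k * t : ℝ) : ℂ) * I := K2w_alpha t
  have hβ' : β = (k : ℂ) - ((k * t : ℝ) : ℂ) * I := K2w_beta t
  set c : ℝ := Real.cos θ with hc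
  set s : ℝ := Real.sin θ with hs
  set c' : ℝ := Real.cos φ with hc'
  set s' : ℝ := Real.sin φ with hs'
  have h1 : s ^ 2 + c ^ 2 = 1 := Real.sin_sq_add_cos_sq θ
  have h2 : s' ^ 2 + c' ^ 2 = 1 := Real.sin_sq_add_cos_sq φ
  have h1C : (s : ℂ) ^ 2 + (c : ℂ) ^ 2 = 1 := by exact_mod_cast h1
  have h2C : (s' : ℂ) ^ 2 + (c' : ℂ) ^ 2 = 1 := by exact_mod_cast h2
  set A : ℂ := α * (c : ℂ) ^ 2 + β * (c' : ℂ) ^ 2 + (ε : ℂ) with hA
  set B : ℂ := α * ((c : ℂ) * (s : ℂ)) + β * ((c' : ℂ) * (s' : ℂ)) with hB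
  set C : ℂ := α * (s : ℂ) ^ 2 + β * (s' : ℂ) ^ 2 + (ε : ℂ) with hC
  have hAre : A.re = k * (c ^ 2 + c' ^ 2) + ε := by
    rw [hA, hα', hβ']
    simp only [Complex.add_re, Complex.mul_re, Complex.sub_re, Complex.ofReal_re, Complex.ofReal_im,
      Complex.I_re, Complex.I_im, Complex.add_im, Complex.mul_im, Complex.sub_im,
      ← Complex.ofReal_pow]
    ring
  have hBre : B.re = k * (c * s + c' * s') := by
    rw [hB, hα', hβ']
    simp only [Complex.add_re, Complex.mul_re, Complex.sub_re, Complex.ofReal_re, Complex.ofReal_im,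
      Complex.I_re, Complex.I_im, Complex.add_im, Complex.mul_im, Complex.sub_im,
      ← Complex.ofReal_mul]
    ring
  have hCre : C.re = k * (s ^ 2 + s' ^ 2) + ε := by
    rw [hC, hα', hβ']
    simp only [Complex.add_re, Complex.mul_re, Complex.sub_re, Complex.ofReal_re, Complex.ofReal_im,
      Complex.I_re, Complex.I_im, Complex.add_im, Complex.mul_im, Complex.sub_im,
      ← Complex.ofReal_pow]
    ring
  have hA0 : 0 < A.re := by rw [hAre]; positivity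
  have hdetre : B.re ^ 2 < A.re * C.re := by
    rw [hAre, hBre, hCre]
    have : (k * (c ^ 2 + c' ^ 2) + ε) * (k * (s ^ 2 + s' ^ 2) + ε) - (k * (c * s + c' * s')) ^ 2
        = k ^ 2 * (c * s' - c' * s) ^ 2 + 2 * k * ε + ε ^ 2 := by
      linear_combination (k * ε) * h1 + (k * ε) * h2
    have h3 : 0 < k ^ 2 * (c * s' - c' * s) ^ 2 + 2 * k * ε + ε ^ 2 := by positivity
    linarith
  have hαβ : α * β = ((k ^ 2 * (1 + t ^ 2) : ℝ) : ℂ) := by
    rw [hα', hβ']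
    have hI : I ^ 2 = -1 := Complex.I_sq
    push_cast
    linear_combination (-(k : ℂ) ^ 2 * (t : ℂ) ^ 2) * hI
  have hαβ2 : α + β = ((2 * k : ℝ) : ℂ) := by
    rw [hα', hβ']
    push_cast
    ring
  set det : ℝ := k ^ 2 * (1 + t ^ 2) * Real.sin (θ - φ) ^ 2 + 2 * k * ε + ε ^ 2 with hdet
  have hsub : Real.sin (θ - φ) = s * c' - c * s' := by
    rw [Real.sin_sub]
  have hsubc : Real.cos (θ - φ) = c * c' + s * s' := by
    rw [Real.cos_sub]
  have hdetC : A * C - B ^ 2 = (det : ℂ) := by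
    have e1 : A * C - B ^ 2 = α * β * ((s : ℂ) * c' - c * s') ^ 2 + (α + β) * ε + (ε : ℂ) ^ 2 := by
      rw [hA, hB, hC]
      linear_combination (α * (ε : ℂ)) * h1C + (β * (ε : ℂ)) * h2C
    rw [e1, hαβ, hαβ2, hdet, hsub]
    push_cast
    ring
  have hNN : NN A B C θ φ = ((ε * Real.cos (θ - φ) : ℝ) : ℂ) := by
    rw [hsubc]
    unfold NN
    rw [← hc, ← hs, ← hc', ← hs', hA, hB, hC]
    push_cast
    ring
  have hdetpos : 0 < det := by rw [hdet]; positivity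
  obtain ⟨Z, hZ, hG, -⟩ := gauss2 A B C hA0 hdetre
  have hK : K2 t ε θ φ = Z * (NN A B C θ φ / (2 * (A * C - B ^ 2))) := by
    rw [← hG θ φ]
    unfold K2
    apply integral_congr_ae
    refine Filter.Eventually.of_forall fun x => ?_
    have hexp : -(dt x θ : ℂ) ^ 2 / (4 * aa t) - (dt x φ : ℂ) ^ 2 / (4 * aa (-t))
        - ε * ((x.1 : ℂ) ^ 2 + (x.2 : ℂ) ^ 2) = -qf A B C x := by
      rw [div_eq_mul_inv, div_eq_mul_inv, ← hα, ← hβ]
      unfold qf dt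
      rw [hA, hB, hC, ← hc, ← hs, ← hc', ← hs']
      push_cast
      ring
    beta_reduce
    rw [hexp]
  rw [hK, hdetC, hNN, norm_mul, hZ, hdetC]
  have hn1 : ‖(det : ℂ)‖ = det := by
    rw [Complex.norm_real, Real.norm_of_nonneg hdetpos.le]
  have hn2 : ‖(((ε * Real.cos (θ - φ) : ℝ) : ℂ)) / (2 * (det : ℂ))‖ ≤ ε / (2 * det) := by
    have h22 : ‖(2 : ℂ) * (det : ℂ)‖ = 2 * det := by
      rw [norm_mul, hn1]
      simp
    rw [norm_div, Complex.norm_real, h22, Real.norm_eq_abs, abs_mul, abs_of_pos hε]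
    apply div_le_div_of_nonneg_right _ (by positivity)
    have := Real.abs_cos_le_one (θ - φ)
    nlinarith
  rw [hn1]
  set u : ℝ := Real.sin (θ - φ) ^ 2 + 8 * ε with hu
  have hupos : 0 < u := by rw [hu]; positivity
  have hle : u / (16 * (1 + t ^ 2)) ≤ det := by
    have e2 : det = u / (16 * (1 + t ^ 2)) + ε ^ 2 := by
      rw [hdet, hu, hk]
      field_simp
      ring
    rw [e2]
    have := sq_nonneg ε
    linarith
  have hsq : Real.sqrt (u / (16 * (1 + t ^ 2))) = Real.sqrt u / (4 * Real.sqrt (1 + t ^ 2)) := by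
    rw [Real.sqrt_div hupos.le, Real.sqrt_mul (by norm_num)]
    have : Real.sqrt 16 = 4 := by
      rw [show (16 : ℝ) = 4 ^ 2 by norm_num, Real.sqrt_sq (by norm_num)]
    rw [this]
  have hsqrtpos : 0 < Real.sqrt u := Real.sqrt_pos.mpr hupos
  have hsqrtpos2 : 0 < Real.sqrt (1 + t ^ 2) := Real.sqrt_pos.mpr ht
  calc Real.pi / Real.sqrt det * ‖(((ε * Real.cos (θ - φ) : ℝ) : ℂ)) / (2 * (det : ℂ))‖
      ≤ Real.pi / Real.sqrt det * (ε / (2 * det)) := by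
        apply mul_le_mul_of_nonneg_left hn2 (by positivity)
    _ = (Real.pi * ε / 2) / (det * Real.sqrt det) := by
        field_simp
    _ ≤ (Real.pi * ε / 2) / ((u / (16 * (1 + t ^ 2))) * Real.sqrt (u / (16 * (1 + t ^ 2)))) := by
        apply div_le_div_of_nonneg_left (by positivity) (by positivity)
        apply mul_le_mul hle (Real.sqrt_le_sqrt hle) (Real.sqrt_nonneg _) hdetpos.le
    _ = 32 * Real.pi * ((1 + t ^ 2) * Real.sqrt (1 + t ^ 2)) * (ε / (u * Real.sqrt u)) := by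
        rw [hsq]
        field_simp
        ring

/-- The model function. -/
private noncomputable def K2w_f (ε ψ : ℝ) : ℝ :=
  ε / ((Real.sin ψ ^ 2 + 8 * ε) * Real.sqrt (Real.sin ψ ^ 2 + 8 * ε))

private theorem K2w_f_nonneg (ε : ℝ) (hε : 0 < ε) (ψ : ℝ) : 0 ≤ K2w_f ε ψ := by
  unfold K2w_f
  positivity

private theorem K2w_f_cont (ε : ℝ) (hε : 0 < ε) : Continuous (K2w_f ε) := by
  unfold K2w_f
  apply Continuous.div continuous_const (by fun_prop)
  intro x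
  have : 0 < Real.sin x ^ 2 + 8 * ε := by positivity
  have h2 := Real.sqrt_pos.mpr this
  positivity

private theorem K2w_f_neg (ε ψ : ℝ) : K2w_f ε (-ψ) = K2w_f ε ψ := by
  unfold K2w_f
  rw [Real.sin_neg, neg_sq]

private theorem K2w_f_per (ε : ℝ) : Function.Periodic (K2w_f ε) Real.pi := by
  intro x
  unfold K2w_f
  rw [Real.sin_add_pi, neg_sq]

private theorem K2w_half (ε : ℝ) (hε : 0 < ε) :
    ∫ ψ in (-(Real.pi / 2))..(Real.pi / 2), K2w_f ε ψ ≤ Real.pi / 8 := by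
  have hpi := Real.pi_pos
  set c : ℝ := 4 / Real.pi ^ 2 with hc
  have hcpos : 0 < c := by rw [hc]; positivity
  have hu : ∀ ψ : ℝ, 0 < c * ψ ^ 2 + 8 * ε := fun ψ => by positivity
  have hderiv : ∀ ψ : ℝ, HasDerivAt (fun ψ : ℝ => ψ / (8 * Real.sqrt (c * ψ ^ 2 + 8 * ε)))
      (ε / ((c * ψ ^ 2 + 8 * ε) * Real.sqrt (c * ψ ^ 2 + 8 * ε))) ψ := by
    intro ψ
    have hs := Real.sqrt_pos.mpr (hu ψ)
    have h1 : HasDerivAt (fun ψ : ℝ => c * ψ ^ 2 + 8 * ε) (c * (2 * ψ)) ψ := by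
      have := ((hasDerivAt_pow 2 ψ).const_mul c).add_const (8 * ε)
      simpa using this
    have h2 := (h1.sqrt (hu ψ).ne').const_mul 8
    have h3 := (hasDerivAt_id ψ).div h2 (by positivity)
    refine HasDerivAt.congr_deriv h3 ?_
    have hsq : Real.sqrt (c * ψ ^ 2 + 8 * ε) ^ 2 = c * ψ ^ 2 + 8 * ε := Real.sq_sqrt (hu ψ).le
    generalize Real.sqrt (c * ψ ^ 2 + 8 * ε) = q at hs hsq ⊢
    rw [← hsq]
    have hq : q ≠ 0 := hs.ne'
    simp only [id]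
    field_simp
    linear_combination hsq
  have hcont : Continuous fun ψ : ℝ =>
      ε / ((c * ψ ^ 2 + 8 * ε) * Real.sqrt (c * ψ ^ 2 + 8 * ε)) := by
    apply Continuous.div continuous_const (by fun_prop)
    intro x
    have h2 := Real.sqrt_pos.mpr (hu x)
    have := hu x
    positivity
  have hFTC := intervalIntegral.integral_eq_sub_of_hasDerivAt (a := -(Real.pi / 2))
    (b := Real.pi / 2) (fun x _ => hderiv x) (hcont.intervalIntegrable _ _)
  have hmono : ∫ ψ in (-(Real.pi / 2))..(Real.pi / 2), K2w_f ε ψ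
      ≤ ∫ ψ in (-(Real.pi / 2))..(Real.pi / 2),
        ε / ((c * ψ ^ 2 + 8 * ε) * Real.sqrt (c * ψ ^ 2 + 8 * ε)) := by
    apply intervalIntegral.integral_mono_on (by linarith)
      ((K2w_f_cont ε hε).intervalIntegrable _ _) (hcont.intervalIntegrable _ _)
    intro ψ hψ
    have hle : c * ψ ^ 2 ≤ Real.sin ψ ^ 2 := by
      have h1 : |ψ| ≤ Real.pi / 2 := abs_le.mpr ⟨hψ.1, hψ.2⟩
      have h2 : 2 / Real.pi * |ψ| ≤ |Real.sin ψ| := Real.mul_abs_le_abs_sin h1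
      have h3 : (2 / Real.pi * |ψ|) ^ 2 ≤ |Real.sin ψ| ^ 2 :=
        pow_le_pow_left₀ (by positivity) h2 2
      rw [sq_abs, mul_pow, sq_abs, div_pow] at h3
      rw [hc]
      norm_num at h3 ⊢
      exact h3
    unfold K2w_f
    have h4 : c * ψ ^ 2 + 8 * ε ≤ Real.sin ψ ^ 2 + 8 * ε := by linarith
    have h5 := hu ψ
    apply div_le_div_of_nonneg_left hε.le (by have := Real.sqrt_pos.mpr h5; positivity)
    apply mul_le_mul h4 (Real.sqrt_le_sqrt h4) (Real.sqrt_nonneg _) (by positivity)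
  refine hmono.trans ?_
  rw [hFTC]
  have hval : c * (Real.pi / 2) ^ 2 = 1 := by
    rw [hc]
    field_simp
    norm_num
  rw [neg_sq, hval]
  have hs1 : 1 ≤ Real.sqrt (1 + 8 * ε) := by
    rw [show (1 : ℝ) = Real.sqrt 1 by simp]
    apply Real.sqrt_le_sqrt
    simp
    linarith
  have : Real.pi / 2 / (8 * Real.sqrt (1 + 8 * ε)) - -(Real.pi / 2) / (8 * Real.sqrt (1 + 8 * ε))
      = Real.pi / 8 / Real.sqrt (1 + 8 * ε) := by
    have hs : Real.sqrt (1 + 8 * ε) ≠ 0 := by positivity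
    field_simp
    ring
  rw [this]
  exact div_le_self (by positivity) hs1

private theorem K2w_inner (ε : ℝ) (hε : 0 < ε) (θ : ℝ) :
    ∫⁻ φ, ENNReal.ofReal (K2w_f ε (θ - φ)) ∂nu ≤ ENNReal.ofReal (Real.pi / 4) := by
  have hpi := Real.pi_pos
  have hcont : Continuous fun φ : ℝ => K2w_f ε (φ - θ) :=
    (K2w_f_cont ε hε).comp (continuous_id.sub continuous_const)
  have h0 : ∀ φ : ℝ, K2w_f ε (θ - φ) = K2w_f ε (φ - θ) := fun φ => by
    rw [← K2w_f_neg, neg_sub]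
  simp_rw [h0]
  unfold nu
  have hint : Integrable (fun φ : ℝ => K2w_f ε (φ - θ))
      (volume.restrict (Ioc (-Real.pi) Real.pi)) := by
    have := hcont.intervalIntegrable (μ := volume) (-Real.pi) Real.pi
    rwa [intervalIntegrable_iff_integrableOn_Ioc_of_le (by linarith)] at this
  rw [← ofReal_integral_eq_lintegral_ofReal hint
    (Filter.Eventually.of_forall fun φ => K2w_f_nonneg ε hε _)]
  apply ENNReal.ofReal_le_ofReal
  rw [← intervalIntegral.integral_of_le (by linarith), intervalIntegral.integral_comp_sub_right]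
  have hper := K2w_f_per ε
  have hii : ∀ a b : ℝ, IntervalIntegrable (K2w_f ε) volume a b := fun a b =>
    (K2w_f_cont ε hε).intervalIntegrable a b
  rw [← intervalIntegral.integral_add_adjacent_intervals (hii _ (-Real.pi - θ + Real.pi)) (hii _ _)]
  have e1 : ∫ x in (-Real.pi - θ)..(-Real.pi - θ + Real.pi), K2w_f ε x
      = ∫ x in (-(Real.pi / 2))..(Real.pi / 2), K2w_f ε x := by
    rw [hper.intervalIntegral_add_eq (-Real.pi - θ) (-(Real.pi / 2))]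
    congr 1
    ring
  have e2 : ∫ x in (-Real.pi - θ + Real.pi)..(Real.pi - θ), K2w_f ε x
      = ∫ x in (-(Real.pi / 2))..(Real.pi / 2), K2w_f ε x := by
    rw [show Real.pi - θ = (-Real.pi - θ + Real.pi) + Real.pi by ring,
      hper.intervalIntegral_add_eq (-Real.pi - θ + Real.pi) (-(Real.pi / 2))]
    congr 1
    ring
  rw [e1, e2]
  have := K2w_half ε hε
  linarith

theorem k2_intw : ∃ C : ℝ, 0 < C ∧ ∀ t ε : ℝ, 0 < ε → ε ≤ 1 → ∀ w : ℝ → ℝ≥0∞, Measurable w →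
    ∫⁻ p : ℝ × ℝ, w p.1 * ‖K2 t ε p.1 p.2‖ₑ ∂(nu.prod nu)
      ≤ ENNReal.ofReal (C * (1 + t ^ 2) ^ (3 / 2 : ℝ)) * ∫⁻ θ, w θ ∂nu := by
  have hpi := Real.pi_pos
  refine ⟨8 * Real.pi ^ 2, by positivity, fun t ε hε _ w hw => ?_⟩
  have ht : (0 : ℝ) < 1 + t ^ 2 := by positivity
  set R : ℝ := 32 * Real.pi * ((1 + t ^ 2) * Real.sqrt (1 + t ^ 2)) with hR
  have hR0 : 0 ≤ R := by rw [hR]; positivity
  have : IsFiniteMeasure nu := by unfold nu; infer_instance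
  have hmeas : Measurable fun p : ℝ × ℝ => w p.1 * ENNReal.ofReal (K2w_f ε (p.1 - p.2)) :=
    (hw.comp measurable_fst).mul
      ((K2w_f_cont ε hε).comp (continuous_fst.sub continuous_snd)).measurable.ennreal_ofReal
  calc ∫⁻ p : ℝ × ℝ, w p.1 * ‖K2 t ε p.1 p.2‖ₑ ∂(nu.prod nu)
      ≤ ∫⁻ p : ℝ × ℝ, ENNReal.ofReal R * (w p.1 * ENNReal.ofReal (K2w_f ε (p.1 - p.2)))
          ∂(nu.prod nu) := by
        apply lintegral_mono
        intro p
        beta_reduce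
        have h1 : ‖K2 t ε p.1 p.2‖ₑ ≤ ENNReal.ofReal R * ENNReal.ofReal (K2w_f ε (p.1 - p.2)) := by
          rw [← ENNReal.ofReal_mul hR0, ← ofReal_norm]
          exact ENNReal.ofReal_le_ofReal (K2w_bound t ε p.1 p.2 hε)
        calc w p.1 * ‖K2 t ε p.1 p.2‖ₑ
            ≤ w p.1 * (ENNReal.ofReal R * ENNReal.ofReal (K2w_f ε (p.1 - p.2))) :=
              mul_le_mul' le_rfl h1
          _ = _ := by ring
    _ = ENNReal.ofReal R * ∫⁻ p : ℝ × ℝ, w p.1 * ENNReal.ofReal (K2w_f ε (p.1 - p.2))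
          ∂(nu.prod nu) := lintegral_const_mul _ hmeas
    _ = ENNReal.ofReal R * ∫⁻ θ, ∫⁻ φ, w θ * ENNReal.ofReal (K2w_f ε (θ - φ)) ∂nu ∂nu := by
        rw [lintegral_prod _ hmeas.aemeasurable]
    _ ≤ ENNReal.ofReal R * ∫⁻ θ, w θ * ENNReal.ofReal (Real.pi / 4) ∂nu := by
        gcongr with θ
        rw [lintegral_const_mul _ (by
          exact ((K2w_f_cont ε hε).comp (continuous_const.sub continuous_id)).measurable.ennreal_ofReal)]
        exact mul_le_mul' le_rfl (K2w_inner ε hε θ)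
    _ = ENNReal.ofReal (8 * Real.pi ^ 2 * (1 + t ^ 2) ^ (3 / 2 : ℝ)) * ∫⁻ θ, w θ ∂nu := by
        rw [lintegral_mul_const _ hw, mul_comm (∫⁻ θ, w θ ∂nu), ← mul_assoc,
          ← ENNReal.ofReal_mul hR0]
        congr 2
        have h32 : (1 + t ^ 2) ^ (3 / 2 : ℝ) = (1 + t ^ 2) * Real.sqrt (1 + t ^ 2) := by
          rw [Real.sqrt_eq_rpow, show (3 / 2 : ℝ) = 1 + 1 / 2 by norm_num, Real.rpow_add ht,
            Real.rpow_one]
        rw [h32, hR]
        ring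

end Pool.Agent.H.MP_b7167f_an.SV
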