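import Pool.Agent.H.MP_b7167f_an.SS.LL
import Pool.Agent.H.MP_b7167f_an.SV.Exp2w
import Pool.Agent.H.MP_b7167f_an.SV.Exp4w
import Pool.Agent.H.MP_b7167f_an.SV.K2w
import Pool.Agent.H.MP_b7167f_an.SV.SinW

open MeasureTheory Set Complex
open scoped ENNReal

namespace Pool.Agent.H.MP_b7167f_an.SV

open Pool.Agent.H.MP_b7167f_an.SS

private theorem llw_fatou (f : ℝ × ℝ → ℝ≥0∞) (hf : Measurable f) (ε : ℕ → ℝ)
    (hε : Filter.Tendsto ε Filter.atTop (nhds 0)) (B : ℝ≥0∞)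
    (h : ∀ n, ∫⁻ x : ℝ × ℝ, f x * ENNReal.ofReal (Real.exp (-ε n * (x.1 ^ 2 + x.2 ^ 2))) ≤ B) :
    ∫⁻ x : ℝ × ℝ, f x ≤ B := by
  have hm : ∀ n, Measurable
      (fun x : ℝ × ℝ => f x * ENNReal.ofReal (Real.exp (-ε n * (x.1 ^ 2 + x.2 ^ 2)))) := by
    intro n
    refine hf.mul (ENNReal.measurable_ofReal.comp ?_)
    exact (Real.continuous_exp.comp (by fun_prop)).measurable
  have hl : ∀ x : ℝ × ℝ, Filter.Tendsto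
      (fun n => f x * ENNReal.ofReal (Real.exp (-ε n * (x.1 ^ 2 + x.2 ^ 2)))) Filter.atTop
      (nhds (f x)) := by
    intro x
    have h1 : Filter.Tendsto (fun n => ENNReal.ofReal (Real.exp (-ε n * (x.1 ^ 2 + x.2 ^ 2))))
        Filter.atTop (nhds 1) := by
      have h2 : Filter.Tendsto (fun n => Real.exp (-ε n * (x.1 ^ 2 + x.2 ^ 2))) Filter.atTop
          (nhds (Real.exp (-0 * (x.1 ^ 2 + x.2 ^ 2)))) :=
        (Real.continuous_exp.tendsto _).comp (hε.neg.mul_const _)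
      have h3 := ENNReal.tendsto_ofReal h2
      simpa using h3
    have h4 := ENNReal.Tendsto.const_mul (a := f x) h1 (Or.inl one_ne_zero)
    simpa using h4
  calc ∫⁻ x : ℝ × ℝ, f x
      = ∫⁻ x : ℝ × ℝ, Filter.liminf
          (fun n => f x * ENNReal.ofReal (Real.exp (-ε n * (x.1 ^ 2 + x.2 ^ 2)))) Filter.atTop := by
        refine lintegral_congr fun x => ?_
        exact ((hl x).liminf_eq).symm
    _ ≤ Filter.liminf (fun n => ∫⁻ x : ℝ × ℝ,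
          f x * ENNReal.ofReal (Real.exp (-ε n * (x.1 ^ 2 + x.2 ^ 2)))) Filter.atTop :=
        lintegral_liminf_le hm
    _ ≤ Filter.liminf (fun _ : ℕ => B) Filter.atTop :=
        Filter.liminf_le_liminf (Filter.Eventually.of_forall h)
    _ = B := by simp

private theorem llw_tend (c : ℝ) :
    Filter.Tendsto (fun n : ℕ => c * (1 / ((n : ℝ) + 1))) Filter.atTop (nhds 0) := by
  have := (tendsto_one_div_add_atTop_nhds_zero_nat (𝕜 := ℝ)).const_mul c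
  simpa using this

theorem t1_L2w : ∃ C : ℝ, 0 < C ∧ ∀ (t : ℝ) (c : ℝ → ℂ), Measurable c → (∀ θ, ‖c θ‖ ≤ 1) →
    ∫⁻ x : ℝ × ℝ, ‖T1 t c x‖ₑ ^ 2 ≤ ENNReal.ofReal (C * (1 + t ^ 2) ^ (3 / 2 : ℝ)) *
      ∫⁻ θ, ‖c θ‖ₑ ∂nu := by
  obtain ⟨C, hC, hK⟩ := k2_intw
  refine ⟨C, hC, fun t c hc hc1 => ?_⟩
  refine llw_fatou _ ((t1_meas t c hc).enorm.pow_const 2) (fun n => 1 * (1 / ((n : ℝ) + 1)))
    (llw_tend 1) _ (fun n => ?_)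
  have hn : (0 : ℝ) < (n : ℝ) + 1 := by positivity
  have h0 : 0 < 1 * (1 / ((n : ℝ) + 1)) := by positivity
  have h1 : 1 * (1 / ((n : ℝ) + 1)) ≤ 1 := by
    rw [one_mul, div_le_one hn]
    have : (0 : ℝ) ≤ n := Nat.cast_nonneg n
    linarith
  exact (exp2w t _ h0 c hc hc1).trans (hK t _ h0 h1 (fun θ => ‖c θ‖ₑ) hc.enorm)

theorem t1_L4w (δ : ℝ) (hδ : 0 < δ) (hδ1 : δ ≤ 1) : ∃ C : ℝ, 0 < C ∧
    ∀ (t : ℝ) (c : ℝ → ℂ), Measurable c → (∀ θ, ‖c θ‖ ≤ 1) →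
    ∫⁻ x : ℝ × ℝ, ‖T1 t c x‖ₑ ^ 4
      ≤ ENNReal.ofReal (C * (1 + t ^ 2) ^ 3 * (1 + |t|) ^ (-2 + δ)) * ∫⁻ θ, ‖c θ‖ₑ ∂nu := by
  obtain ⟨C1, hC1, hK⟩ := k4_bound δ hδ hδ1
  obtain ⟨C2, hC2, hS⟩ := sin_intw (1 - δ / 3) (by linarith) (by linarith)
  refine ⟨C1 * C2, mul_pos hC1 hC2, fun t c hc hc1 => ?_⟩
  have ht : (0 : ℝ) < 4 * (1 + t ^ 2) := by positivity
  refine llw_fatou _ ((t1_meas t c hc).enorm.pow_const 4)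
    (fun n => (1 / (4 * (1 + t ^ 2))) * (1 / ((n : ℝ) + 1))) (llw_tend _) _ (fun n => ?_)
  have hn : (0 : ℝ) < (n : ℝ) + 1 := by positivity
  have h0 : 0 < (1 / (4 * (1 + t ^ 2))) * (1 / ((n : ℝ) + 1)) := by positivity
  have h1 : 4 * (1 + t ^ 2) * ((1 / (4 * (1 + t ^ 2))) * (1 / ((n : ℝ) + 1))) ≤ 1 := by
    rw [← mul_assoc, mul_one_div_cancel ht.ne', one_mul, div_le_one hn]
    have : (0 : ℝ) ≤ n := Nat.cast_nonneg n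
    linarith
  have hA : 0 ≤ C1 * (1 + t ^ 2) ^ 3 * (1 + |t|) ^ (-2 + δ) := by positivity
  calc ∫⁻ x : ℝ × ℝ, ‖T1 t c x‖ₑ ^ 4 * ENNReal.ofReal
        (Real.exp (-((1 / (4 * (1 + t ^ 2))) * (1 / ((n : ℝ) + 1))) * (x.1 ^ 2 + x.2 ^ 2)))
      ≤ ∫⁻ p : (ℝ × ℝ) × (ℝ × ℝ), ‖c p.2.2‖ₑ *
          ‖K4 t ((1 / (4 * (1 + t ^ 2))) * (1 / ((n : ℝ) + 1))) p.1.1 p.1.2 p.2.1 p.2.2‖ₑ
          ∂((nu.prod nu).prod (nu.prod nu)) := exp4w t _ h0 c hc hc1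
    _ ≤ ∫⁻ p : (ℝ × ℝ) × (ℝ × ℝ),
          ENNReal.ofReal (C1 * (1 + t ^ 2) ^ 3 * (1 + |t|) ^ (-2 + δ)) * (‖c p.2.2‖ₑ *
          ENNReal.ofReal (S3 p.1.1 p.1.2 p.2.1 p.2.2) ^ (-(1 - δ / 3)))
          ∂((nu.prod nu).prod (nu.prod nu)) := by
        refine lintegral_mono fun p => ?_
        refine (mul_le_mul' le_rfl (hK t _ p.1.1 p.1.2 p.2.1 p.2.2 h0 h1)).trans (le_of_eq ?_)
        ring
    _ = ENNReal.ofReal (C1 * (1 + t ^ 2) ^ 3 * (1 + |t|) ^ (-2 + δ)) *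
          ∫⁻ p : (ℝ × ℝ) × (ℝ × ℝ), ‖c p.2.2‖ₑ *
            ENNReal.ofReal (S3 p.1.1 p.1.2 p.2.1 p.2.2) ^ (-(1 - δ / 3))
          ∂((nu.prod nu).prod (nu.prod nu)) := lintegral_const_mul' _ _ ENNReal.ofReal_ne_top
    _ ≤ ENNReal.ofReal (C1 * (1 + t ^ 2) ^ 3 * (1 + |t|) ^ (-2 + δ)) *
          (ENNReal.ofReal C2 * ∫⁻ θ, ‖c θ‖ₑ ∂nu) :=
        mul_le_mul' le_rfl (hS (fun θ => ‖c θ‖ₑ) hc.enorm)
    _ = ENNReal.ofReal (C1 * C2 * (1 + t ^ 2) ^ 3 * (1 + |t|) ^ (-2 + δ)) *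
          ∫⁻ θ, ‖c θ‖ₑ ∂nu := by
        rw [← mul_assoc, ← ENNReal.ofReal_mul hA]
        congr 2
        ring

end Pool.Agent.H.MP_b7167f_an.SV
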