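import Pool.Agent.H.MP_b7167f_an.SV.Cone

open MeasureTheory Set Filter
open scoped ENNReal NNReal

namespace Pool.Agent.H.MP_b7167f_an.SV

open Pool.Agent.H.MP_b7167f_an.SS

/-- Even functions in an annulus. -/
theorem even_annulusw {S : Set (ℝ × ℝ)} {q : ℝ≥0∞} (hq : 1 ≤ q) {C : ℝ≥0}
    (hC : ∀ h : ℝ × ℝ → ℂ, IsOdd h → Adm 1 h → SuppIn S h → eLpNorm (E0 h) q volume ≤ C)
    {h : ℝ × ℝ → ℂ} (hh : IsEven h) (H : Adm 1 h) (hs : SuppIn S h)
    (h0 : ∀ z : ℝ × ℝ, z.1 ^ 2 + z.2 ^ 2 ≤ 1 / 4 → h z = 0) :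
    eLpNorm (E0 h) q volume ≤ 200 * C := by
  have A1 := adm_g1 H h0
  have A2 := adm_g2 H h0
  have I1 := A1.integrable
  have I2 := A2.integrable
  have hP : ∀ (c : ℂ) (h : ℝ × ℝ → ℂ), (IsOdd h ∧ SuppIn S h) →
      (IsOdd (fun z => c * h z) ∧ SuppIn S (fun z => c * h z)) := by
    rintro c h ⟨hh, h2⟩
    refine ⟨fun z => ?_, fun z hz => ?_⟩
    · show c * h (-z) = -(c * h z)
      rw [hh z, mul_neg]
    · show c * h z = 0
      rw [h2 z hz, mul_zero]
  have hC' : ∀ h : ℝ × ℝ → ℂ, (IsOdd h ∧ SuppIn S h) → Adm 1 h → eLpNorm (E0 h) q volume ≤ C :=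
    fun h h1 h2 => hC h h1.1 h2 h1.2
  have s1 : SuppIn S (g1 h) := fun z hz => by
    unfold g1
    rw [hs z hz, zero_div, ite_self]
  have s2 : SuppIn S (g2 h) := fun z hz => by
    unfold g2
    rw [hs z hz, zero_div, ite_self]
  have J1 : Integrable (fun z : ℝ × ℝ => (Real.sin z.1 : ℂ) * g1 h z) := by
    refine I1.bdd_mul (c := 1) ?_ ?_
    · exact (Complex.continuous_ofReal.comp
        (Real.continuous_sin.comp continuous_fst)).aestronglyMeasurable
    · filter_upwards with z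
      rw [Complex.norm_real, Real.norm_eq_abs]
      exact Real.abs_sin_le_one _
  have J2 : Integrable (fun z : ℝ × ℝ => (Real.sin z.2 : ℂ) * g2 h z) := by
    refine I2.bdd_mul (c := 1) ?_ ?_
    · exact (Complex.continuous_ofReal.comp
        (Real.continuous_sin.comp continuous_snd)).aestronglyMeasurable
    · filter_upwards with z
      rw [Complex.norm_real, Real.norm_eq_abs]
      exact Real.abs_sin_le_one _
  have e1 : E0 h = E0 (fun z => (Real.sin z.1 : ℂ) * g1 h z) +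
      E0 (fun z => (Real.sin z.2 : ℂ) * g2 h z) := by
    funext y
    rw [Pi.add_apply, ← E0_add J1 J2]
    exact congrArg (fun k => E0 k y) (funext fun z => sin_g1_g2 H h0 z)
  have b1 := (eLpNorm_sin_fst hq I1).trans
    (eLpNorm_of_adm hP hC' (by norm_num : (0 : ℝ) < 100) ⟨g1_odd hh, s1⟩ A1)
  have b2 := (eLpNorm_sin_snd hq I2).trans
    (eLpNorm_of_adm hP hC' (by norm_num : (0 : ℝ) < 100) ⟨g2_odd hh, s2⟩ A2)
  have e2 : ENNReal.ofReal 100 = 100 := by
    rw [← ENNReal.ofReal_ofNat]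
  rw [e2] at b1 b2
  rw [e1]
  refine (eLpNorm_add_le (E0_continuous J1).aestronglyMeasurable
    (E0_continuous J2).aestronglyMeasurable hq).trans ((add_le_add b1 b2).trans (le_of_eq ?_))
  rw [← add_mul]
  norm_num

private theorem RWd_meas {h : ℝ × ℝ → ℂ} (hm : Measurable h) (a b : ℝ) : Measurable (ann h a b) := by
  have hR : Measurable fun z : ℝ × ℝ => z.1 ^ 2 + z.2 ^ 2 := by fun_prop
  unfold ann
  refine Measurable.ite ?_ hm measurable_const
  exact (measurableSet_lt measurable_const hR).inter (measurableSet_le hR measurable_const)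

private theorem RWd_norm (h : ℝ × ℝ → ℂ) (a b : ℝ) (z : ℝ × ℝ) : ‖ann h a b z‖ ≤ ‖h z‖ := by
  unfold ann
  split_ifs
  · exact le_rfl
  · rw [norm_zero]
    exact norm_nonneg _

private theorem RWd_int {h : ℝ × ℝ → ℂ} (H : Adm 1 h) (a b : ℝ) : Integrable (ann h a b) :=
  H.integrable.norm.mono' (RWd_meas H.meas a b).aestronglyMeasurable
    (Eventually.of_forall (RWd_norm h a b))

private theorem RWd_sum {h : ℝ × ℝ → ℂ} (H : Adm 1 h) (N : ℕ) :
    E0 (ann h ((1 / 2) ^ N) 1) =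
      ∑ k ∈ Finset.range N, E0 (ann h ((1 / 2) ^ k / 2) ((1 / 2) ^ k)) := by
  have h1 : ann h ((1 / 2) ^ N) 1 =
      fun z => ∑ k ∈ Finset.range N, ann h ((1 / 2) ^ k / 2) ((1 / 2) ^ k) z := by
    funext z
    exact ann_sum h N z
  rw [h1]
  have key : ∀ n : ℕ, E0 (fun z => ∑ k ∈ Finset.range n, ann h ((1 / 2) ^ k / 2) ((1 / 2) ^ k) z) =
      ∑ k ∈ Finset.range n, E0 (ann h ((1 / 2) ^ k / 2) ((1 / 2) ^ k)) := by
    intro n
    induction n with
    | zero =>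
      funext y
      simp [E0]
    | succ n ih =>
      rw [Finset.sum_range_succ, ← ih]
      funext y
      simp only [Finset.sum_range_succ, Pi.add_apply]
      exact E0_add (integrable_finsetSum _ fun k _ => RWd_int H _ _) (RWd_int H _ _) y
  exact key N

/-- From annuli to all even functions. -/
theorem even_allw {q : ℝ} (hq : 2 < q) : ∃ c₀ : ℝ≥0, ∀ (S : Set (ℝ × ℝ)) (C : ℝ≥0), Cone S →
    (∀ h : ℝ × ℝ → ℂ, IsEven h → Adm 1 h → SuppIn S h →
      (∀ z : ℝ × ℝ, z.1 ^ 2 + z.2 ^ 2 ≤ 1 / 4 → h z = 0) →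
      eLpNorm (E0 h) (ENNReal.ofReal q) volume ≤ C) →
    ∀ h : ℝ × ℝ → ℂ, IsEven h → Adm 1 h → SuppIn S h →
      eLpNorm (E0 h) (ENNReal.ofReal q) volume ≤ c₀ * C := by
  obtain ⟨b, hb⟩ : ∃ b : ℝ, b = (1 / 2 : ℝ) ^ (2 - 4 / q) := ⟨_, rfl⟩
  have hexp : 0 < 2 - 4 / q := by
    have : 4 / q < 2 := by
      rw [div_lt_iff₀ (by linarith)]
      linarith
    linarith
  have hb0 : 0 ≤ b := by rw [hb]; positivity
  have hb1 : b < 1 := by
    rw [hb]
    exact Real.rpow_lt_one (by norm_num) (by norm_num) hexp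
  refine ⟨(ENNReal.ofReal (1 - b)⁻¹ * ENNReal.ofReal 3).toNNReal, fun S C hS hC h he H hs => ?_⟩
  rw [ENNReal.coe_toNNReal (ENNReal.mul_ne_top ENNReal.ofReal_ne_top ENNReal.ofReal_ne_top)]
  obtain ⟨D, hD⟩ : ∃ D : ℝ≥0∞, D = ENNReal.ofReal (1 - b)⁻¹ * (ENNReal.ofReal 3 * C) := ⟨_, rfl⟩
  rw [mul_assoc, ← hD]
  have hpiece : ∀ k : ℕ, eLpNorm (E0 (ann h ((1 / 2) ^ k / 2) ((1 / 2) ^ k))) (ENNReal.ofReal q)
      volume ≤ ENNReal.ofReal (b ^ k) * (ENNReal.ofReal 3 * C) := by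
    intro k
    have hl : (0 : ℝ) < (1 / 2) ^ k := by positivity
    have hl1 : ((1 / 2 : ℝ)) ^ k ≤ 1 := pow_le_one₀ (by norm_num) (by norm_num)
    rw [eLpNorm_E0_scale (by linarith : 1 ≤ q) hl (RWd_int H _ _)]
    have e1 : ((1 / 2 : ℝ) ^ k) ^ (2 - 4 / q) = b ^ k := by
      rw [hb, ← Real.rpow_natCast, ← Real.rpow_natCast, ← Real.rpow_mul (by norm_num),
        ← Real.rpow_mul (by norm_num), mul_comm]
    rw [e1]
    refine mul_le_mul_right ?_ _
    refine eLpNorm_of_adm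
      (P := fun h => (IsEven h ∧ SuppIn S h) ∧
        ∀ z : ℝ × ℝ, z.1 ^ 2 + z.2 ^ 2 ≤ 1 / 4 → h z = 0) ?_ ?_
      (by norm_num : (0 : ℝ) < 3) ?_ (adm_ann_scale H hl hl1)
    · rintro c g ⟨⟨g1, g4⟩, g2⟩
      refine ⟨⟨fun z => ?_, fun z hz => ?_⟩, fun z hz => ?_⟩
      · simp only [g1 z]
      · simp only [g4 z hz, mul_zero]
      · simp only [g2 z hz, mul_zero]
    · rintro g ⟨⟨g1, g4⟩, g2⟩ g3
      exact hC g g1 g3 g4 g2
    · refine ⟨⟨fun z => ?_, fun z hz => ?_⟩, fun z hz => ann_scale_zero h hl z hz⟩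
      rotate_left
      · have hz' : ((1 / 2 : ℝ) ^ k * z.1, (1 / 2 : ℝ) ^ k * z.2) ∉ S := fun hc =>
          hz ((hS.smul_iff hl z).1 hc)
        simp only [ann, hs _ hz', ite_self]
      have e2 : ((1 / 2 : ℝ) ^ k * (-z).1, (1 / 2 : ℝ) ^ k * (-z).2) =
          -((1 / 2 : ℝ) ^ k * z.1, (1 / 2 : ℝ) ^ k * z.2) := by
        ext <;> simp
      simp only [e2]
      unfold ann
      simp only [Prod.fst_neg, Prod.snd_neg, neg_sq, he _]
  have hN : ∀ N : ℕ, eLpNorm (E0 (ann h ((1 / 2) ^ N) 1)) (ENNReal.ofReal q) volume ≤ D := by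
    intro N
    rw [RWd_sum H N]
    refine (eLpNorm_sum_le (fun k _ => (E0_continuous (RWd_int H _ _)).aestronglyMeasurable)
      ?_).trans ?_
    · rw [← ENNReal.ofReal_one]
      exact ENNReal.ofReal_le_ofReal (by linarith)
    refine (Finset.sum_le_sum fun k _ => hpiece k).trans ?_
    rw [← Finset.sum_mul, hD]
    refine mul_le_mul_left ?_ _
    rw [← ENNReal.ofReal_sum_of_nonneg (fun k _ => pow_nonneg hb0 k)]
    refine ENNReal.ofReal_le_ofReal ?_
    rw [← tsum_geometric_of_lt_one hb0 hb1]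
    exact (summable_geometric_of_lt_one hb0 hb1).sum_le_tsum _ (fun k _ => pow_nonneg hb0 k)
  refine (Lp.eLpNorm_lim_le_liminf_eLpNorm
    (fun N => (E0_continuous (RWd_int H ((1 / 2) ^ N) 1)).aestronglyMeasurable) (E0 h)
    (Eventually.of_forall fun y => tendsto_E0_ann H y)).trans ?_
  refine (liminf_le_liminf (Eventually.of_forall hN)).trans (le_of_eq ?_)
  exact liminf_const D

theorem all_of_oddw {q : ℝ} (hq : 2 < q) : ∃ c₀ : ℝ≥0, ∀ (S : Set (ℝ × ℝ)) (C : ℝ≥0), Cone S →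
    (∀ h : ℝ × ℝ → ℂ, IsOdd h → Adm 1 h → SuppIn S h →
      eLpNorm (E0 h) (ENNReal.ofReal q) volume ≤ C) →
    ∀ h : ℝ × ℝ → ℂ, Adm 1 h → SuppIn S h →
      eLpNorm (E0 h) (ENNReal.ofReal q) volume ≤ c₀ * C := by
  have hq1 : (1 : ℝ≥0∞) ≤ ENNReal.ofReal q := by
    rw [← ENNReal.ofReal_one]
    exact ENNReal.ofReal_le_ofReal (by linarith)
  obtain ⟨c, hc⟩ := even_allw hq
  refine ⟨1 + c * 200, fun S C hS hC h H hs => ?_⟩
  have hE := hc S (200 * C) hS (fun h hh H hs h0 => by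
    simpa using even_annulusw hq1 hC hh H hs h0)
  have Ho := H.odd_part
  have He := H.even_part
  have so : SuppIn S (fun z => (1 / 2 : ℂ) * (h z - h (-z))) := fun z hz => by
    have h2 : -z ∉ S := fun h3 => hz ((hS.neg_iff z).1 h3)
    simp only [hs z hz, hs _ h2, sub_zero, mul_zero]
  have se : SuppIn S (fun z => (1 / 2 : ℂ) * (h z + h (-z))) := fun z hz => by
    have h2 : -z ∉ S := fun h3 => hz ((hS.neg_iff z).1 h3)
    simp only [hs z hz, hs _ h2, add_zero, mul_zero]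
  have e : E0 h = E0 (fun z => (1 / 2 : ℂ) * (h z - h (-z))) +
      E0 (fun z => (1 / 2 : ℂ) * (h z + h (-z))) := by
    funext y
    rw [Pi.add_apply, ← E0_add Ho.integrable He.integrable]
    congr 1
    funext z
    ring
  have e3 : ((1 + c * 200 : ℝ≥0) : ℝ≥0∞) * C = C + c * ((200 * C : ℝ≥0) : ℝ≥0∞) := by
    push_cast
    ring
  rw [e, e3]
  refine (eLpNorm_add_le (E0_continuous Ho.integrable).aestronglyMeasurable
    (E0_continuous He.integrable).aestronglyMeasurable hq1).trans (add_le_add ?_ ?_)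
  · exact hC _ (fun z => by simp only [neg_neg]; ring) Ho so
  · exact hE _ (fun z => by simp only [neg_neg]; ring) He se

end Pool.Agent.H.MP_b7167f_an.SV
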