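import Pool.Agent.H.MP_b7167f_an.SV.CoreT
import Pool.Agent.H.MP_b7167f_an.SV.RW

/-!
From odd functions to all functions, at a fixed time.
-/

open MeasureTheory Set Filter
open scoped ENNReal NNReal

namespace Pool.Agent.H.MP_b7167f_an.SV

open Pool.Agent.H.MP_b7167f_an.SS

theorem NT_cont {h : ℝ × ℝ → ℂ} (hh : Integrable h) (t : ℝ) :
    Continuous fun x : ℝ × ℝ => E0 h (x, t) :=
  (E0_continuous hh).comp (by fun_prop)

theorem NT_const_mul (q t : ℝ) (c : ℂ) (h : ℝ × ℝ → ℂ) :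
    NT q t (fun z => c * h z) = ‖c‖ₑ * NT q t h := by
  unfold NT
  have : (fun x : ℝ × ℝ => E0 (fun z => c * h z) (x, t)) = c • fun x : ℝ × ℝ => E0 h (x, t) := by
    funext x
    rw [Pi.smul_apply, smul_eq_mul, E0_const_mul]
  rw [this, eLpNorm_const_smul]

theorem NT_of_adm {q t : ℝ} {B : ℝ≥0∞} {P : (ℝ × ℝ → ℂ) → Prop}
    (hP : ∀ (c : ℂ) (h : ℝ × ℝ → ℂ), P h → P (fun z => c * h z))
    (hC : ∀ h : ℝ × ℝ → ℂ, P h → Adm 1 h → NT q t h ≤ B) {M : ℝ} (hM : 0 < M)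
    {h : ℝ × ℝ → ℂ} (hh : P h) (H : Adm M h) :
    NT q t h ≤ ENNReal.ofReal M * B := by
  have hMc : (M : ℂ) ≠ 0 := by exact_mod_cast hM.ne'
  have h1 : Adm 1 (fun z => (M : ℂ)⁻¹ * h z) := by
    refine H.const_mul (le_of_eq ?_)
    rw [norm_inv, Complex.norm_real, Real.norm_of_nonneg hM.le, inv_mul_cancel₀ hM.ne']
  have h2 := hC _ (hP _ _ hh) h1
  have h3 : NT q t h = ‖(M : ℂ)‖ₑ * NT q t (fun z => (M : ℂ)⁻¹ * h z) := by
    rw [← NT_const_mul]
    simp only [mul_inv_cancel_left₀ hMc]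
  rw [h3]
  have h4 : ‖(M : ℂ)‖ₑ = ENNReal.ofReal M := by
    rw [← ofReal_norm, Complex.norm_real, Real.norm_of_nonneg hM.le]
  rw [h4]
  exact mul_le_mul_right h2 _

theorem one_le_ofReal {q : ℝ} (hq : 1 ≤ q) : (1 : ℝ≥0∞) ≤ ENNReal.ofReal q := by
  rw [← ENNReal.ofReal_one]
  exact ENNReal.ofReal_le_ofReal hq

theorem NT_add_le {q : ℝ} (hq : 1 ≤ q) (t : ℝ) {g h : ℝ × ℝ → ℂ} (hg : Integrable g)
    (hh : Integrable h) : NT q t (fun z => g z + h z) ≤ NT q t g + NT q t h := by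
  unfold NT
  have : (fun x : ℝ × ℝ => E0 (fun z => g z + h z) (x, t)) =
      (fun x : ℝ × ℝ => E0 g (x, t)) + fun x : ℝ × ℝ => E0 h (x, t) := by
    funext x
    exact E0_add hg hh (x, t)
  rw [this]
  exact eLpNorm_add_le (NT_cont hg t).aestronglyMeasurable (NT_cont hh t).aestronglyMeasurable
    (one_le_ofReal hq)

/-- Half the difference of two translates has no larger norm. -/
theorem NT_half {q : ℝ≥0∞} (hq : 1 ≤ q) {f : ℝ × ℝ → ℂ} (hf : Continuous f) (a b : ℝ × ℝ) :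
    eLpNorm (fun y => (f (y + a) - f (y + b)) / (2 * Complex.I)) q volume
      ≤ eLpNorm f q volume := by
  have h1 : (fun y => (f (y + a) - f (y + b)) / (2 * Complex.I))
      = (1 / (2 * Complex.I) : ℂ) • ((fun y => f (y + a)) - (fun y => f (y + b))) := by
    funext y
    simp only [Pi.smul_apply, Pi.sub_apply, smul_eq_mul]
    ring
  have ta : eLpNorm (fun y => f (y + a)) q volume = eLpNorm f q volume :=
    eLpNorm_comp_measurePreserving (μ := volume) (ν := volume) hf.aestronglyMeasurable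
      (measurePreserving_add_right volume a)
  have tb : eLpNorm (fun y => f (y + b)) q volume = eLpNorm f q volume :=
    eLpNorm_comp_measurePreserving (μ := volume) (ν := volume) hf.aestronglyMeasurable
      (measurePreserving_add_right volume b)
  have hn : ‖(1 / (2 * Complex.I) : ℂ)‖ₑ = (2 : ℝ≥0∞)⁻¹ := by
    rw [← ofReal_norm]
    have : ‖(1 / (2 * Complex.I) : ℂ)‖ = (2 : ℝ)⁻¹ := by simp
    rw [this, ENNReal.ofReal_inv_of_pos (by norm_num)]
    norm_num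
  rw [h1, eLpNorm_const_smul, hn]
  calc (2 : ℝ≥0∞)⁻¹ * eLpNorm ((fun y => f (y + a)) - fun y => f (y + b)) q volume
      ≤ (2 : ℝ≥0∞)⁻¹ * (eLpNorm (fun y => f (y + a)) q volume
          + eLpNorm (fun y => f (y + b)) q volume) := by
        gcongr
        exact eLpNorm_sub_le (hf.comp (continuous_add_const a)).aestronglyMeasurable
          (hf.comp (continuous_add_const b)).aestronglyMeasurable hq
    _ = eLpNorm f q volume := by
        rw [ta, tb, ← two_mul, ← mul_assoc, ENNReal.inv_mul_cancel (by norm_num) (by norm_num),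
          one_mul]

theorem NT_sin_fst {q : ℝ} (hq : 1 ≤ q) (t : ℝ) {g : ℝ × ℝ → ℂ} (hg : Integrable g) :
    NT q t (fun z => (Real.sin z.1 : ℂ) * g z) ≤ NT q t g := by
  unfold NT
  have h : (fun x : ℝ × ℝ => E0 (fun z => (Real.sin z.1 : ℂ) * g z) (x, t)) =
      fun x : ℝ × ℝ => ((fun x : ℝ × ℝ => E0 g (x, t)) (x + (1, 0)) -
        (fun x : ℝ × ℝ => E0 g (x, t)) (x + (-1, 0))) / (2 * Complex.I) := by
    funext x
    rw [E0_sin_fst hg]
    congr 3 <;> (ext <;> simp <;> ring)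
  rw [h]
  exact NT_half (one_le_ofReal hq) (NT_cont hg t) _ _

theorem NT_sin_snd {q : ℝ} (hq : 1 ≤ q) (t : ℝ) {g : ℝ × ℝ → ℂ} (hg : Integrable g) :
    NT q t (fun z => (Real.sin z.2 : ℂ) * g z) ≤ NT q t g := by
  unfold NT
  have h : (fun x : ℝ × ℝ => E0 (fun z => (Real.sin z.2 : ℂ) * g z) (x, t)) =
      fun x : ℝ × ℝ => ((fun x : ℝ × ℝ => E0 g (x, t)) (x + (0, 1)) -
        (fun x : ℝ × ℝ => E0 g (x, t)) (x + (0, -1))) / (2 * Complex.I) := by
    funext x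
    rw [E0_sin_snd hg]
    congr 3 <;> (ext <;> simp <;> ring)
  rw [h]
  exact NT_half (one_le_ofReal hq) (NT_cont hg t) _ _

/-- Even functions in an annulus. -/
theorem even_annulusT {S : Set (ℝ × ℝ)} {q t : ℝ} (hq : 1 ≤ q) {B : ℝ≥0∞}
    (hC : ∀ h : ℝ × ℝ → ℂ, IsOdd h → Adm 1 h → SuppIn S h → NT q t h ≤ B)
    {h : ℝ × ℝ → ℂ} (hh : IsEven h) (H : Adm 1 h) (hs : SuppIn S h)
    (h0 : ∀ z : ℝ × ℝ, z.1 ^ 2 + z.2 ^ 2 ≤ 1 / 4 → h z = 0) :
    NT q t h ≤ 200 * B := by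
  have A1 := adm_g1 H h0
  have A2 := adm_g2 H h0
  have I1 := A1.integrable
  have I2 := A2.integrable
  have hP : ∀ (c : ℂ) (h : ℝ × ℝ → ℂ), (IsOdd h ∧ SuppIn S h) →
      (IsOdd (fun z => c * h z) ∧ SuppIn S (fun z => c * h z)) := by
    rintro c h ⟨hh, h2⟩
    refine ⟨fun z => ?_, fun z hz => ?_⟩
    · show c * h (-z) = -(c * h z)
      rw [hh z, mul_neg]
    · show c * h z = 0
      rw [h2 z hz, mul_zero]
  have hC' : ∀ h : ℝ × ℝ → ℂ, (IsOdd h ∧ SuppIn S h) → Adm 1 h → NT q t h ≤ B :=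
    fun h h1 h2 => hC h h1.1 h2 h1.2
  have s1 : SuppIn S (g1 h) := fun z hz => by
    unfold g1
    rw [hs z hz, zero_div, ite_self]
  have s2 : SuppIn S (g2 h) := fun z hz => by
    unfold g2
    rw [hs z hz, zero_div, ite_self]
  have J1 : Integrable (fun z : ℝ × ℝ => (Real.sin z.1 : ℂ) * g1 h z) := by
    refine I1.bdd_mul (c := 1) ?_ ?_
    · exact (Complex.continuous_ofReal.comp
        (Real.continuous_sin.comp continuous_fst)).aestronglyMeasurable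
    · filter_upwards with z
      rw [Complex.norm_real, Real.norm_eq_abs]
      exact Real.abs_sin_le_one _
  have J2 : Integrable (fun z : ℝ × ℝ => (Real.sin z.2 : ℂ) * g2 h z) := by
    refine I2.bdd_mul (c := 1) ?_ ?_
    · exact (Complex.continuous_ofReal.comp
        (Real.continuous_sin.comp continuous_snd)).aestronglyMeasurable
    · filter_upwards with z
      rw [Complex.norm_real, Real.norm_eq_abs]
      exact Real.abs_sin_le_one _
  have e1 : h = fun z => (Real.sin z.1 : ℂ) * g1 h z + (Real.sin z.2 : ℂ) * g2 h z :=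
    funext fun z => sin_g1_g2 H h0 z
  have b1 := (NT_sin_fst hq t I1).trans
    (NT_of_adm hP hC' (by norm_num : (0 : ℝ) < 100) ⟨g1_odd hh, s1⟩ A1)
  have b2 := (NT_sin_snd hq t I2).trans
    (NT_of_adm hP hC' (by norm_num : (0 : ℝ) < 100) ⟨g2_odd hh, s2⟩ A2)
  have e2 : ENNReal.ofReal 100 = 100 := by
    rw [← ENNReal.ofReal_ofNat]
  rw [e2] at b1 b2
  conv_lhs => rw [e1]
  refine (NT_add_le hq t J1 J2).trans ((add_le_add b1 b2).trans (le_of_eq ?_))
  rw [← add_mul]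
  norm_num

theorem map_diag2 {l : ℝ} (hl : 0 < l) :
    Measure.map (fun x : ℝ × ℝ => (l * x.1, l * x.2)) volume =
      ENNReal.ofReal ((l * l)⁻¹) • (volume : Measure (ℝ × ℝ)) := by
  have hm : Measurable fun x : ℝ => l * x := measurable_const_mul l
  have h1 : Measure.map (fun x : ℝ => l * x) volume =
      ENNReal.ofReal l⁻¹ • (volume : Measure ℝ) := by
    rw [Real.map_volume_mul_left hl.ne', abs_of_pos (inv_pos.2 hl)]
  have e : (fun x : ℝ × ℝ => (l * x.1, l * x.2)) =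
      Prod.map (fun x : ℝ => l * x) (fun x : ℝ => l * x) := rfl
  rw [e, Measure.volume_eq_prod, ← Measure.map_prod_map _ _ hm hm, h1]
  simp only [Measure.prod_smul_left, Measure.prod_smul_right, smul_smul]
  congr 1
  rw [← ENNReal.ofReal_mul (by positivity)]
  congr 1
  field_simp

theorem eLpNorm_diag2 {q : ℝ} (hq : 1 ≤ q) {l : ℝ} (hl : 0 < l) {F : ℝ × ℝ → ℂ}
    (hF : Continuous F) :
    eLpNorm (fun x : ℝ × ℝ => F (l * x.1, l * x.2)) (ENNReal.ofReal q) volume =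
      ENNReal.ofReal (l ^ (-(2 / q))) * eLpNorm F (ENNReal.ofReal q) volume := by
  have hm : Measurable (fun x : ℝ × ℝ => (l * x.1, l * x.2)) := by fun_prop
  have h1 := eLpNorm_map_measure (p := ENNReal.ofReal q) (μ := (volume : Measure (ℝ × ℝ)))
    (g := F) (f := fun x : ℝ × ℝ => (l * x.1, l * x.2)) hF.aestronglyMeasurable hm.aemeasurable
  have h2 : (fun x : ℝ × ℝ => F (l * x.1, l * x.2)) =
      F ∘ fun x : ℝ × ℝ => (l * x.1, l * x.2) := rfl
  rw [h2, ← h1, map_diag2 hl, eLpNorm_smul_measure_of_ne_top ENNReal.ofReal_ne_top,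
    ENNReal.toReal_div, ENNReal.toReal_one, ENNReal.toReal_ofReal (by linarith), smul_eq_mul]
  congr 1
  rw [ENNReal.ofReal_rpow_of_pos (by positivity)]
  congr 1
  have h3 : (l * l)⁻¹ = l ^ (-2 : ℝ) := by
    rw [Real.rpow_neg hl.le, show (2 : ℝ) = ((2 : ℕ) : ℝ) by norm_num, Real.rpow_natCast, sq]
  rw [h3, ← Real.rpow_mul hl.le]
  congr 1
  ring

theorem NT_scale {q : ℝ} (hq : 1 ≤ q) {l : ℝ} (hl : 0 < l) {h : ℝ × ℝ → ℂ}
    (hh : Integrable h) (t : ℝ) :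
    NT q t h = ENNReal.ofReal (l ^ (2 - 2 / q)) *
      NT q (l ^ 2 * t) (fun z => h (l * z.1, l * z.2)) := by
  have hgi : Integrable fun z : ℝ × ℝ => h (l * z.1, l * z.2) := by
    have h1 := hh.comp_smul hl.ne'
    exact h1
  unfold NT
  have h1 : (fun x : ℝ × ℝ => E0 h (x, t)) = ((l : ℂ) ^ 2) • fun x : ℝ × ℝ =>
      (fun x : ℝ × ℝ => E0 (fun z => h (l * z.1, l * z.2)) (x, l ^ 2 * t)) (l * x.1, l * x.2) := by
    funext x
    exact E0_scale hl h (x, t)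
  rw [h1, eLpNorm_const_smul, eLpNorm_diag2 hq hl (NT_cont hgi _), ← mul_assoc]
  congr 1
  have h2 : ‖(l : ℂ) ^ 2‖ₑ = ENNReal.ofReal (l ^ 2) := by
    rw [← ofReal_norm, norm_pow, Complex.norm_real, Real.norm_of_nonneg hl.le]
  rw [h2, ← ENNReal.ofReal_mul (by positivity)]
  congr 1
  have h4 : l ^ 2 = l ^ (2 : ℝ) := by
    rw [show (2 : ℝ) = ((2 : ℕ) : ℝ) by norm_num, Real.rpow_natCast]
  rw [h4, ← Real.rpow_add hl]
  congr 1

theorem RT_meas {h : ℝ × ℝ → ℂ} (hm : Measurable h) (a b : ℝ) : Measurable (ann h a b) := by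
  have hR : Measurable fun z : ℝ × ℝ => z.1 ^ 2 + z.2 ^ 2 := by fun_prop
  unfold ann
  refine Measurable.ite ?_ hm measurable_const
  exact (measurableSet_lt measurable_const hR).inter (measurableSet_le hR measurable_const)

theorem RT_norm (h : ℝ × ℝ → ℂ) (a b : ℝ) (z : ℝ × ℝ) : ‖ann h a b z‖ ≤ ‖h z‖ := by
  unfold ann
  split_ifs
  · exact le_rfl
  · rw [norm_zero]
    exact norm_nonneg _

theorem RT_int {h : ℝ × ℝ → ℂ} (H : Adm 1 h) (a b : ℝ) : Integrable (ann h a b) :=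
  H.integrable.norm.mono' (RT_meas H.meas a b).aestronglyMeasurable
    (Eventually.of_forall (RT_norm h a b))

/-- The norms of finite sums of the annular pieces. -/
theorem RT_sum {h : ℝ × ℝ → ℂ} (H : Adm 1 h) {q : ℝ} (hq : 1 ≤ q) (t : ℝ) (N : ℕ) :
    NT q t (ann h ((1 / 2) ^ N) 1) ≤
      ∑ k ∈ Finset.range N, NT q t (ann h ((1 / 2) ^ k / 2) ((1 / 2) ^ k)) := by
  have key : ∀ n : ℕ,
      NT q t (fun z => ∑ k ∈ Finset.range n, ann h ((1 / 2) ^ k / 2) ((1 / 2) ^ k) z) ≤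
      ∑ k ∈ Finset.range n, NT q t (ann h ((1 / 2) ^ k / 2) ((1 / 2) ^ k)) := by
    intro n
    induction n with
    | zero =>
      simp [NT, E0]
    | succ n ih =>
      rw [Finset.sum_range_succ]
      simp only [Finset.sum_range_succ]
      exact (NT_add_le hq t (integrable_finsetSum _ fun k _ => RT_int H _ _)
        (RT_int H _ _)).trans (add_le_add ih le_rfl)
  have h1 : ann h ((1 / 2) ^ N) 1 =
      fun z => ∑ k ∈ Finset.range N, ann h ((1 / 2) ^ k / 2) ((1 / 2) ^ k) z := by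
    funext z
    exact ann_sum h N z
  rw [h1]
  exact key N

theorem even_allT {q l : ℝ} (hq : 1 < q) (hl0 : 0 ≤ l) (hl : l < 1 - 1 / q) : ∃ c₀ : ℝ≥0,
    ∀ (S : Set (ℝ × ℝ)) (B : ℝ≥0∞), Cone S →
    (∀ h : ℝ × ℝ → ℂ, IsEven h → Adm 1 h → SuppIn S h →
      (∀ z : ℝ × ℝ, z.1 ^ 2 + z.2 ^ 2 ≤ 1 / 4 → h z = 0) →
      ∀ t : ℝ, NT q t h ≤ B * ENNReal.ofReal ((1 + |t|) ^ (-l))) →
    ∀ h : ℝ × ℝ → ℂ, IsEven h → Adm 1 h → SuppIn S h →
      ∀ t : ℝ, NT q t h ≤ c₀ * B * ENNReal.ofReal ((1 + |t|) ^ (-l)) := by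
  have hq0 : 0 < q := by linarith
  obtain ⟨b, hb⟩ : ∃ b : ℝ, b = (1 / 2 : ℝ) ^ (2 - 2 / q - 2 * l) := ⟨_, rfl⟩
  have hexp : 0 < 2 - 2 / q - 2 * l := by
    have : 2 / q = 2 * (1 / q) := by ring
    rw [this]
    linarith
  have hb0 : 0 ≤ b := by rw [hb]; positivity
  have hb1 : b < 1 := by
    rw [hb]
    exact Real.rpow_lt_one (by norm_num) (by norm_num) hexp
  refine ⟨(ENNReal.ofReal (1 - b)⁻¹ * ENNReal.ofReal 3).toNNReal, fun S B hS hC h he H hs t => ?_⟩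
  rw [ENNReal.coe_toNNReal (ENNReal.mul_ne_top ENNReal.ofReal_ne_top ENNReal.ofReal_ne_top)]
  obtain ⟨E, hE⟩ : ∃ E : ℝ≥0∞, E = ENNReal.ofReal 3 * (B * ENNReal.ofReal ((1 + |t|) ^ (-l))) :=
    ⟨_, rfl⟩
  have hgoal : ENNReal.ofReal (1 - b)⁻¹ * ENNReal.ofReal 3 * B *
      ENNReal.ofReal ((1 + |t|) ^ (-l)) = ENNReal.ofReal (1 - b)⁻¹ * E := by
    rw [hE]
    ring
  rw [hgoal]
  have hpiece : ∀ k : ℕ, NT q t (ann h ((1 / 2) ^ k / 2) ((1 / 2) ^ k)) ≤
      ENNReal.ofReal (b ^ k) * E := by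
    intro k
    obtain ⟨ρ, hρ⟩ : ∃ ρ : ℝ, ρ = (1 / 2 : ℝ) ^ k := ⟨_, rfl⟩
    have hρ0 : 0 < ρ := by rw [hρ]; positivity
    have hρ1 : ρ ≤ 1 := by rw [hρ]; exact pow_le_one₀ (by norm_num) (by norm_num)
    rw [← hρ, NT_scale hq.le hρ0 (RT_int H _ _) t]
    have h1 : NT q (ρ ^ 2 * t) (fun z => ann h (ρ / 2) ρ (ρ * z.1, ρ * z.2)) ≤
        ENNReal.ofReal 3 * (B * ENNReal.ofReal ((1 + |ρ ^ 2 * t|) ^ (-l))) := by
      refine NT_of_adm
        (P := fun h => (IsEven h ∧ SuppIn S h) ∧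
          ∀ z : ℝ × ℝ, z.1 ^ 2 + z.2 ^ 2 ≤ 1 / 4 → h z = 0) ?_ ?_
        (by norm_num : (0 : ℝ) < 3) ?_ (adm_ann_scale H hρ0 hρ1)
      · rintro c g ⟨⟨g1, g4⟩, g2⟩
        refine ⟨⟨fun z => ?_, fun z hz => ?_⟩, fun z hz => ?_⟩
        · simp only [g1 z]
        · simp only [g4 z hz, mul_zero]
        · simp only [g2 z hz, mul_zero]
      · rintro g ⟨⟨g1, g4⟩, g2⟩ g3
        exact hC g g1 g3 g4 g2 _
      · refine ⟨⟨fun z => ?_, fun z hz => ?_⟩, fun z hz => ann_scale_zero h hρ0 z hz⟩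
        rotate_left
        · have hz' : (ρ * z.1, ρ * z.2) ∉ S := fun hc => hz ((hS.smul_iff hρ0 z).1 hc)
          simp only [ann, hs _ hz', ite_self]
        have e2 : (ρ * (-z).1, ρ * (-z).2) = -(ρ * z.1, ρ * z.2) := by
          ext <;> simp
        simp only [e2]
        unfold ann
        simp only [Prod.fst_neg, Prod.snd_neg, neg_sq, he _]
    refine (mul_le_mul_right h1 _).trans ?_
    rw [hE]
    have h2 : ENNReal.ofReal (ρ ^ (2 - 2 / q)) * ENNReal.ofReal ((1 + |ρ ^ 2 * t|) ^ (-l)) ≤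
        ENNReal.ofReal (b ^ k) * ENNReal.ofReal ((1 + |t|) ^ (-l)) := by
      rw [← ENNReal.ofReal_mul (by positivity), ← ENNReal.ofReal_mul (by positivity)]
      refine ENNReal.ofReal_le_ofReal ?_
      have e1 : b ^ k = ρ ^ (2 - 2 / q) * (ρ ^ 2) ^ (-l) := by
        rw [hb, hρ, ← Real.rpow_natCast, ← Real.rpow_mul (by norm_num), ← Real.rpow_natCast,
          ← Real.rpow_natCast, ← Real.rpow_mul (by norm_num), ← Real.rpow_mul (by norm_num),
          ← Real.rpow_mul (by norm_num), ← Real.rpow_add (by norm_num)]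
        congr 1
        push_cast
        ring
      have e2 : (1 + |ρ ^ 2 * t|) ^ (-l) ≤ (ρ ^ 2) ^ (-l) * (1 + |t|) ^ (-l) := by
        rw [← Real.mul_rpow (by positivity) (by positivity)]
        refine Real.rpow_le_rpow_of_nonpos (by positivity) ?_ (by linarith)
        rw [abs_mul, abs_of_nonneg (by positivity : 0 ≤ ρ ^ 2)]
        have : ρ ^ 2 ≤ 1 := pow_le_one₀ hρ0.le hρ1
        linarith
      rw [e1, mul_assoc]
      exact mul_le_mul_of_nonneg_left e2 (by positivity)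
    calc ENNReal.ofReal (ρ ^ (2 - 2 / q)) *
          (ENNReal.ofReal 3 * (B * ENNReal.ofReal ((1 + |ρ ^ 2 * t|) ^ (-l))))
        = ENNReal.ofReal 3 * B * (ENNReal.ofReal (ρ ^ (2 - 2 / q)) *
            ENNReal.ofReal ((1 + |ρ ^ 2 * t|) ^ (-l))) := by ring
      _ ≤ ENNReal.ofReal 3 * B * (ENNReal.ofReal (b ^ k) * ENNReal.ofReal ((1 + |t|) ^ (-l))) :=
          mul_le_mul_right h2 _
      _ = _ := by ring
  have hN : ∀ N : ℕ, NT q t (ann h ((1 / 2) ^ N) 1) ≤ ENNReal.ofReal (1 - b)⁻¹ * E := by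
    intro N
    refine (RT_sum H hq.le t N).trans ?_
    refine (Finset.sum_le_sum fun k _ => hpiece k).trans ?_
    rw [← Finset.sum_mul]
    refine mul_le_mul_left ?_ _
    rw [← ENNReal.ofReal_sum_of_nonneg (fun k _ => pow_nonneg hb0 k)]
    refine ENNReal.ofReal_le_ofReal ?_
    rw [← tsum_geometric_of_lt_one hb0 hb1]
    exact (summable_geometric_of_lt_one hb0 hb1).sum_le_tsum _ (fun k _ => pow_nonneg hb0 k)
  refine (Lp.eLpNorm_lim_le_liminf_eLpNorm (p := ENNReal.ofReal q)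
    (fun N => (NT_cont (RT_int H ((1 / 2) ^ N) 1) t).aestronglyMeasurable)
    (fun x : ℝ × ℝ => E0 h (x, t))
    (Eventually.of_forall fun x => tendsto_E0_ann H (x, t))).trans ?_
  refine (liminf_le_liminf (Eventually.of_forall hN)).trans (le_of_eq ?_)
  exact liminf_const _

theorem all_of_oddT {q l : ℝ} (hq : 1 < q) (hl0 : 0 ≤ l) (hl : l < 1 - 1 / q) : ∃ c₀ : ℝ≥0,
    ∀ (S : Set (ℝ × ℝ)) (B : ℝ≥0∞), Cone S →
    (∀ h : ℝ × ℝ → ℂ, IsOdd h → Adm 1 h → SuppIn S h →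
      ∀ t : ℝ, NT q t h ≤ B * ENNReal.ofReal ((1 + |t|) ^ (-l))) →
    ∀ h : ℝ × ℝ → ℂ, Adm 1 h → SuppIn S h →
      ∀ t : ℝ, NT q t h ≤ c₀ * B * ENNReal.ofReal ((1 + |t|) ^ (-l)) := by
  obtain ⟨c, hc⟩ := even_allT hq hl0 hl
  refine ⟨1 + c * 200, fun S B hS hC h H hs t => ?_⟩
  have hE := hc S (200 * B) hS (fun h hh H hs h0 t => by
    refine (even_annulusT hq.le (fun h h1 h2 h3 => hC h h1 h2 h3 t) hh H hs h0).trans
      (le_of_eq ?_)
    ring)
  have Ho := H.odd_part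
  have He := H.even_part
  have so : SuppIn S (fun z => (1 / 2 : ℂ) * (h z - h (-z))) := fun z hz => by
    have h2 : -z ∉ S := fun h3 => hz ((hS.neg_iff z).1 h3)
    simp only [hs z hz, hs _ h2, sub_zero, mul_zero]
  have se : SuppIn S (fun z => (1 / 2 : ℂ) * (h z + h (-z))) := fun z hz => by
    have h2 : -z ∉ S := fun h3 => hz ((hS.neg_iff z).1 h3)
    simp only [hs z hz, hs _ h2, add_zero, mul_zero]
  have e : h = fun z => (1 / 2 : ℂ) * (h z - h (-z)) + (1 / 2 : ℂ) * (h z + h (-z)) := by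
    funext z
    ring
  have b1 := hC _ (fun z => by simp only [neg_neg]; ring) Ho so t
  have b2 := hE _ (fun z => by simp only [neg_neg]; ring) He se t
  conv_lhs => rw [e]
  refine (NT_add_le hq.le t Ho.integrable He.integrable).trans ((add_le_add b1 b2).trans
    (le_of_eq ?_))
  push_cast
  ring

end Pool.Agent.H.MP_b7167f_an.SV
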