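import Pool.Agent.H.MP_b7167f_an.SV.Cut
import Pool.Agent.H.MP_b7167f_an.SV.RT

/-!
The decomposition into the level sets of the size in the direction, at a fixed time.
-/

open MeasureTheory Set Filter
open scoped ENNReal NNReal Topology

namespace Pool.Agent.H.MP_b7167f_an.SV

open Pool.Agent.H.MP_b7167f_an.SS

/-- `V θ` bounds `h` and its variation on the open ray in direction `θ`. -/
structure RayData (V : ℝ → ℝ≥0∞) (h : ℝ × ℝ → ℂ) : Prop where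
  meas : Measurable h
  measV : Measurable V
  supp : ∀ z : ℝ × ℝ, 1 < z.1 ^ 2 + z.2 ^ 2 → h z = 0
  bdd : ∀ θ ∈ Ioc (-Real.pi) Real.pi, ∀ r : ℝ, 0 < r →
    ‖h (r * Real.cos θ, r * Real.sin θ)‖ₑ ≤ V θ
  var : ∀ θ ∈ Ioc (-Real.pi) Real.pi,
    eVariationOn (fun r : ℝ => h (r * Real.cos θ, r * Real.sin θ)) (Ioi 0) ≤ V θ

variable {V : ℝ → ℝ≥0∞} {h : ℝ × ℝ → ℂ}

theorem nu_univ_le : nu univ ≤ ENNReal.ofReal 8 := by
  unfold nu
  rw [Measure.restrict_apply_univ, Real.volume_Ioc]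
  refine ENNReal.ofReal_le_ofReal ?_
  linarith [Real.pi_le_four]

theorem lint_V_ne_top {s : ℝ} (hs : 1 ≤ s) (hI : ∫⁻ θ, V θ ^ s ∂nu ≠ ⊤) :
    ∫⁻ θ, V θ ∂nu ≠ ⊤ := by
  have h1 : ∫⁻ θ, V θ ∂nu ≤ ∫⁻ θ, (1 + V θ ^ s) ∂nu := lintegral_mono fun θ => by
    rcases le_total (V θ) 1 with h | h
    · exact h.trans le_self_add
    · calc V θ = V θ ^ (1 : ℝ) := (ENNReal.rpow_one _).symm
        _ ≤ V θ ^ s := ENNReal.rpow_le_rpow_of_exponent_le h hs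
        _ ≤ 1 + V θ ^ s := le_add_self
  have h2 : ∫⁻ θ, (1 + V θ ^ s) ∂nu = nu univ + ∫⁻ θ, V θ ^ s ∂nu := by
    rw [lintegral_add_left measurable_const]
    simp
  refine ne_top_of_le_ne_top ?_ (h1.trans h2.le)
  exact ENNReal.add_ne_top.2 ⟨ne_top_of_le_ne_top ENNReal.ofReal_ne_top nu_univ_le, hI⟩

theorem RayData.integrable (H : RayData V h) (hI : ∫⁻ θ, V θ ∂nu ≠ ⊤) : Integrable h := by
  refine ⟨H.meas.aestronglyMeasurable, ?_⟩
  rw [hasFiniteIntegral_iff_enorm]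
  exact (lint_polar h H.supp V H.measV H.bdd).trans_lt (lt_top_iff_ne_top.2 hI)

theorem markov_two {s : ℝ} (hs : 0 < s) (hV : Measurable V) {lam : ℝ≥0} (hl : 0 < lam)
    (hI : ∫⁻ θ, V θ ^ s ∂nu ≤ (lam : ℝ≥0∞) ^ s) (k : ℕ) :
    nu {θ : ℝ | ((2 ^ k * lam : ℝ≥0) : ℝ≥0∞) < V θ} ≤ ENNReal.ofReal (((2 : ℝ) ^ k) ^ (-s)) := by
  have ha : 0 < 2 ^ k * lam := by positivity
  have hs0 : ((2 ^ k * lam) ^ s : ℝ≥0) ≠ 0 := (NNReal.rpow_pos ha).ne'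
  have h1 : {θ : ℝ | ((2 ^ k * lam : ℝ≥0) : ℝ≥0∞) < V θ} ⊆
      {θ : ℝ | ((2 ^ k * lam : ℝ≥0) : ℝ≥0∞) ^ s ≤ V θ ^ s} :=
    fun θ hθ => ENNReal.rpow_le_rpow (le_of_lt hθ) hs.le
  refine (measure_mono h1).trans ?_
  have h2 := meas_ge_le_lintegral_div (μ := nu) (hV.pow_const s).aemeasurable
    (ε := ((2 ^ k * lam : ℝ≥0) : ℝ≥0∞) ^ s) (by
      rw [← ENNReal.coe_rpow_of_nonneg _ hs.le]
      exact_mod_cast hs0) (by
      rw [← ENNReal.coe_rpow_of_nonneg _ hs.le]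
      exact ENNReal.coe_ne_top)
  refine h2.trans ((ENNReal.div_le_div_right hI _).trans (le_of_eq ?_))
  rw [← ENNReal.coe_rpow_of_nonneg _ hs.le, ← ENNReal.coe_rpow_of_nonneg _ hs.le,
    ← ENNReal.coe_div hs0, ENNReal.ofReal]
  congr 1
  apply NNReal.eq
  rw [Real.coe_toNNReal _ (by positivity)]
  push_cast
  have hl' : (0 : ℝ) < lam := hl
  have hl2 : (0 : ℝ) < (lam : ℝ) ^ s := Real.rpow_pos_of_pos hl' _
  rw [Real.mul_rpow (by positivity) (by positivity), Real.rpow_neg (by positivity)]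
  field_simp

theorem meas_le (hV : Measurable V) (a : ℝ≥0∞) : MeasurableSet {θ : ℝ | V θ ≤ a} :=
  measurableSet_le hV measurable_const

theorem meas_lt (hV : Measurable V) (a : ℝ≥0∞) : MeasurableSet {θ : ℝ | a < V θ} :=
  measurableSet_lt measurable_const hV

theorem tail_le (H : RayData V h) (a : ℝ≥0∞) :
    ∫⁻ z, ‖h z - cutT {θ | V θ ≤ a} h z‖ₑ ≤ ∫⁻ θ in {θ | a < V θ}, V θ ∂nu := by
  have h1 := lint_polar (fun z => h z - cutT {θ | V θ ≤ a} h z) (fun z hz => by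
      have h2 := H.supp z hz
      simp only [cutT, indicator, h2]
      simp) ({θ | a < V θ}.indicator V) (H.measV.indicator (meas_lt H.measV a))
    (fun θ hθ r hr => ?_)
  · rwa [lintegral_indicator (meas_lt H.measV a)] at h1
  · by_cases hle : V θ ≤ a
    · rw [cutT_polar h hθ hr hle, sub_self, enorm_zero]
      exact zero_le
    · rw [cutT_polar' h hθ hr hle, sub_zero, indicator_of_mem (by exact not_le.1 hle)]
      exact H.bdd θ hθ r hr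

theorem adm_level (H : RayData V h) {T : Set ℝ} (hT : MeasurableSet T) {b : ℝ≥0}
    (hTb : ∀ θ ∈ T, V θ ≤ b) : Adm (3 * b) (cutT T h) :=
  adm_cutT H.meas H.supp H.bdd H.var hT hTb

theorem tendsto_E0_cut (H : RayData V h) {s : ℝ} (hs : 1 ≤ s) {lam : ℝ≥0} (hl : 0 < lam)
    (hI : ∫⁻ θ, V θ ^ s ∂nu ≤ (lam : ℝ≥0∞) ^ s) (y : (ℝ × ℝ) × ℝ) :
    Tendsto (fun N : ℕ => E0 (cutT {θ | V θ ≤ ((2 ^ N * lam : ℝ≥0) : ℝ≥0∞)} h) y) atTop
      (𝓝 (E0 h y)) := by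
  have hs0 : 0 < s := by linarith
  have hlt : (lam : ℝ≥0∞) ^ s ≠ ⊤ := ENNReal.rpow_ne_top_of_nonneg hs0.le ENNReal.coe_ne_top
  have hVt : ∫⁻ θ, V θ ∂nu ≠ ⊤ := lint_V_ne_top hs (ne_top_of_le_ne_top hlt hI)
  have hh : Integrable h := H.integrable hVt
  have hN : ∀ N : ℕ, Integrable (cutT {θ | V θ ≤ ((2 ^ N * lam : ℝ≥0) : ℝ≥0∞)} h) := fun N =>
    (adm_level H (meas_le H.measV _) (b := 2 ^ N * lam) fun θ hθ => hθ).integrable
  have ht : Tendsto (fun N : ℕ => ∫⁻ θ in {θ | ((2 ^ N * lam : ℝ≥0) : ℝ≥0∞) < V θ}, V θ ∂nu) atTop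
      (𝓝 0) := by
    refine tendsto_setLIntegral_zero hVt ?_
    have h1 : Tendsto (fun N : ℕ => ENNReal.ofReal (((2 : ℝ) ^ N) ^ (-s))) atTop (𝓝 0) := by
      have h2 : (fun N : ℕ => ((2 : ℝ) ^ N) ^ (-s)) = fun N : ℕ => ((2 : ℝ) ^ (-s)) ^ N := by
        funext N
        rw [← Real.rpow_natCast, ← Real.rpow_natCast, ← Real.rpow_mul (by norm_num),
          ← Real.rpow_mul (by norm_num), mul_comm]
      have h3 : Tendsto (fun N : ℕ => ((2 : ℝ) ^ N) ^ (-s)) atTop (𝓝 0) := by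
        rw [h2]
        exact tendsto_pow_atTop_nhds_zero_of_lt_one (by positivity)
          (Real.rpow_lt_one_of_one_lt_of_neg (by norm_num) (by linarith))
      have h4 := (ENNReal.continuous_ofReal.tendsto 0).comp h3
      rw [ENNReal.ofReal_zero] at h4
      exact h4
    exact tendsto_of_tendsto_of_tendsto_of_le_of_le tendsto_const_nhds h1
      (fun N => zero_le) (fun N => markov_two hs0 H.measV hl hI N)
  rw [tendsto_iff_edist_tendsto_0]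
  refine tendsto_of_tendsto_of_tendsto_of_le_of_le tendsto_const_nhds ht
    (fun N => zero_le) (fun N => ?_)
  show edist (E0 (cutT {θ | V θ ≤ ((2 ^ N * lam : ℝ≥0) : ℝ≥0∞)} h) y) (E0 h y) ≤ _
  obtain ⟨g, hg⟩ : ∃ g : ℝ × ℝ → ℂ, g = cutT {θ | V θ ≤ ((2 ^ N * lam : ℝ≥0) : ℝ≥0∞)} h :=
    ⟨_, rfl⟩
  have hgi : Integrable g := hg ▸ hN N
  have h5 : E0 h y = E0 (fun z => h z - g z) y + E0 g y := by
    have h6 := E0_add (h := fun z => h z - g z) (g := g) (hh.sub hgi) hgi y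
    rw [← h6]
    congr 1
    funext z
    ring
  rw [← hg, edist_comm, edist_eq_enorm_sub, h5, add_sub_cancel_right]
  refine (enorm_E0_le _ y).trans ?_
  rw [hg]
  exact tail_le H _

theorem cut_succ (V : ℝ → ℝ≥0∞) (h : ℝ × ℝ → ℂ) {a b : ℝ≥0∞} (hab : a ≤ b) :
    cutT {θ | V θ ≤ b} h =
      fun z => cutT {θ | V θ ≤ a} h z + cutT {θ | a < V θ ∧ V θ ≤ b} h z := by
  funext z
  by_cases hz : z = 0
  · simp [cutT, hz]
  · rcases le_or_gt (V (dir z)) a with h1 | h1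
    · have h2 : V (dir z) ≤ b := h1.trans hab
      have h3 : ¬ a < V (dir z) := not_lt.2 h1
      simp [cutT, indicator, hz, h1, h2, h3]
    · have h3 : ¬ V (dir z) ≤ a := not_le.2 h1
      simp [cutT, indicator, hz, h1, h3]

theorem pieceT {q κ l : ℝ} {C : ℝ≥0} (hC : ∀ (S : Set (ℝ × ℝ)) (m : ℝ), Cone S → 0 < m →
      m ≤ 16 → mu S ≤ ENNReal.ofReal m → ∀ h : ℝ × ℝ → ℂ, Adm 1 h → SuppIn S h → ∀ t : ℝ,
      NT q t h ≤ C * ENNReal.ofReal (m ^ κ) * ENNReal.ofReal ((1 + |t|) ^ (-l)))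
    (H : RayData V h) {T : Set ℝ} (hT : MeasurableSet T) {b : ℝ≥0} (hb : 0 < b)
    (hTb : ∀ θ ∈ T, V θ ≤ b) {m : ℝ} (hm : 0 < m) (hm16 : m ≤ 16)
    (hmT : 2 * nu T ≤ ENNReal.ofReal m) (t : ℝ) :
    NT q t (cutT T h) ≤
      C * ENNReal.ofReal (3 * b * m ^ κ) * ENNReal.ofReal ((1 + |t|) ^ (-l)) := by
  have hb' : (0 : ℝ) < b := hb
  have h1 := NT_of_adm (q := q) (t := t)
    (B := C * ENNReal.ofReal (m ^ κ) * ENNReal.ofReal ((1 + |t|) ^ (-l)))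
    (P := SuppIn (coneT T)) (fun c g hg z hz => by simp only [hg z hz, mul_zero])
    (fun g hg Hg => hC (coneT T) m (cone_coneT hT) hm hm16 ((mu_coneT hT).trans hmT) g Hg hg t)
    (M := 3 * b) (by positivity) (suppIn_cutT T h) (adm_level H hT hTb)
  refine h1.trans (le_of_eq ?_)
  rw [ENNReal.ofReal_mul (by positivity : 0 ≤ 3 * (b : ℝ))]
  ring

theorem levelT {q κ l s : ℝ} (hq : 1 ≤ q) {C : ℝ≥0}
    (hC : ∀ (S : Set (ℝ × ℝ)) (m : ℝ), Cone S → 0 < m → m ≤ 16 →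
      mu S ≤ ENNReal.ofReal m → ∀ h : ℝ × ℝ → ℂ, Adm 1 h → SuppIn S h → ∀ t : ℝ,
      NT q t h ≤ C * ENNReal.ofReal (m ^ κ) * ENNReal.ofReal ((1 + |t|) ^ (-l)))
    (hs : 1 ≤ s) (hsκ : 1 < s * κ) :
    ∃ D : ℝ≥0, ∀ (V : ℝ → ℝ≥0∞) (h : ℝ × ℝ → ℂ), RayData V h → ∀ lam : ℝ≥0, 0 < lam →
      ∫⁻ θ, V θ ^ s ∂nu ≤ (lam : ℝ≥0∞) ^ s → ∀ t : ℝ,
      NT q t h ≤ D * lam * ENNReal.ofReal ((1 + |t|) ^ (-l)) := by
  have hs0 : 0 < s := by linarith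
  obtain ⟨ρ, hρ⟩ : ∃ ρ : ℝ, ρ = 2 ^ (1 - s * κ) := ⟨_, rfl⟩
  have hρ0 : 0 < ρ := by rw [hρ]; positivity
  have hρ1 : ρ < 1 := by
    rw [hρ]
    exact Real.rpow_lt_one_of_one_lt_of_neg (by norm_num) (by linarith)
  refine ⟨C * Real.toNNReal (3 * 16 ^ κ + 6 * 2 ^ κ * (1 - ρ)⁻¹), ?_⟩
  intro V h H lam hl hI t
  obtain ⟨W, hW⟩ : ∃ W : ℝ≥0∞, W = ENNReal.ofReal ((1 + |t|) ^ (-l)) := ⟨_, rfl⟩
  have hl' : (0 : ℝ) < lam := hl
  have hint : ∀ T : Set ℝ, MeasurableSet T → ∀ b : ℝ≥0, (∀ θ ∈ T, V θ ≤ b) →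
      Integrable (cutT T h) := fun T hT b hTb => (adm_level H hT hTb).integrable
  have hpiece : ∀ k : ℕ, NT q t (cutT {θ | ((2 ^ k * lam : ℝ≥0) : ℝ≥0∞) < V θ ∧
      V θ ≤ ((2 ^ (k + 1) * lam : ℝ≥0) : ℝ≥0∞)} h) ≤
      C * ENNReal.ofReal (6 * 2 ^ κ * lam * ρ ^ k) * W := by
    intro k
    have hk : (0 : ℝ) < 2 ^ k := by positivity
    have hm2 : ((2 : ℝ) ^ k) ^ (-s) ≤ 1 :=
      Real.rpow_le_one_of_one_le_of_nonpos (one_le_pow₀ (by norm_num)) (by linarith)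
    have h1 := pieceT hC H (T := {θ | ((2 ^ k * lam : ℝ≥0) : ℝ≥0∞) < V θ ∧
        V θ ≤ ((2 ^ (k + 1) * lam : ℝ≥0) : ℝ≥0∞)})
      ((meas_lt H.measV _).inter (meas_le H.measV _)) (b := 2 ^ (k + 1) * lam) (by positivity)
      (fun θ hθ => hθ.2) (m := 2 * ((2 : ℝ) ^ k) ^ (-s)) (by positivity) (by linarith) (by
        rw [ENNReal.ofReal_mul (by norm_num)]
        have : ENNReal.ofReal 2 = 2 := by norm_num
        rw [this]
        refine mul_le_mul_right ?_ _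
        exact (measure_mono fun θ hθ => hθ.1).trans (markov_two hs0 H.measV hl hI k)) t
    rw [← hW] at h1
    refine h1.trans (le_of_eq ?_)
    congr 3
    push_cast
    rw [Real.mul_rpow (by norm_num) (by positivity), ← Real.rpow_mul hk.le]
    have e1 : ρ ^ k = (2 : ℝ) ^ k * ((2 : ℝ) ^ k) ^ (-s * κ) := by
      have e2 : (2 : ℝ) ^ k * ((2 : ℝ) ^ k) ^ (-s * κ) = ((2 : ℝ) ^ k) ^ (1 + -s * κ) := by
        rw [Real.rpow_add hk, Real.rpow_one]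
      rw [e2, hρ, ← Real.rpow_natCast, ← Real.rpow_natCast, ← Real.rpow_mul (by norm_num),
        ← Real.rpow_mul (by norm_num)]
      congr 1
      ring
    rw [e1, pow_succ]
    ring
  have hhead : NT q t (cutT {θ | V θ ≤ ((2 ^ 0 * lam : ℝ≥0) : ℝ≥0∞)} h) ≤
      C * ENNReal.ofReal (3 * 16 ^ κ * lam) * W := by
    have h1 := pieceT hC H (T := {θ | V θ ≤ ((2 ^ 0 * lam : ℝ≥0) : ℝ≥0∞)})
      (meas_le H.measV _) (b := 2 ^ 0 * lam) (by positivity) (fun θ hθ => hθ) (m := 16)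
      (by norm_num) le_rfl (by
        calc 2 * nu {θ | V θ ≤ ((2 ^ 0 * lam : ℝ≥0) : ℝ≥0∞)} ≤ 2 * ENNReal.ofReal 8 :=
              mul_le_mul_right ((measure_mono (subset_univ _)).trans nu_univ_le) _
          _ = ENNReal.ofReal 16 := by
              have : (2 : ℝ≥0∞) = ENNReal.ofReal 2 := by norm_num
              rw [this, ← ENNReal.ofReal_mul (by norm_num)]
              norm_num) t
    rw [← hW] at h1
    refine h1.trans (le_of_eq ?_)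
    congr 3
    push_cast
    ring
  have hN : ∀ N : ℕ, NT q t (cutT {θ | V θ ≤ ((2 ^ N * lam : ℝ≥0) : ℝ≥0∞)} h) ≤
      C * ENNReal.ofReal (3 * 16 ^ κ * lam + 6 * 2 ^ κ * lam * ∑ k ∈ Finset.range N, ρ ^ k) *
        W := by
    intro N
    induction N with
    | zero => simpa using hhead
    | succ N ih =>
      have hab : ((2 ^ N * lam : ℝ≥0) : ℝ≥0∞) ≤ ((2 ^ (N + 1) * lam : ℝ≥0) : ℝ≥0∞) := by
        refine ENNReal.coe_le_coe.2 ?_
        gcongr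
        · norm_num
        · omega
      have i1 := hint {θ | V θ ≤ ((2 ^ N * lam : ℝ≥0) : ℝ≥0∞)} (meas_le H.measV _) _
        (fun θ hθ => hθ)
      have i2 := hint {θ | ((2 ^ N * lam : ℝ≥0) : ℝ≥0∞) < V θ ∧
        V θ ≤ ((2 ^ (N + 1) * lam : ℝ≥0) : ℝ≥0∞)} ((meas_lt H.measV _).inter (meas_le H.measV _)) _
        (fun θ hθ => hθ.2)
      rw [cut_succ V h hab]
      refine (NT_add_le hq t i1 i2).trans ?_
      refine (add_le_add ih (hpiece N)).trans (le_of_eq ?_)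
      rw [← add_mul, ← mul_add, ← ENNReal.ofReal_add (by positivity) (by positivity),
        Finset.sum_range_succ]
      congr 3
      ring
  have hD : ∀ N : ℕ, NT q t (cutT {θ | V θ ≤ ((2 ^ N * lam : ℝ≥0) : ℝ≥0∞)} h) ≤
      ((C * Real.toNNReal (3 * 16 ^ κ + 6 * 2 ^ κ * (1 - ρ)⁻¹) : ℝ≥0) : ℝ≥0∞) * lam * W := by
    intro N
    refine (hN N).trans ?_
    refine mul_le_mul_left ?_ _
    have hsum : ∑ k ∈ Finset.range N, ρ ^ k ≤ (1 - ρ)⁻¹ := by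
      rw [← tsum_geometric_of_lt_one hρ0.le hρ1]
      exact (summable_geometric_of_lt_one hρ0.le hρ1).sum_le_tsum _
        (fun k _ => pow_nonneg hρ0.le k)
    have h1 : 3 * 16 ^ κ * (lam : ℝ) + 6 * 2 ^ κ * lam * ∑ k ∈ Finset.range N, ρ ^ k ≤
        (3 * 16 ^ κ + 6 * 2 ^ κ * (1 - ρ)⁻¹) * lam := by
      have h2 : 6 * 2 ^ κ * (lam : ℝ) * ∑ k ∈ Finset.range N, ρ ^ k ≤
          6 * 2 ^ κ * (lam : ℝ) * (1 - ρ)⁻¹ := by gcongr
      linarith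
    have h3 : (0 : ℝ) ≤ 3 * 16 ^ κ + 6 * 2 ^ κ * (1 - ρ)⁻¹ := by
      have : 0 < 1 - ρ := by linarith
      positivity
    calc (C : ℝ≥0∞) * ENNReal.ofReal (3 * 16 ^ κ * lam + 6 * 2 ^ κ * lam *
          ∑ k ∈ Finset.range N, ρ ^ k)
        ≤ C * ENNReal.ofReal ((3 * 16 ^ κ + 6 * 2 ^ κ * (1 - ρ)⁻¹) * lam) :=
          mul_le_mul_right (ENNReal.ofReal_le_ofReal h1) _
      _ = _ := by
          rw [ENNReal.ofReal_mul h3, ENNReal.ofReal_coe_nnreal, ENNReal.coe_mul, ENNReal.ofReal]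
          ring
  rw [← hW]
  refine (Lp.eLpNorm_lim_le_liminf_eLpNorm (p := ENNReal.ofReal q)
    (fun N => (NT_cont (hint {θ | V θ ≤ ((2 ^ N * lam : ℝ≥0) : ℝ≥0∞)} (meas_le H.measV _) _
      (fun θ hθ => hθ)) t).aestronglyMeasurable) (fun x : ℝ × ℝ => E0 h (x, t))
    (Eventually.of_forall fun x => tendsto_E0_cut H hs hl hI (x, t))).trans ?_
  refine (liminf_le_liminf (Eventually.of_forall hD)).trans (le_of_eq ?_)
  exact liminf_const _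

/-- The estimate at a fixed time. -/
theorem ftime (q θ s l : ℝ) (hq : 2 < q) (hθ0 : 0 ≤ θ) (hθ1 : θ ≤ 1) (hqθ : q ≤ 4 ∨ θ = 1)
    (hs0 : 0 < s) (hsq : q / s < 1 + θ * (q - 2)) (hl0 : 0 ≤ l)
    (hl : l * q < (q - 2) * (1 - θ / 2)) :
    ∃ D : ℝ≥0, ∀ (V : ℝ → ℝ≥0∞) (h : ℝ × ℝ → ℂ), RayData V h → ∀ t : ℝ,
      NT q t h ≤ D * (∫⁻ θ, V θ ^ s ∂nu) ^ (1 / s) * ENNReal.ofReal ((1 + |t|) ^ (-l)) := by
  have hq0 : 0 < q := by linarith
  have hq2 : 0 < q - 2 := by linarith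
  have hs : 1 ≤ s := by
    have h1 : q / s < q := by nlinarith
    rw [div_lt_iff₀ hs0] at h1
    nlinarith
  have hl1 : l < 1 - 1 / q := by
    have h1 : (1 - 1 / q) * q = q - 1 := by field_simp
    have h2 : l * q < (1 - 1 / q) * q := by
      rw [h1]
      nlinarith
    exact lt_of_mul_lt_mul_right h2 hq0.le
  obtain ⟨κ, hκ⟩ : ∃ κ : ℝ, κ = (1 / s + (1 + θ * (q - 2)) / q) / 2 := ⟨_, rfl⟩
  have h1s : 1 / s < (1 + θ * (q - 2)) / q := by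
    rw [lt_div_iff₀ hq0]
    calc 1 / s * q = q / s := by ring
      _ < _ := hsq
  have hκ1 : κ * q < 1 + θ * (q - 2) := by
    have : κ < (1 + θ * (q - 2)) / q := by rw [hκ]; linarith
    rwa [lt_div_iff₀ hq0] at this
  have hκ2 : 1 / s < κ := by rw [hκ]; linarith
  have hsκ : 1 < s * κ := by
    rw [div_lt_iff₀ hs0] at hκ2
    linarith
  obtain ⟨C₁, hC₁⟩ := oddT q θ κ l hq hθ0 hθ1 hqθ hκ1 hl
  obtain ⟨c₀, hc₀⟩ := all_of_oddT (q := q) (l := l) (by linarith) hl0 hl1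
  obtain ⟨D, hD⟩ := levelT (q := q) (κ := κ) (l := l) (s := s) (by linarith) (C := c₀ * C₁)
    (fun S m hS hm hm16 hmu h H hs t => by
      have h1 := hc₀ S (C₁ * ENNReal.ofReal (m ^ κ)) hS
        (fun h ho H hs t => hC₁ S m hS hm hm16 hmu h ho H hs t) h H hs t
      rw [ENNReal.coe_mul, mul_assoc (c₀ : ℝ≥0∞)]
      exact h1) hs hsκ
  refine ⟨D + 1, fun V h H t => ?_⟩
  obtain ⟨J, hJ⟩ : ∃ J : ℝ≥0∞, J = (∫⁻ θ, V θ ^ s ∂nu) ^ (1 / s) := ⟨_, rfl⟩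
  rw [← hJ]
  obtain ⟨w, hw⟩ : ∃ w : ℝ, w = (1 + |t|) ^ (-l) := ⟨_, rfl⟩
  have hw0 : 0 < w := by rw [hw]; positivity
  have hw1 : w ≤ 1 := by
    rw [hw]
    exact Real.rpow_le_one_of_one_le_of_nonpos (by linarith [abs_nonneg t]) (by linarith)
  have hD' : ∀ lam : ℝ≥0, 0 < lam → ∫⁻ θ, V θ ^ s ∂nu ≤ (lam : ℝ≥0∞) ^ s →
      NT q t h ≤ D * lam * ENNReal.ofReal w := by
    intro lam h1 h2
    rw [hw]
    exact hD V h H lam h1 h2 t
  rw [← hw]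
  rcases eq_or_ne J ⊤ with h1 | h1
  · rw [h1, ENNReal.mul_top, ENNReal.top_mul]
    · exact le_top
    · exact (ENNReal.ofReal_pos.2 hw0).ne'
    · simp
  · have h2 : NT q t h ≤ D * J * ENNReal.ofReal w := by
      refine ENNReal.le_of_forall_pos_le_add fun ε hε _ => ?_
      obtain ⟨δ, hδ⟩ : ∃ δ : ℝ≥0, δ = ε / (D + 1) := ⟨_, rfl⟩
      have hδ0 : 0 < δ := by rw [hδ]; positivity
      have h3 : ((J.toNNReal + δ : ℝ≥0) : ℝ≥0∞) = J + δ := by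
        rw [ENNReal.coe_add, ENNReal.coe_toNNReal h1]
      have h4 := hD' (J.toNNReal + δ) (by positivity) (by
        rw [h3]
        calc ∫⁻ θ, V θ ^ s ∂nu = J ^ s := by
              rw [hJ, ← ENNReal.rpow_mul, one_div, inv_mul_cancel₀ hs0.ne', ENNReal.rpow_one]
          _ ≤ (J + δ) ^ s := ENNReal.rpow_le_rpow le_self_add hs0.le)
      rw [h3, mul_add, add_mul] at h4
      refine h4.trans ?_
      gcongr
      have h5 : (D : ℝ≥0∞) * δ ≤ ε := by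
        rw [← ENNReal.coe_mul]
        refine ENNReal.coe_le_coe.2 ?_
        rw [hδ, ← mul_div_assoc, div_le_iff₀ (by positivity)]
        rw [mul_comm ε]
        gcongr
        exact le_self_add
      calc (D : ℝ≥0∞) * δ * ENNReal.ofReal w ≤ ε * 1 := by
            refine mul_le_mul' h5 ?_
            rw [ENNReal.ofReal_le_one]
            exact hw1
        _ = ε := mul_one _
    refine h2.trans ?_
    gcongr
    exact le_self_add

end Pool.Agent.H.MP_b7167f_an.SV
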