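import Mathlib
import Pool.Agent.H.MP_b7167f_an.Fixed

/-!
Weighted estimates in time for the one-dimensional extension operator.
-/

open MeasureTheory Set Filter
open scoped ENNReal NNReal

namespace Pool.Agent.H.MP_b7167f_an.SV

open Pool.Agent.H.MP_b7167f_an

universe v

variable {H : Type v} [NormedAddCommGroup H] [InnerProductSpace ℂ H] [CompleteSpace H]

/-- The fourth power of the `L⁴` norm at the time `t`. -/
noncomputable def K1 (v : ℝ → H) (t : ℝ) : ℝ≥0∞ := ∫⁻ x, ‖Uop v x t‖ₑ ^ 4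

/-- The `q`-th power of the `L^q` norm at the time `t`. -/
noncomputable def N1 (q : ℝ) (v : ℝ → H) (t : ℝ) : ℝ≥0∞ := ∫⁻ x, ‖Uop v x t‖ₑ ^ q

theorem Uop_le {v : ℝ → H} (hv : Adm v) (x t : ℝ) : ‖Uop v x t‖ₑ ≤ 2 := by
  unfold Uop
  refine (enorm_integral_le_lintegral_enorm _).trans ?_
  have h1 : ∀ s, ‖ch (s * x + s ^ 2 * t) • v s‖ₑ ≤
      indicator (Icc (-1 : ℝ) 1) (fun _ => (1 : ℝ≥0∞)) s := by
    intro s
    rw [enorm_smul, enorm_ch, one_mul]
    by_cases h : s ∈ Icc (-1 : ℝ) 1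
    · rw [indicator_of_mem h, ← ofReal_norm, ENNReal.ofReal_le_one]
      exact hv.bd s
    · rw [indicator_of_notMem h, hv.supp s h, enorm_zero]
  refine (lintegral_mono h1).trans (le_of_eq ?_)
  rw [lintegral_indicator measurableSet_Icc]
  simp only [lintegral_const, MeasurableSet.univ, Measure.restrict_apply, univ_inter,
    Real.volume_Icc, one_mul]
  norm_num

theorem Uop_meas {v : ℝ → H} (hv : Adm v) : Measurable fun p : ℝ × ℝ => ‖Uop v p.1 p.2‖ₑ := by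
  have := measurable_enorm_Uop hv 1
  simpa only [ENNReal.rpow_one] using this

theorem K1_eq {v : ℝ → H} (hv : Adm v) (t : ℝ) : K1 v t = ∫⁻ z, ‖Kop v z t‖ₑ ^ 2 :=
  Uop_L4 hv t

theorem K1_meas {v : ℝ → H} (hv : Adm v) : Measurable (K1 v) := by
  unfold K1
  have h1 : Measurable fun p : ℝ × ℝ => ‖Uop v p.2 p.1‖ₑ ^ 4 :=
    ((Uop_meas hv).comp measurable_swap).pow_const 4
  exact h1.lintegral_prod_right'

theorem N1_meas (q : ℝ) {v : ℝ → H} (hv : Adm v) : Measurable (N1 q v) := by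
  unfold N1
  have h1 : Measurable fun p : ℝ × ℝ => ‖Uop v p.2 p.1‖ₑ ^ q :=
    ((Uop_meas hv).comp measurable_swap).pow_const q
  exact h1.lintegral_prod_right'

theorem L2_le {v : ℝ → H} (hv : Adm v) (t : ℝ) : ∫⁻ x, ‖Uop v x t‖ₑ ^ 2 ≤ 2 := by
  rw [Uop_L2 hv t]
  exact lintegral_enorm_sq_le hv

theorem K1_le {v : ℝ → H} (hv : Adm v) (t : ℝ) : K1 v t ≤ 8 := by
  unfold K1
  calc ∫⁻ x, ‖Uop v x t‖ₑ ^ 4 ≤ ∫⁻ x, 4 * ‖Uop v x t‖ₑ ^ 2 := by
        refine lintegral_mono fun x => ?_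
        have h1 : ‖Uop v x t‖ₑ ^ 4 = ‖Uop v x t‖ₑ ^ 2 * ‖Uop v x t‖ₑ ^ 2 := by
          rw [← pow_add]
        simp only
        rw [h1]
        refine mul_le_mul_left ?_ _
        calc ‖Uop v x t‖ₑ ^ 2 ≤ 2 ^ 2 := pow_le_pow_left₀ zero_le (Uop_le hv x t) 2
          _ = 4 := by norm_num
    _ = 4 * ∫⁻ x, ‖Uop v x t‖ₑ ^ 2 := lintegral_const_mul' _ _ (by norm_num)
    _ ≤ 4 * 2 := mul_le_mul_right (L2_le hv t) _
    _ = 8 := by norm_num

/-- Interpolation between `L²` and `L⁴`. -/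
theorem interp24 {g : ℝ → ℝ≥0∞} (hm : Measurable g) {q : ℝ} (hq : 2 < q) (hq4 : q ≤ 4)
    (h2 : ∫⁻ x, g x ^ 2 ≤ 2) : ∫⁻ x, g x ^ q ≤ 2 * (∫⁻ x, g x ^ 4) ^ ((q - 2) / 2) := by
  obtain ⟨w, hw⟩ : ∃ w, w = 2 - q / 2 := ⟨_, rfl⟩
  have hw0 : 0 ≤ w := by rw [hw]; linarith
  have hw1 : 0 ≤ (q - 2) / 2 := by linarith
  have hw2 : w ≤ 1 := by rw [hw]; linarith
  calc ∫⁻ x, g x ^ q
      = ∫⁻ x, (g x ^ 2) ^ w * (g x ^ 4) ^ ((q - 2) / 2) := by
        refine lintegral_congr fun x => ?_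
        rw [← ENNReal.rpow_natCast, ← ENNReal.rpow_natCast, ← ENNReal.rpow_mul,
          ← ENNReal.rpow_mul, ← ENNReal.rpow_add_of_nonneg _ _ (by positivity) (by positivity)]
        congr 1
        push_cast
        rw [hw]; ring
    _ ≤ (∫⁻ x, g x ^ 2) ^ w * (∫⁻ x, g x ^ 4) ^ ((q - 2) / 2) :=
        ENNReal.lintegral_mul_norm_pow_le (hm.pow_const 2).aemeasurable
          (hm.pow_const 4).aemeasurable hw0 hw1 (by rw [hw]; ring)
    _ ≤ 2 * (∫⁻ x, g x ^ 4) ^ ((q - 2) / 2) := by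
        refine mul_le_mul_left ?_ _
        calc (∫⁻ x, g x ^ 2) ^ w ≤ 2 ^ w := ENNReal.rpow_le_rpow h2 hw0
          _ ≤ 2 ^ (1 : ℝ) := ENNReal.rpow_le_rpow_of_exponent_le (by norm_num) hw2
          _ = 2 := ENNReal.rpow_one _

/-- Exponents up to `4`. -/
theorem N1_le_low {q : ℝ} (hq : 2 < q) (hq4 : q ≤ 4) {v : ℝ → H} (hv : Adm v) (t : ℝ) :
    N1 q v t ≤ 2 * K1 v t ^ ((q - 2) / 2) := by
  have hm : Measurable fun x => ‖Uop v x t‖ₑ := by
    simpa only [ENNReal.rpow_one] using measurable_enorm_Uop_x hv t 1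
  exact interp24 hm hq hq4 (L2_le hv t)

/-- Exponents above `4`. -/
theorem N1_le_high {q : ℝ} (hq4 : 4 < q) {v : ℝ → H} (hv : Adm v) (t : ℝ) :
    N1 q v t ≤ 2 ^ (q - 4) * K1 v t := by
  unfold N1 K1
  have h2 : (2 : ℝ≥0∞) ^ (q - 4) ≠ ⊤ := ENNReal.rpow_ne_top_of_nonneg (by linarith) (by norm_num)
  rw [← lintegral_const_mul' _ _ h2]
  refine lintegral_mono fun x => ?_
  have h1 : ‖Uop v x t‖ₑ ^ q = ‖Uop v x t‖ₑ ^ (q - 4) * ‖Uop v x t‖ₑ ^ 4 := by
    rw [← ENNReal.rpow_natCast, ← ENNReal.rpow_add_of_nonneg _ _ (by linarith) (by norm_num)]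
    congr 1
    push_cast
    ring
  simp only
  rw [h1]
  exact mul_le_mul_left (ENNReal.rpow_le_rpow (Uop_le hv x t) (by linarith)) _

theorem int_decay {r : ℝ} (hr : 1 < r) : ∫⁻ t : ℝ, ENNReal.ofReal ((1 + |t|) ^ (-r)) ≠ ⊤ := by
  have := finite_integral_one_add_norm (E := ℝ) (μ := (volume : Measure ℝ)) (r := r)
    (by simpa using hr)
  simp only [Real.norm_eq_abs] at this
  exact this.ne

theorem int_sing {η : ℝ} (hη : 0 < η) (hη1 : η < 1) :
    ∫⁻ z in Icc (-2 : ℝ) 2, ENNReal.ofReal (|z| ^ (-(1 - η))) ≠ ⊤ := by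
  have h1 : IntegrableOn (fun z : ℝ => |z| ^ (-(1 - η))) (Icc (-2) 2) := by
    have h2 : IntervalIntegrable (fun z : ℝ => |z| ^ (-(1 - η))) volume (-2) 2 := by
      have h3 : IntervalIntegrable (fun z : ℝ => z ^ (-(1 - η))) volume 0 2 :=
        intervalIntegral.intervalIntegrable_rpow' (by linarith)
      have h4 : IntervalIntegrable (fun z : ℝ => |z| ^ (-(1 - η))) volume 0 2 := by
        refine h3.congr ?_
        intro z hz
        rw [uIoc_of_le (by norm_num)] at hz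
        simp only
        rw [abs_of_pos hz.1]
      have h5 : IntervalIntegrable (fun z : ℝ => |z| ^ (-(1 - η))) volume (-2) 0 := by
        have h6 := h4.comp_sub_left 0
        simp only [zero_sub, abs_neg, sub_zero, neg_zero] at h6
        exact h6.symm
      exact h5.trans h4
    rwa [intervalIntegrable_iff_integrableOn_Icc_of_le (by norm_num)] at h2
  have h2 := h1.lintegral_lt_top
  exact h2.ne

/-- Hölder's inequality for a bounded function in `L¹`. -/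
theorem hol {G : ℝ → ℝ≥0∞} (hG : Measurable G) (h4 : ∀ t, G t ≤ 4) {η ε : ℝ} (hη0 : 0 < η)
    (hη1 : η < 1) (hηε : 2 * η ≤ ε) {a : ℝ} (ha : 0 < a) (hI : ∫⁻ t, G t ≤ ENNReal.ofReal a) :
    ∫⁻ t, G t * ENNReal.ofReal ((1 + |t|) ^ (-ε)) ≤
      ENNReal.ofReal (a ^ (1 - η)) *
        (4 * ∫⁻ t : ℝ, ENNReal.ofReal ((1 + |t|) ^ (-(2 : ℝ)))) ^ η := by
  have hm2 : Measurable fun t : ℝ => G t * ENNReal.ofReal ((1 + |t|) ^ (-(2 : ℝ))) :=
    hG.mul (by fun_prop)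
  have e : ∀ t : ℝ, G t * ENNReal.ofReal ((1 + |t|) ^ (-ε)) ≤
      G t ^ (1 - η) * (G t * ENNReal.ofReal ((1 + |t|) ^ (-(2 : ℝ)))) ^ η := by
    intro t
    have ht : 1 ≤ 1 + |t| := by linarith [abs_nonneg t]
    have ht0 : 0 < 1 + |t| := by linarith
    have e1 : G t ^ (1 - η) * (G t * ENNReal.ofReal ((1 + |t|) ^ (-(2 : ℝ)))) ^ η =
        G t * ENNReal.ofReal ((1 + |t|) ^ (-(2 * η))) := by
      rw [ENNReal.mul_rpow_of_nonneg _ _ hη0.le, ← mul_assoc,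
        ← ENNReal.rpow_add_of_nonneg _ _ (by linarith) hη0.le, sub_add_cancel,
        ENNReal.rpow_one, ENNReal.ofReal_rpow_of_pos (by positivity),
        ← Real.rpow_mul ht0.le, neg_mul]
    rw [e1]
    refine mul_le_mul_right ?_ _
    refine ENNReal.ofReal_le_ofReal ?_
    exact Real.rpow_le_rpow_of_exponent_le ht (by linarith)
  calc ∫⁻ t, G t * ENNReal.ofReal ((1 + |t|) ^ (-ε))
      ≤ ∫⁻ t, G t ^ (1 - η) * (G t * ENNReal.ofReal ((1 + |t|) ^ (-(2 : ℝ)))) ^ η :=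
        lintegral_mono e
    _ ≤ (∫⁻ t, G t) ^ (1 - η) *
          (∫⁻ t, G t * ENNReal.ofReal ((1 + |t|) ^ (-(2 : ℝ)))) ^ η :=
        ENNReal.lintegral_mul_norm_pow_le hG.aemeasurable hm2.aemeasurable
          (by linarith) hη0.le (by ring)
    _ ≤ _ := by
        refine mul_le_mul' ?_ ?_
        · refine (ENNReal.rpow_le_rpow hI (by linarith)).trans (le_of_eq ?_)
          rw [ENNReal.ofReal_rpow_of_pos ha]
        · refine ENNReal.rpow_le_rpow ?_ hη0.le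
          rw [← lintegral_const_mul' _ _ (by norm_num)]
          exact lintegral_mono fun t => mul_le_mul_left (h4 t) _

/-- The weighted `L⁴` estimate. -/
theorem K1_weight {ε : ℝ} (hε : 0 < ε) : ∃ C : ℝ≥0∞, C ≠ ⊤ ∧ ∀ {H : Type v} [NormedAddCommGroup H]
    [InnerProductSpace ℂ H] [CompleteSpace H] (v : ℝ → H), Adm v →
    ∫⁻ t, K1 v t * ENNReal.ofReal ((1 + |t|) ^ (-ε)) ≤ C := by
  obtain ⟨η, hη⟩ : ∃ η : ℝ, η = min ε 1 / 2 := ⟨_, rfl⟩
  have hη0 : 0 < η := by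
    rw [hη]
    have := lt_min hε one_pos
    linarith
  have hη1 : η ≤ 1 / 2 := by
    rw [hη]
    have := min_le_right ε 1
    linarith
  have hηε : 2 * η ≤ ε := by
    rw [hη]
    have := min_le_left ε 1
    linarith
  obtain ⟨A, hA⟩ : ∃ A : ℝ≥0∞, A = ∫⁻ t : ℝ, ENNReal.ofReal ((1 + |t|) ^ (-(2 : ℝ))) := ⟨_, rfl⟩
  have hAt : A ≠ ⊤ := hA ▸ int_decay (by norm_num)
  obtain ⟨B, hB⟩ : ∃ B : ℝ≥0∞,
    B = ∫⁻ z in Icc (-2 : ℝ) 2, ENNReal.ofReal (|z| ^ (-(1 - η))) := ⟨_, rfl⟩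
  have hBt : B ≠ ⊤ := hB ▸ int_sing hη0 (by linarith)
  have h4A : (4 * A) ^ η ≠ ⊤ :=
    ENNReal.rpow_ne_top_of_nonneg hη0.le (ENNReal.mul_ne_top (by norm_num) hAt)
  refine ⟨B * (4 * A) ^ η, ENNReal.mul_ne_top hBt h4A, fun {H} _ _ _ v hv => ?_⟩
  obtain ⟨G, hG⟩ : ∃ G : ℝ → ℝ → ℝ≥0∞, G = fun z t => ‖Kop v z t‖ₑ ^ 2 := ⟨_, rfl⟩
  have hGm : Measurable fun p : ℝ × ℝ => G p.1 p.2 := by
    rw [hG]
    exact (sm_Kop hv).enorm.pow_const 2
  have hG4 : ∀ z t, G z t ≤ 4 := by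
    intro z t
    rw [hG]
    have h3 : ‖Kop v z t‖ₑ ≤ 2 := by
      rw [← ofReal_norm]
      have : (2 : ℝ≥0∞) = ENNReal.ofReal 2 := by norm_num
      rw [this]
      exact ENNReal.ofReal_le_ofReal (Kop_bound hv z t)
    calc ‖Kop v z t‖ₑ ^ 2 ≤ 2 ^ 2 := pow_le_pow_left₀ zero_le h3 2
      _ = 4 := by norm_num
  have hGt : ∀ z, z ≠ 0 → ∫⁻ t, G z t ≤ ENNReal.ofReal |z|⁻¹ := by
    intro z hz
    rw [hG]
    exact Kop_time hv hz
  have hG0 : ∀ z, z ∉ Icc (-2 : ℝ) 2 → ∀ t, G z t = 0 := by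
    intro z hz t
    rw [hG]
    simp [Kop_supp hv z t hz]
  have e1 : ∀ t, K1 v t * ENNReal.ofReal ((1 + |t|) ^ (-ε)) =
      ∫⁻ z, G z t * ENNReal.ofReal ((1 + |t|) ^ (-ε)) := by
    intro t
    rw [K1_eq hv, lintegral_mul_const' _ _ ENNReal.ofReal_ne_top, hG]
  have hm3 : Measurable (Function.uncurry fun t z : ℝ =>
      G z t * ENNReal.ofReal ((1 + |t|) ^ (-ε))) := by
    have h2 : Measurable fun p : ℝ × ℝ => G p.2 p.1 := hGm.comp measurable_swap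
    exact h2.mul (by fun_prop)
  calc ∫⁻ t, K1 v t * ENNReal.ofReal ((1 + |t|) ^ (-ε))
      = ∫⁻ t, ∫⁻ z, G z t * ENNReal.ofReal ((1 + |t|) ^ (-ε)) := lintegral_congr e1
    _ = ∫⁻ z, ∫⁻ t, G z t * ENNReal.ofReal ((1 + |t|) ^ (-ε)) :=
        lintegral_lintegral_swap hm3.aemeasurable
    _ ≤ ∫⁻ z, (Icc (-2 : ℝ) 2).indicator (fun z => ENNReal.ofReal (|z| ^ (-(1 - η)))) z *
          (4 * A) ^ η := by
        have h0 : ∀ᵐ z : ℝ, z ∉ ({0} : Set ℝ) :=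
          measure_eq_zero_iff_ae_notMem.1 (measure_singleton 0)
        refine lintegral_mono_ae ?_
        filter_upwards [h0] with z hz0
        have hz0' : z ≠ 0 := hz0
        by_cases hz : z ∈ Icc (-2 : ℝ) 2
        · rw [indicator_of_mem hz, hA]
          have hm1 : Measurable (G z) := by
            have : Measurable fun t : ℝ => ((z, t) : ℝ × ℝ) := by fun_prop
            exact hGm.comp this
          have hza : 0 < |z|⁻¹ := inv_pos.2 (abs_pos.2 hz0')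
          refine (hol hm1 (hG4 z) hη0 (by linarith) hηε hza (hGt z hz0')).trans (le_of_eq ?_)
          rw [Real.inv_rpow (abs_nonneg z), ← Real.rpow_neg (abs_nonneg z)]
        · rw [indicator_of_notMem hz, zero_mul]
          simp [hG0 z hz]
    _ = _ := by
        rw [lintegral_mul_const' _ _ h4A, lintegral_indicator measurableSet_Icc, ← hB]

/-- Powers of the `L⁴` norm with weights. -/
theorem K1_pow {p l : ℝ} (hp0 : 0 ≤ p) (hp1 : p ≤ 1) (hl0 : 0 < l) (hl : 1 - p < l) :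
    ∃ C : ℝ≥0∞, C ≠ ⊤ ∧ ∀ {H : Type v} [NormedAddCommGroup H]
    [InnerProductSpace ℂ H] [CompleteSpace H] (v : ℝ → H), Adm v →
    ∫⁻ t, K1 v t ^ p * ENNReal.ofReal ((1 + |t|) ^ (-l)) ≤ C := by
  rcases eq_or_lt_of_le hp1 with h | h
  · subst h
    obtain ⟨C, hC, h1⟩ := K1_weight hl0
    refine ⟨C, hC, fun {H} _ _ _ v hv => ?_⟩
    simp only [ENNReal.rpow_one]
    exact h1 v hv
  · have hp2 : 0 < 1 - p := by linarith
    obtain ⟨ε, hε⟩ : ∃ ε : ℝ, ε = (l - (1 - p)) / 2 := ⟨_, rfl⟩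
    have hε0 : 0 < ε := by rw [hε]; linarith
    obtain ⟨C, hC, h1⟩ := K1_weight hε0
    obtain ⟨r, hr⟩ : ∃ r : ℝ, r = (l - ε * p) / (1 - p) := ⟨_, rfl⟩
    have hr1 : 1 < r := by
      rw [hr, lt_div_iff₀ hp2, hε]
      nlinarith
    obtain ⟨A, hA⟩ : ∃ A : ℝ≥0∞, A = ∫⁻ t : ℝ, ENNReal.ofReal ((1 + |t|) ^ (-r)) := ⟨_, rfl⟩
    have hAt : A ≠ ⊤ := hA ▸ int_decay hr1
    refine ⟨C ^ p * A ^ (1 - p), ENNReal.mul_ne_top
      (ENNReal.rpow_ne_top_of_nonneg hp0 hC) (ENNReal.rpow_ne_top_of_nonneg hp2.le hAt),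
      fun {H} _ _ _ v hv => ?_⟩
    have hm1 : Measurable fun t => K1 v t * ENNReal.ofReal ((1 + |t|) ^ (-ε)) :=
      (K1_meas hv).mul (by fun_prop)
    have hm2 : Measurable fun t : ℝ => ENNReal.ofReal ((1 + |t|) ^ (-r)) := by fun_prop
    calc ∫⁻ t, K1 v t ^ p * ENNReal.ofReal ((1 + |t|) ^ (-l))
        = ∫⁻ t, (K1 v t * ENNReal.ofReal ((1 + |t|) ^ (-ε))) ^ p *
            (ENNReal.ofReal ((1 + |t|) ^ (-r))) ^ (1 - p) := by
          refine lintegral_congr fun t => ?_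
          have ht : 0 < 1 + |t| := by positivity
          rw [ENNReal.mul_rpow_of_nonneg _ _ hp0, mul_assoc,
            ENNReal.ofReal_rpow_of_pos (by positivity), ENNReal.ofReal_rpow_of_pos (by positivity),
            ← ENNReal.ofReal_mul (by positivity), ← Real.rpow_mul ht.le, ← Real.rpow_mul ht.le,
            ← Real.rpow_add ht]
          congr 3
          rw [hr]
          field_simp
          ring
      _ ≤ (∫⁻ t, K1 v t * ENNReal.ofReal ((1 + |t|) ^ (-ε))) ^ p *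
            (∫⁻ t : ℝ, ENNReal.ofReal ((1 + |t|) ^ (-r))) ^ (1 - p) :=
          ENNReal.lintegral_mul_norm_pow_le hm1.aemeasurable hm2.aemeasurable hp0 hp2.le (by ring)
      _ ≤ C ^ p * A ^ (1 - p) := by
          rw [hA]
          exact mul_le_mul_left (ENNReal.rpow_le_rpow (h1 v hv) hp0) _

/-- The exponent of the `L⁴` norm. -/
noncomputable def rr (q : ℝ) : ℝ := min ((q - 2) / 2) 1

theorem N1_le {q : ℝ} (hq : 2 < q) : ∃ C : ℝ≥0∞, C ≠ ⊤ ∧ ∀ {H : Type v} [NormedAddCommGroup H]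
    [InnerProductSpace ℂ H] [CompleteSpace H] (v : ℝ → H), Adm v → ∀ t,
    N1 q v t ≤ C * K1 v t ^ rr q := by
  rcases le_or_gt q 4 with h | h
  · have e : rr q = (q - 2) / 2 := min_eq_left (by linarith)
    refine ⟨2, by norm_num, fun v hv t => ?_⟩
    rw [e]
    exact N1_le_low hq h hv t
  · have e : rr q = 1 := min_eq_right (by linarith)
    refine ⟨2 ^ (q - 4), ENNReal.rpow_ne_top_of_nonneg (by linarith) (by norm_num),
      fun v hv t => ?_⟩
    rw [e, ENNReal.rpow_one]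
    exact N1_le_high h hv t

theorem prod_le_sum_pow {m : ℕ} (hm : 0 < m) (x : Fin m → ℝ≥0∞) :
    ∏ j, x j ≤ ∑ j, x j ^ (m : ℝ) := by
  have hne : (Finset.univ : Finset (Fin m)).Nonempty := ⟨⟨0, hm⟩, Finset.mem_univ _⟩
  obtain ⟨j₀, -, hj₀⟩ := Finset.exists_max_image Finset.univ x hne
  calc ∏ j, x j ≤ x j₀ ^ (Finset.univ : Finset (Fin m)).card :=
        Finset.prod_le_pow_card _ _ _ fun j hj => hj₀ j hj
    _ = x j₀ ^ (m : ℝ) := by rw [Finset.card_univ, Fintype.card_fin, ENNReal.rpow_natCast]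
    _ ≤ ∑ j, x j ^ (m : ℝ) :=
        Finset.single_le_sum (f := fun j => x j ^ (m : ℝ)) (fun _ _ => zero_le)
          (Finset.mem_univ j₀)

/-- Products of norms of one-dimensional extensions, with weights. -/
theorem N1_prod (m : ℕ) {q l : ℝ} (hq : 2 < q) (hl0 : 0 < l) (hl : 1 - m * rr q < l) :
    ∃ C : ℝ≥0∞, C ≠ ⊤ ∧ ∀ {H : Fin m → Type v} [∀ j, NormedAddCommGroup (H j)]
    [∀ j, InnerProductSpace ℂ (H j)] [∀ j, CompleteSpace (H j)] (v : ∀ j, ℝ → H j),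
    (∀ j, Adm (v j)) →
    ∫⁻ t, (∏ j, N1 q (v j) t) * ENNReal.ofReal ((1 + |t|) ^ (-l)) ≤ C := by
  rcases Nat.eq_zero_or_pos m with h0 | hm
  · subst h0
    refine ⟨_, int_decay (r := l) (by simpa using hl), fun {H} _ _ _ v _ => ?_⟩
    simp
  · have hr0 : 0 < rr q := lt_min (by linarith) one_pos
    have hmr : (0 : ℝ) < m := by exact_mod_cast hm
    obtain ⟨p, hp⟩ : ∃ p : ℝ, p = min (m * rr q) 1 := ⟨_, rfl⟩
    have hp0 : 0 ≤ p := by
      rw [hp]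
      exact le_min (by positivity) zero_le_one
    have hp1 : p ≤ 1 := hp ▸ min_le_right _ _
    have hpl : 1 - p < l := by
      rw [hp]
      rcases le_total (m * rr q) 1 with h | h
      · rw [min_eq_left h]
        exact hl
      · rw [min_eq_right h]
        linarith
    obtain ⟨C₁, hC₁, h1⟩ := N1_le hq
    obtain ⟨C₂, hC₂, h2⟩ := K1_pow hp0 hp1 hl0 hpl
    obtain ⟨E, hE⟩ : ∃ E : ℝ≥0∞, E = 8 ^ (m * rr q - p) := ⟨_, rfl⟩
    have hpm : 0 ≤ m * rr q - p := by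
      rw [hp]
      linarith [min_le_left (m * rr q) 1]
    have hEt : E ≠ ⊤ := hE ▸ ENNReal.rpow_ne_top_of_nonneg hpm (by norm_num)
    refine ⟨C₁ ^ m * (E * (m * C₂)), ENNReal.mul_ne_top (ENNReal.pow_ne_top hC₁)
      (ENNReal.mul_ne_top hEt (ENNReal.mul_ne_top (ENNReal.natCast_ne_top m) hC₂)),
      fun {H} _ _ _ v hv => ?_⟩
    have h3 : ∀ t, ∏ j, N1 q (v j) t ≤ C₁ ^ m * (E * ∑ j, K1 (v j) t ^ p) := by
      intro t
      calc ∏ j, N1 q (v j) t ≤ ∏ j, C₁ * K1 (v j) t ^ rr q :=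
            Finset.prod_le_prod (fun _ _ => zero_le) fun j _ => h1 (v j) (hv j) t
        _ = C₁ ^ m * ∏ j, K1 (v j) t ^ rr q := by
            rw [Finset.prod_mul_distrib, Finset.prod_const, Finset.card_univ, Fintype.card_fin]
        _ ≤ C₁ ^ m * ∑ j, (K1 (v j) t ^ rr q) ^ (m : ℝ) :=
            mul_le_mul_right (prod_le_sum_pow hm _) _
        _ ≤ C₁ ^ m * ∑ j, E * K1 (v j) t ^ p := by
            refine mul_le_mul_right (Finset.sum_le_sum fun j _ => ?_) _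
            rw [← ENNReal.rpow_mul, hE]
            have e : rr q * m = (m * rr q - p) + p := by ring
            rw [e, ENNReal.rpow_add_of_nonneg _ _ hpm hp0]
            exact mul_le_mul_left (ENNReal.rpow_le_rpow (K1_le (hv j) t) hpm) _
        _ = _ := by simp only [Finset.mul_sum]
    calc ∫⁻ t, (∏ j, N1 q (v j) t) * ENNReal.ofReal ((1 + |t|) ^ (-l))
        ≤ ∫⁻ t, C₁ ^ m * (E * ∑ j, K1 (v j) t ^ p * ENNReal.ofReal ((1 + |t|) ^ (-l))) := by
          refine lintegral_mono fun t => ?_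
          refine (mul_le_mul_left (h3 t) _).trans (le_of_eq ?_)
          rw [mul_assoc, mul_assoc, Finset.sum_mul]
      _ = C₁ ^ m * (E * ∑ j, ∫⁻ t, K1 (v j) t ^ p * ENNReal.ofReal ((1 + |t|) ^ (-l))) := by
          rw [lintegral_const_mul' _ _ (ENNReal.pow_ne_top hC₁), lintegral_const_mul' _ _ hEt,
            lintegral_finsetSum]
          intro j _
          exact ((K1_meas (hv j)).pow_const p).mul (by fun_prop)
      _ ≤ C₁ ^ m * (E * ∑ _j : Fin m, C₂) := by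
          refine mul_le_mul_right (mul_le_mul_right (Finset.sum_le_sum fun j _ => ?_) _) _
          exact h2 (v j) (hv j)
      _ = _ := by
          rw [Finset.sum_const, Finset.card_univ, Fintype.card_fin, nsmul_eq_mul]

end Pool.Agent.H.MP_b7167f_an.SV
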