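import Pool.Agent.H.MP_b7167f_an.SV.LevelT

/-!
The extension operator of the plane at a fixed time, for functions whose size and variation along
the rays from a point are controlled in `L^s` of the direction.
-/

open MeasureTheory Set Filter
open scoped ENNReal NNReal

namespace Pool.Agent.H.MP_b7167f_an.SV

open Pool.Agent.H.MP_b7167f_an.SS

/-- `V θ` bounds `f` and its variation on the part of the ray `p + r (cos θ, sin θ)`, `r > 0`, in
the square. -/
structure RayBV (p : Fin 2 → ℝ) (V : ℝ → ℝ≥0∞) (f : (Fin 2 → ℝ) → ℂ) : Prop where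
  meas : Measurable f
  measV : Measurable V
  bdd : ∀ θ ∈ Ioc (-Real.pi) Real.pi, ∀ r : ℝ, 0 < r →
    p + r • ![Real.cos θ, Real.sin θ] ∈ Icc (fun _ => (-1 : ℝ)) (fun _ => (1 : ℝ)) →
    ‖f (p + r • ![Real.cos θ, Real.sin θ])‖ₑ ≤ V θ
  var : ∀ θ ∈ Ioc (-Real.pi) Real.pi,
    eVariationOn (fun r : ℝ => f (p + r • ![Real.cos θ, Real.sin θ]))
      {r : ℝ | 0 < r ∧ p + r • ![Real.cos θ, Real.sin θ] ∈
        Icc (fun _ => (-1 : ℝ)) (fun _ => (1 : ℝ))} ≤ V θ

/-- The rays in the square. -/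
def Jset (p : Fin 2 → ℝ) (θ : ℝ) : Set ℝ :=
  {r : ℝ | 0 < r ∧ p + r • ![Real.cos θ, Real.sin θ] ∈
    Icc (fun _ => (-1 : ℝ)) (fun _ => (1 : ℝ))}

theorem ord_Jset (p : Fin 2 → ℝ) (θ : ℝ) : (Jset p θ).OrdConnected := by
  have h1 := RGal1_ord p ![Real.cos θ, Real.sin θ]
  have h2 : Jset p θ = Ioi 0 ∩ {r : ℝ | 0 ≤ r ∧ p + r • ![Real.cos θ, Real.sin θ] ∈
      Icc (fun _ => (-1 : ℝ)) (fun _ => (1 : ℝ))} := by
    ext r
    constructor
    · intro h
      exact ⟨h.1, h.1.le, h.2⟩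
    · intro h
      exact ⟨h.1, h.2.2⟩
  rw [h2]
  exact ordConnected_Ioi.inter h1

theorem Fp_ray (f : (Fin 2 → ℝ) → ℂ) (p : Fin 2 → ℝ) {l : ℝ} (hl : 0 < l) (θ : ℝ) {r : ℝ}
    (hr : 0 < r) : Fp f p (l * (r * Real.cos θ), l * (r * Real.sin θ)) =
      (Jset p θ).indicator (fun r : ℝ => f (p + r • ![Real.cos θ, Real.sin θ])) (l * r) := by
  have hlr : 0 < l * r := by positivity
  have h2 : (fun i => p i + ![l * (r * Real.cos θ), l * (r * Real.sin θ)] i) =
      p + (l * r) • ![Real.cos θ, Real.sin θ] := by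
    funext i
    fin_cases i
    · show p 0 + l * (r * Real.cos θ) = p 0 + (l * r) * Real.cos θ
      ring
    · show p 1 + l * (r * Real.sin θ) = p 1 + (l * r) * Real.sin θ
      ring
  unfold Fp
  simp only [h2]
  by_cases h3 : p + (l * r) • ![Real.cos θ, Real.sin θ] ∈
      Icc (fun _ : Fin 2 => (-1 : ℝ)) (fun _ => (1 : ℝ))
  · have h4 : l * r ∈ Jset p θ := ⟨hlr, h3⟩
    rw [indicator_of_mem h3, indicator_of_mem h4]
  · have h4 : l * r ∉ Jset p θ := fun h => h3 h.2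
    rw [indicator_of_notMem h3, indicator_of_notMem h4]

/-- The scaled function. -/
theorem rayData_Fp {f : (Fin 2 → ℝ) → ℂ} {V : ℝ → ℝ≥0∞} {p : Fin 2 → ℝ} (H : RayBV p V f)
    {R : ℝ} (hR : 0 ≤ R) (hp : ‖p‖ ≤ R) :
    RayData (fun θ => 3 * V θ) (fun z => Fp f p (2 * (1 + R) * z.1, 2 * (1 + R) * z.2)) := by
  have hb := H.bdd
  have hv := H.var
  have hl : 0 < 2 * (1 + R) := by positivity
  have hV3 : ∀ θ, V θ ≤ 3 * V θ := fun θ => by
    calc V θ = 1 * V θ := (one_mul _).symm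
      _ ≤ 3 * V θ := mul_le_mul_left (by norm_num) _
  refine
    { meas := ?_
      measV := H.measV.const_mul 3
      supp := ?_
      bdd := ?_
      var := ?_ }
  · exact (RGal1_meas H.meas p).comp
      ((measurable_const.mul measurable_fst).prodMk (measurable_const.mul measurable_snd))
  · intro z hz
    by_contra h0
    obtain ⟨h1, h2⟩ := RGal1_supp h0
    simp only at h1 h2
    have hp0 := abs_le.1 ((norm_le_pi_norm p 0).trans hp)
    have hp1 := abs_le.1 ((norm_le_pi_norm p 1).trans hp)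
    have key : ∀ a b : ℝ, |a + 2 * (1 + R) * b| ≤ 1 → -R ≤ a → a ≤ R → b ^ 2 ≤ 1 / 4 := by
      intro a b h3 h4 h5
      rw [abs_le] at h3
      have h6 : b ≤ 1 / 2 := by
        by_contra hc
        push Not at hc
        nlinarith [h3.2]
      have h7 : -(1 / 2) ≤ b := by
        by_contra hc
        push Not at hc
        nlinarith [h3.1]
      nlinarith
    have h3 := key _ _ h1 hp0.1 hp0.2
    have h4 := key _ _ h2 hp1.1 hp1.2
    linarith
  · intro θ hθ r hr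
    simp only
    rw [Fp_ray f p hl θ hr]
    by_cases h1 : 2 * (1 + R) * r ∈ Jset p θ
    · rw [indicator_of_mem h1]
      exact (hb θ hθ _ h1.1 h1.2).trans (hV3 θ)
    · rw [indicator_of_notMem h1, enorm_zero]
      exact zero_le
  · intro θ hθ
    obtain ⟨g, hg⟩ : ∃ g : ℝ → ℂ, g = fun r : ℝ => f (p + r • ![Real.cos θ, Real.sin θ]) :=
      ⟨_, rfl⟩
    have e : EqOn (fun r : ℝ => Fp f p (2 * (1 + R) * (r * Real.cos θ),
        2 * (1 + R) * (r * Real.sin θ)))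
        ((Jset p θ).indicator g ∘ fun r : ℝ => 2 * (1 + R) * r) (Ioi 0) := by
      intro r hr
      rw [hg]
      exact Fp_ray f p hl θ hr
    rw [eVariationOn.eq_of_eqOn e]
    have h1 : eVariationOn ((Jset p θ).indicator g ∘ fun r : ℝ => 2 * (1 + R) * r) (Ioi 0) ≤
        eVariationOn ((Jset p θ).indicator g) (Ioi 0) := by
      refine eVariationOn.comp_le_of_monotoneOn _ _ ?_ ?_
      · intro a _ b _ hab
        exact mul_le_mul_of_nonneg_left hab hl.le
      · intro a ha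
        exact mul_pos hl ha
    refine h1.trans ?_
    by_cases hVt : V θ = ⊤
    · rw [hVt]
      simp
    · have h2 := evar_indicator_le (g := g) (s := Ioi (0 : ℝ)) (ord_Jset p θ)
        (A := (V θ).toNNReal) (fun x hx => ?_)
      · refine h2.trans ?_
        rw [ENNReal.coe_toNNReal hVt]
        have h3 := hv θ hθ
        calc eVariationOn g (Jset p θ) + 2 * V θ ≤ V θ + 2 * V θ := by
              gcongr
              rw [hg]
              exact h3
          _ = 3 * V θ := by ring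
      · have h3 := hb θ hθ x hx.1 hx.2
        rw [hg]
        have h4 : ‖f (p + x • ![Real.cos θ, Real.sin θ])‖ₑ =
            ((‖f (p + x • ![Real.cos θ, Real.sin θ])‖₊ : ℝ≥0) : ℝ≥0∞) := rfl
        rw [h4, ← ENNReal.coe_toNNReal hVt, ENNReal.coe_le_coe] at h3
        exact h3

/-- Change of variables in the plane. -/
theorem eLpNorm_plane {q : ℝ} (hq : 1 ≤ q) {c : ℝ} (hc : 0 < c) {G : ℝ × ℝ → ℂ}
    (hG : Continuous G) (α β : ℝ) :
    eLpNorm (fun x : Fin 2 → ℝ => G (c * (x 0 + α), c * (x 1 + β))) (ENNReal.ofReal q) volume =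
      ENNReal.ofReal (c ^ (-(2 / q))) * eLpNorm G (ENNReal.ofReal q) volume := by
  have h1 : MeasurePreserving (fun x : Fin 2 → ℝ => ((x 0, x 1) : ℝ × ℝ)) volume volume :=
    volume_preserving_finTwoArrow ℝ
  have h2 := measurePreserving_add_right (volume : Measure (ℝ × ℝ)) (α, β)
  have h3 := h2.comp h1
  have hF : Continuous fun z : ℝ × ℝ => G (c * z.1, c * z.2) := hG.comp (by fun_prop)
  have h4 := eLpNorm_comp_measurePreserving (p := ENNReal.ofReal q) hF.aestronglyMeasurable h3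
  rw [← eLpNorm_diag2 hq hc hG, ← h4]
  rfl

/-- The estimate for a planar factor at a fixed time. -/
theorem plane_time (q θ s l R : ℝ) (hq : 2 < q) (hθ0 : 0 ≤ θ) (hθ1 : θ ≤ 1)
    (hqθ : q ≤ 4 ∨ θ = 1) (hs0 : 0 < s) (hsq : q / s < 1 + θ * (q - 2)) (hl0 : 0 ≤ l)
    (hl : l * q < (q - 2) * (1 - θ / 2)) :
    ∃ D : ℝ≥0, ∀ p : Fin 2 → ℝ, ‖p‖ ≤ R → ∀ (V : ℝ → ℝ≥0∞) (f : (Fin 2 → ℝ) → ℂ),
      RayBV p V f → ∀ t : ℝ,
      eLpNorm (fun x : Fin 2 → ℝ => extOp 2 f (x, t)) (ENNReal.ofReal q) volume ≤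
        D * (∫⁻ θ in Ioc (-Real.pi) Real.pi, V θ ^ s) ^ (1 / s) *
          ENNReal.ofReal ((1 + |t|) ^ (-l)) := by
  have hq0 : 0 < q := by linarith
  have hs : 1 ≤ s := by
    have hq2 : 0 < q - 2 := by linarith
    have h1 : q / s < q := by nlinarith
    rw [div_lt_iff₀ hs0] at h1
    nlinarith
  obtain ⟨D, hD⟩ := ftime q θ s l hq hθ0 hθ1 hqθ hs0 hsq hl0 hl
  obtain ⟨R', hR'⟩ : ∃ R' : ℝ, R' = max R 0 := ⟨_, rfl⟩
  obtain ⟨ρ, hρ⟩ : ∃ ρ : ℝ, ρ = 2 * (1 + R') := ⟨_, rfl⟩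
  have hR0 : 0 ≤ R' := hR' ▸ le_max_right _ _
  have hρ0 : 0 < ρ := by rw [hρ]; positivity
  have hρ1 : 1 ≤ ρ := by rw [hρ]; linarith
  refine ⟨Real.toNNReal (ρ ^ (2 - 2 / q)) * (D * 3) + 1, ?_⟩
  intro p hp V f H t
  have hw0 : 0 < (1 + |t|) ^ (-l) := by positivity
  by_cases hI : ∫⁻ θ in Ioc (-Real.pi) Real.pi, V θ ^ s = ⊤
  · rw [hI, ENNReal.top_rpow_of_pos (by positivity), ENNReal.mul_top (by simp),
      ENNReal.top_mul (ENNReal.ofReal_pos.2 hw0).ne']
    exact le_top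
  · have HR := rayData_Fp H hR0 (hp.trans (hR' ▸ le_max_left _ _))
    rw [← hρ] at HR
    have hV3 : ∫⁻ θ, (3 * V θ) ^ s ∂nu = 3 ^ s * ∫⁻ θ in Ioc (-Real.pi) Real.pi, V θ ^ s := by
      rw [← lintegral_const_mul _ (H.measV.pow_const s)]
      unfold nu
      refine lintegral_congr fun θ => ?_
      rw [ENNReal.mul_rpow_of_nonneg _ _ hs0.le]
    have h3s : (3 : ℝ≥0∞) ^ s ≠ ⊤ := ENNReal.rpow_ne_top_of_nonneg hs0.le (by norm_num)
    have hi : Integrable (fun z : ℝ × ℝ => Fp f p (ρ * z.1, ρ * z.2)) :=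
      HR.integrable (lint_V_ne_top hs (by rw [hV3]; exact ENNReal.mul_ne_top h3s hI))
    have hiF : Integrable (Fp f p) := by
      have h1 := hi.comp_smul (inv_ne_zero hρ0.ne')
      refine h1.congr (Eventually.of_forall fun z => ?_)
      simp only [Prod.smul_fst, Prod.smul_snd, smul_eq_mul]
      rw [mul_inv_cancel_left₀ hρ0.ne', mul_inv_cancel_left₀ hρ0.ne']
    have hpi : 0 < 2 * Real.pi := by positivity
    have hpi1 : 1 ≤ 2 * Real.pi := by linarith [Real.pi_gt_three]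
    have e1 : eLpNorm (fun x : Fin 2 → ℝ => extOp 2 f (x, t)) (ENNReal.ofReal q) volume =
        eLpNorm (fun x : Fin 2 → ℝ => (fun x : ℝ × ℝ => E0 (Fp f p) (x, 2 * Real.pi * t))
          (2 * Real.pi * (x 0 + 2 * t * p 0), 2 * Real.pi * (x 1 + 2 * t * p 1)))
          (ENNReal.ofReal q) volume := by
      refine eLpNorm_congr_norm_ae (Eventually.of_forall fun x => ?_)
      exact norm_extOp_eq f p (x, t)
    have e2 : ENNReal.ofReal ((2 * Real.pi) ^ (-(2 / q))) ≤ 1 := by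
      rw [ENNReal.ofReal_le_one]
      refine Real.rpow_le_one_of_one_le_of_nonpos hpi1 ?_
      have : 0 ≤ 2 / q := by positivity
      linarith
    have e3 : ENNReal.ofReal ((1 + |ρ ^ 2 * (2 * Real.pi * t)|) ^ (-l)) ≤
        ENNReal.ofReal ((1 + |t|) ^ (-l)) := by
      refine ENNReal.ofReal_le_ofReal ?_
      refine Real.rpow_le_rpow_of_nonpos (by positivity) ?_ (by linarith)
      have h1 : ρ ^ 2 * (2 * Real.pi * t) = (ρ ^ 2 * (2 * Real.pi)) * t := by ring
      have h2 : 1 ≤ ρ ^ 2 * (2 * Real.pi) :=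
        one_le_mul_of_one_le_of_one_le (one_le_pow₀ hρ1) hpi1
      rw [h1, abs_mul, abs_of_nonneg (by positivity : 0 ≤ ρ ^ 2 * (2 * Real.pi))]
      nlinarith [abs_nonneg t]
    calc eLpNorm (fun x : Fin 2 → ℝ => extOp 2 f (x, t)) (ENNReal.ofReal q) volume
        = ENNReal.ofReal ((2 * Real.pi) ^ (-(2 / q))) * NT q (2 * Real.pi * t) (Fp f p) := by
          rw [e1]
          exact eLpNorm_plane (by linarith) hpi (NT_cont hiF _) _ _
      _ ≤ 1 * NT q (2 * Real.pi * t) (Fp f p) := mul_le_mul_left e2 _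
      _ = ENNReal.ofReal (ρ ^ (2 - 2 / q)) * NT q (ρ ^ 2 * (2 * Real.pi * t))
            (fun z => Fp f p (ρ * z.1, ρ * z.2)) := by
          rw [one_mul, NT_scale (by linarith) hρ0 hiF]
      _ ≤ ENNReal.ofReal (ρ ^ (2 - 2 / q)) *
          (D * (∫⁻ θ, (3 * V θ) ^ s ∂nu) ^ (1 / s) * ENNReal.ofReal ((1 + |t|) ^ (-l))) :=
          mul_le_mul_right ((hD _ _ HR _).trans (mul_le_mul_right e3 _)) _
      _ = ((Real.toNNReal (ρ ^ (2 - 2 / q)) * (D * 3) : ℝ≥0) : ℝ≥0∞) *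
          (∫⁻ θ in Ioc (-Real.pi) Real.pi, V θ ^ s) ^ (1 / s) *
            ENNReal.ofReal ((1 + |t|) ^ (-l)) := by
          rw [hV3, ENNReal.mul_rpow_of_nonneg _ _ (by positivity), ← ENNReal.rpow_mul,
            mul_one_div_cancel hs0.ne', ENNReal.rpow_one, ENNReal.coe_mul, ENNReal.coe_mul,
            ENNReal.ofReal]
          push_cast
          ring
      _ ≤ _ := by
          refine mul_le_mul_left (mul_le_mul_left ?_ _) _
          exact ENNReal.coe_le_coe.2 le_self_add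

end Pool.Agent.H.MP_b7167f_an.SV
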