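import Pool.Agent.H.MP_b7167f_an.SV.Cone

/-!
The `L¹` norm in polar coordinates.
-/

open MeasureTheory Set
open scoped ENNReal

namespace Pool.Agent.H.MP_b7167f_an.SV

open Pool.Agent.H.MP_b7167f_an.SS

theorem lint_polar (h : ℝ × ℝ → ℂ) (hs : ∀ z : ℝ × ℝ, 1 < z.1 ^ 2 + z.2 ^ 2 → h z = 0)
    (V : ℝ → ℝ≥0∞) (hV : Measurable V)
    (hb : ∀ θ ∈ Ioc (-Real.pi) Real.pi, ∀ r : ℝ, 0 < r →
      ‖h (r * Real.cos θ, r * Real.sin θ)‖ₑ ≤ V θ) :
    ∫⁻ z, ‖h z‖ₑ ≤ ∫⁻ θ, V θ ∂nu := by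
  rw [← lintegral_comp_polarCoord_symm (fun z => ‖h z‖ₑ)]
  have hi : Measurable ((Ioc (0 : ℝ) 1).indicator fun _ => (1 : ℝ≥0∞)) :=
    measurable_const.indicator measurableSet_Ioc
  calc ∫⁻ p in polarCoord.target, ENNReal.ofReal p.1 • ‖h (polarCoord.symm p)‖ₑ
      ≤ ∫⁻ p in polarCoord.target,
          (Ioc (0 : ℝ) 1).indicator (fun _ => (1 : ℝ≥0∞)) p.1 * V p.2 := by
        refine setLIntegral_mono' polarCoord.open_target.measurableSet fun p hp => ?_
        rw [polarCoord_target] at hp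
        have hp1 : 0 < p.1 := hp.1
        have hp2 : p.2 ∈ Ioc (-Real.pi) Real.pi := ⟨hp.2.1, hp.2.2.le⟩
        have hsy : polarCoord.symm p = (p.1 * Real.cos p.2, p.1 * Real.sin p.2) := rfl
        rw [hsy]
        by_cases h1 : p.1 ≤ 1
        · rw [indicator_of_mem (by exact ⟨hp1, h1⟩), smul_eq_mul]
          refine mul_le_mul' ?_ (hb _ hp2 _ hp1)
          rw [ENNReal.ofReal_le_one]
          exact h1
        · rw [hs, enorm_zero, smul_zero]
          · exact zero_le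
          · have := Real.sin_sq_add_cos_sq p.2
            have h2 : 1 < p.1 := not_le.1 h1
            have h3 : (p.1 * Real.cos p.2) ^ 2 + (p.1 * Real.sin p.2) ^ 2 = p.1 ^ 2 := by
              linear_combination (p.1 ^ 2) * this
            simp only
            rw [h3]
            nlinarith
    _ = ∫⁻ p, (Ioc (0 : ℝ) 1).indicator (fun _ => (1 : ℝ≥0∞)) p.1 * V p.2
          ∂((volume.restrict (Ioi (0 : ℝ))).prod (volume.restrict (Ioo (-Real.pi) Real.pi))) := by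
        rw [polarCoord_target, Measure.volume_eq_prod, Measure.prod_restrict]
    _ = (∫⁻ r in Ioi (0 : ℝ), (Ioc (0 : ℝ) 1).indicator (fun _ => (1 : ℝ≥0∞)) r) *
          ∫⁻ θ in Ioo (-Real.pi) Real.pi, V θ :=
        lintegral_prod_mul hi.aemeasurable hV.aemeasurable
    _ ≤ 1 * ∫⁻ θ, V θ ∂nu := by
        refine mul_le_mul' ?_ ?_
        · calc (∫⁻ r in Ioi (0 : ℝ), (Ioc (0 : ℝ) 1).indicator (fun _ => (1 : ℝ≥0∞)) r)
              ≤ ∫⁻ r, (Ioc (0 : ℝ) 1).indicator (fun _ => (1 : ℝ≥0∞)) r :=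
                setLIntegral_le_lintegral _ _
            _ = 1 := by
                rw [lintegral_indicator measurableSet_Ioc]
                simp
        · unfold nu
          exact lintegral_mono_set Ioo_subset_Ioc_self
    _ = ∫⁻ θ, V θ ∂nu := one_mul _

theorem enorm_E0_le (h : ℝ × ℝ → ℂ) (y : (ℝ × ℝ) × ℝ) : ‖E0 h y‖ₑ ≤ ∫⁻ z, ‖h z‖ₑ := by
  unfold E0
  refine (enorm_integral_le_lintegral_enorm _).trans (lintegral_mono fun z => ?_)
  simp only
  rw [enorm_mul]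
  refine mul_le_of_le_one_right' ?_
  rw [← ofReal_norm, mul_comm Complex.I, Complex.norm_exp_ofReal_mul_I, ENNReal.ofReal_one]

theorem enorm_E0_le_mu {S : Set (ℝ × ℝ)} (hS : Cone S) {h : ℝ × ℝ → ℂ} (H : Adm 1 h)
    (hs : SuppIn S h) (y : (ℝ × ℝ) × ℝ) : ‖E0 h y‖ₑ ≤ mu S := by
  refine (enorm_E0_le h y).trans ?_
  have h1 := lint_polar h H.supp
    ({θ : ℝ | (Real.cos θ, Real.sin θ) ∈ S}.indicator fun _ => (1 : ℝ≥0∞))
    (measurable_const.indicator (meas_dir hS.meas)) (fun θ _ r hr => ?_)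
  · refine h1.trans (le_of_eq ?_)
    rw [lintegral_indicator (meas_dir hS.meas)]
    simp [mu]
  · by_cases hθ : (Real.cos θ, Real.sin θ) ∈ S
    · rw [indicator_of_mem (by exact hθ), ← ofReal_norm, ENNReal.ofReal_le_one]
      exact H.bdd _
    · have h2 : (r * Real.cos θ, r * Real.sin θ) ∉ S := fun h3 =>
        hθ ((hS.smul_iff hr (Real.cos θ, Real.sin θ)).1 h3)
      rw [hs _ h2, enorm_zero]
      exact zero_le

end Pool.Agent.H.MP_b7167f_an.SV
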