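import Pool.Agent.H.MP_b7167f_an.AlgMain
import Pool.Agent.H.MP_b7167f_an.SV.OneH
import Pool.Agent.H.MP_b7167f_an.SV.PlaneT

/-!
Products of planar factors and a multilinear form in the remaining variables.
-/

open MeasureTheory Set Filter
open scoped ENNReal NNReal

namespace Pool.Agent.H.MP_b7167f_an.SV

open Pool.Agent.H.MP_b7167f_an

universe v

/-- The exponents. -/
theorem exponents {m k : ℕ} (hk : 1 ≤ k) {q : ℝ} {s : Fin k → ℝ} (hs : ∀ i, 0 < s i)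
    (h1 : ∀ i, 1 / s i + 1 / q < 1)
    (h2 : ∑ i, max 0 (q / s i - 1) < ((m + 2 * k : ℕ) : ℝ) * (q - 2) - 2) :
    2 < q ∧ ∃ θ l : Fin k → ℝ, (∀ i, 0 ≤ θ i) ∧ (∀ i, θ i ≤ 1) ∧ (∀ i, q ≤ 4 ∨ θ i = 1) ∧
      (∀ i, q / s i < 1 + θ i * (q - 2)) ∧ (∀ i, 0 ≤ l i) ∧
      (∀ i, l i * q < (q - 2) * (1 - θ i / 2)) ∧ 0 < ∑ i, l i * q ∧
      1 - m * rr q < ∑ i, l i * q := by
  have hN : (0 : ℝ) ≤ ((m + 2 * k : ℕ) : ℝ) := Nat.cast_nonneg _
  have hsum0 : 0 ≤ ∑ i, max 0 (q / s i - 1) := Finset.sum_nonneg fun i _ => le_max_left _ _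
  have hq2 : 0 < q - 2 := by
    by_contra h
    push Not at h
    nlinarith
  have hq0 : 0 < q := by linarith
  have hkr : (1 : ℝ) ≤ k := by exact_mod_cast hk
  have hm0 : (0 : ℝ) ≤ m := Nat.cast_nonneg m
  have hk0 : (0 : ℝ) < k := by linarith
  have hqs : ∀ i, q / s i < q - 1 := by
    intro i
    have h3 : q * (1 / s i + 1 / q) < q * 1 := mul_lt_mul_of_pos_left (h1 i) hq0
    have e : q * (1 / s i + 1 / q) = q / s i + 1 := by
      have := (hs i).ne'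
      field_simp
    linarith
  push_cast at h2
  have fin : ∀ θ : Fin k → ℝ, (∀ i, 0 ≤ θ i) → (∀ i, θ i ≤ 1) → (∀ i, q ≤ 4 ∨ θ i = 1) →
      (∀ i, q / s i < 1 + θ i * (q - 2)) →
      1 - m * rr q < ∑ i, (q - 2) * (1 - θ i / 2) →
      ∃ θ l : Fin k → ℝ, (∀ i, 0 ≤ θ i) ∧ (∀ i, θ i ≤ 1) ∧ (∀ i, q ≤ 4 ∨ θ i = 1) ∧
      (∀ i, q / s i < 1 + θ i * (q - 2)) ∧ (∀ i, 0 ≤ l i) ∧
      (∀ i, l i * q < (q - 2) * (1 - θ i / 2)) ∧ 0 < ∑ i, l i * q ∧
      1 - m * rr q < ∑ i, l i * q := by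
    intro θ hθ0 hθ1 hqθ hsθ hm
    have hB : ∀ i, 0 < (q - 2) * (1 - θ i / 2) := fun i => mul_pos hq2 (by linarith [hθ1 i])
    have hS : 0 < ∑ i, (q - 2) * (1 - θ i / 2) :=
      Finset.sum_pos (fun i _ => hB i) ⟨⟨0, hk⟩, Finset.mem_univ _⟩
    have hM : max 0 ((1 - m * rr q) / ∑ i, (q - 2) * (1 - θ i / 2)) < 1 := by
      refine max_lt one_pos ?_
      rwa [div_lt_one hS]
    obtain ⟨c, hc1, hc2⟩ := exists_between hM
    have hc0 : 0 < c := lt_of_le_of_lt (le_max_left _ _) hc1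
    have hc3 := lt_of_le_of_lt (le_max_right _ _) hc1
    rw [div_lt_iff₀ hS] at hc3
    have e : ∀ i, c * ((q - 2) * (1 - θ i / 2)) / q * q = c * ((q - 2) * (1 - θ i / 2)) :=
      fun i => div_mul_cancel₀ _ hq0.ne'
    refine ⟨θ, fun i => c * ((q - 2) * (1 - θ i / 2)) / q, hθ0, hθ1, hqθ, hsθ,
      fun i => (div_pos (mul_pos hc0 (hB i)) hq0).le, fun i => ?_, ?_, ?_⟩
    · rw [e i]
      nlinarith [hB i]
    · simp only [e]
      rw [← Finset.mul_sum]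
      positivity
    · simp only [e]
      rw [← Finset.mul_sum]
      exact hc3
  refine ⟨by linarith, ?_⟩
  rcases le_or_gt q 4 with h4 | h4
  · have hr : rr q = (q - 2) / 2 := min_eq_left (by linarith)
    obtain ⟨y, hy⟩ : ∃ y : Fin k → ℝ, y = fun i => max 0 (q / s i - 1) / (q - 2) := ⟨_, rfl⟩
    have hy0 : ∀ i, 0 ≤ y i := fun i => by
      rw [hy]
      exact div_nonneg (le_max_left _ _) hq2.le
    have hy1 : ∀ i, y i < 1 := fun i => by
      rw [hy]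
      simp only
      rw [div_lt_one hq2]
      exact max_lt hq2 (by linarith [hqs i])
    have hys : ∀ i, q / s i ≤ 1 + y i * (q - 2) := fun i => by
      rw [hy]
      simp only
      rw [div_mul_cancel₀ _ hq2.ne']
      linarith [le_max_right 0 (q / s i - 1)]
    have hysum : (∑ i, y i) * (q - 2) = ∑ i, max 0 (q / s i - 1) := by
      rw [hy, Finset.sum_mul]
      refine Finset.sum_congr rfl fun i _ => ?_
      rw [div_mul_cancel₀ _ hq2.ne']
    have hkq : 0 < (k : ℝ) * (q - 2) := by positivity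
    have hM : 0 < min 1 ((((m : ℝ) + 2 * k) * (q - 2) - 2 - ∑ i, max 0 (q / s i - 1)) /
        (k * (q - 2))) := lt_min one_pos (div_pos (by linarith) hkq)
    obtain ⟨ε, he0, hε⟩ := exists_between hM
    have he1 := lt_of_lt_of_le hε (min_le_left _ _)
    have he2 := lt_of_lt_of_le hε (min_le_right _ _)
    rw [lt_div_iff₀ hkq] at he2
    have hsθ : ∑ i, (y i + ε * (1 - y i)) ≤ (∑ i, y i) + ε * k := by
      rw [Finset.sum_add_distrib, ← Finset.mul_sum]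
      have h5 : ∑ i, (1 - y i) ≤ ∑ _i : Fin k, (1 : ℝ) :=
        Finset.sum_le_sum fun i _ => by linarith [hy0 i]
      rw [Finset.sum_const, Finset.card_univ, Fintype.card_fin, nsmul_eq_mul, mul_one] at h5
      have := mul_le_mul_of_nonneg_left h5 he0.le
      linarith
    refine fin (fun i => y i + ε * (1 - y i)) (fun i => ?_) (fun i => ?_) (fun _ => Or.inl h4)
      (fun i => ?_) ?_
    · have := mul_pos he0 (sub_pos.2 (hy1 i))
      linarith [hy0 i]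
    · nlinarith [hy1 i]
    · have h5 := mul_pos (mul_pos he0 (sub_pos.2 (hy1 i))) hq2
      have h6 := hys i
      nlinarith
    · rw [hr, ← Finset.mul_sum, Finset.sum_sub_distrib, ← Finset.sum_div, Finset.sum_const,
        Finset.card_univ, Fintype.card_fin, nsmul_eq_mul, mul_one]
      have h7 := mul_le_mul_of_nonneg_right hsθ hq2.le
      nlinarith
  · have hr : rr q = 1 := min_eq_right (by linarith)
    refine fin (fun _ => 1) (fun _ => zero_le_one) (fun _ => le_rfl) (fun _ => Or.inr rfl)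
      (fun i => by linarith [hqs i]) ?_
    rw [hr, Finset.sum_const, Finset.card_univ, Fintype.card_fin, nsmul_eq_mul]
    nlinarith

/-- The planar factor on `ℝ × ℝ`. -/
def pl (f : (Fin 2 → ℝ) → ℂ) (z : ℝ × ℝ) : ℂ := f ![z.1, z.2]

theorem pl_meas {f : (Fin 2 → ℝ) → ℂ} (hf : Measurable f) : Measurable (pl f) := by
  refine hf.comp ?_
  rw [measurable_pi_iff]
  intro i
  fin_cases i
  · exact measurable_fst
  · exact measurable_snd

theorem Wop_pl (f : (Fin 2 → ℝ) → ℂ) (z : ℝ × ℝ) (t : ℝ) :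
    Wop (pl f) z t = extOp 2 f (![z.1, z.2], t) := by
  rw [Wop_eq_extOp]
  congr 1
  funext ξ
  unfold pl
  congr 1
  funext i
  fin_cases i <;> rfl

theorem lint_Wop (f : (Fin 2 → ℝ) → ℂ) (q t : ℝ) :
    ∫⁻ z : ℝ × ℝ, ‖Wop (pl f) z t‖ₑ ^ q = ∫⁻ x : Fin 2 → ℝ, ‖extOp 2 f (x, t)‖ₑ ^ q := by
  rw [← (volume_preserving_finTwoArrow ℝ).lintegral_comp_emb
      (MeasurableEquiv.finTwoArrow (α := ℝ)).measurableEmbedding]
  refine lintegral_congr fun x => ?_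
  rw [Wop_pl]
  congr 4
  funext i
  fin_cases i <;> rfl

theorem plane_W (q θ s l R : ℝ) (hq : 2 < q) (hθ0 : 0 ≤ θ) (hθ1 : θ ≤ 1)
    (hqθ : q ≤ 4 ∨ θ = 1) (hs0 : 0 < s) (hsq : q / s < 1 + θ * (q - 2)) (hl0 : 0 ≤ l)
    (hl : l * q < (q - 2) * (1 - θ / 2)) :
    ∃ D : ℝ≥0, ∀ p : Fin 2 → ℝ, ‖p‖ ≤ R → ∀ (V : ℝ → ℝ≥0∞) (f : (Fin 2 → ℝ) → ℂ),
      RayBV p V f → ∀ t : ℝ, ∫⁻ z : ℝ × ℝ, ‖Wop (pl f) z t‖ₑ ^ q ≤
        (D * (∫⁻ θ in Ioc (-Real.pi) Real.pi, V θ ^ s) ^ (1 / s)) ^ q *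
          ENNReal.ofReal ((1 + |t|) ^ (-(l * q))) := by
  obtain ⟨D, hD⟩ := plane_time q θ s l R hq hθ0 hθ1 hqθ hs0 hsq hl0 hl
  refine ⟨D, fun p hp V f H t => ?_⟩
  have hq0 : 0 < q := by linarith
  have h1 := hD p hp V f H t
  rw [eLpNorm_eq_lintegral_rpow_enorm_toReal (by simpa using hq0) ENNReal.ofReal_ne_top,
    ENNReal.toReal_ofReal hq0.le] at h1
  have h2 := ENNReal.rpow_le_rpow h1 hq0.le
  rw [← ENNReal.rpow_mul, one_div_mul_cancel hq0.ne', ENNReal.rpow_one] at h2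
  rw [lint_Wop]
  refine h2.trans (le_of_eq ?_)
  rw [ENNReal.mul_rpow_of_nonneg _ _ hq0.le, ENNReal.ofReal_rpow_of_pos (by positivity),
    ← Real.rpow_mul (by positivity), neg_mul]

/-- The functions of the theorem. -/
noncomputable def tens {m k n : ℕ} (e : Fin m ⊕ Fin k × Fin 2 ≃ Fin n) (g : (Fin m → ℝ) → ℂ)
    (a : Fin k → (Fin 2 → ℝ) → ℂ) (ξ : Fin n → ℝ) : ℂ :=
  g (fun j => ξ (e (Sum.inl j))) *
    ∏ i, a i ![ξ (e (Sum.inr (i, 0))), ξ (e (Sum.inr (i, 1)))]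

theorem extOp_tens {m k n : ℕ} (e : Fin m ⊕ Fin k × Fin 2 ≃ Fin n) {g : (Fin m → ℝ) → ℂ}
    (hg : Measurable g) {a : Fin k → (Fin 2 → ℝ) → ℂ} (ha : ∀ i, Measurable (a i))
    (x : Fin n → ℝ) (t : ℝ) :
    extOp n (tens e g a) (x, t) = extOp m g (fun j => x (e (Sum.inl j)), t) *
      ∏ i, Wop (pl (a i)) (x (e (Sum.inr (i, 0))), x (e (Sum.inr (i, 1)))) t :=
  extOp_merge e hg (h := fun i => pl (a i)) (fun i => pl_meas (ha i)) x t

attribute [local irreducible] Uop Wop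

theorem tens_bound (m k : ℕ) (hk : 1 ≤ k) (q R : ℝ) (s : Fin k → ℝ)
    (hs : ∀ i, 0 < s i) (h1 : ∀ i, 1 / s i + 1 / q < 1)
    (h2 : ∑ i, max 0 (q / s i - 1) < ((m + 2 * k : ℕ) : ℝ) * (q - 2) - 2) :
    ∃ C : ℝ≥0, ∀ {n : ℕ} (e : Fin m ⊕ Fin k × Fin 2 ≃ Fin n)
      {H : Fin m → Type v} [∀ j, NormedAddCommGroup (H j)] [∀ j, InnerProductSpace ℂ (H j)]
      [∀ j, CompleteSpace (H j)] (T : ContinuousMultilinearMap ℂ H ℂ) (u : ∀ j, ℝ → H j),
      (∀ j, StronglyMeasurable (u j)) → (∀ j, ∀ x ∈ Icc (-1 : ℝ) 1, ‖u j x‖ ≤ 1) →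
      ∀ p : Fin k → Fin 2 → ℝ, (∀ i, ‖p i‖ ≤ R) →
      ∀ (V : Fin k → ℝ → ℝ≥0∞) (a : Fin k → (Fin 2 → ℝ) → ℂ), (∀ i, RayBV (p i) (V i) (a i)) →
      eLpNorm (extOp n (tens e (fun x => T fun j => u j (x j)) a)) (ENNReal.ofReal q) volume ≤
        C * ENNReal.ofReal ‖T‖ *
          ∏ i, (∫⁻ θ in Ioc (-Real.pi) Real.pi, V i θ ^ s i) ^ (1 / s i) := by
  obtain ⟨hq2, θ, l, hθ0, hθ1, hqθ, hsθ, hl0, hl, hkl0, hkl⟩ := exponents hk hs h1 h2
  have hq0 : 0 < q := by linarith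
  choose D hD using fun i => plane_W q (θ i) (s i) (l i) R hq2 (hθ0 i) (hθ1 i) (hqθ i) (hs i)
    (hsθ i) (hl0 i) (hl i)
  obtain ⟨C₁, hC₁, hN⟩ := N1_prod.{v} m hq2 hkl0 hkl
  refine ⟨(C₁ ^ (1 / q)).toNNReal * ∏ i, D i, ?_⟩
  intro n e H _ _ _ T u hu hub p hp V a ha
  obtain ⟨J, hJ⟩ : ∃ J : Fin k → ℝ≥0∞,
    J = fun i => (∫⁻ θ in Ioc (-Real.pi) Real.pi, V i θ ^ s i) ^ (1 / s i) := ⟨_, rfl⟩
  obtain ⟨g, hg⟩ : ∃ g : (Fin m → ℝ) → ℂ, g = fun x => T fun j => u j (x j) := ⟨_, rfl⟩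
  have hgm : Measurable g := by
    rw [hg]
    apply StronglyMeasurable.measurable
    apply T.cont.comp_stronglyMeasurable
    apply stronglyMeasurable_pi'
    intro j
    exact (hu j).comp_measurable (measurable_pi_apply j)
  have ham : ∀ i, Measurable (a i) := fun i => (ha i).meas
  have hadm : ∀ j, Adm (cutoff (u j)) := fun j => adm_cutoff (hu j) (hub j)
  obtain ⟨fU, hfU⟩ : ∃ fU : Fin m → ℝ → ℝ → ℝ≥0∞,
    fU = fun j t x => ‖Uop (cutoff (u j)) x t‖ₑ ^ q := ⟨_, rfl⟩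
  obtain ⟨fW, hfW⟩ : ∃ fW : Fin k → ℝ → ℝ × ℝ → ℝ≥0∞,
    fW = fun i t z => ‖Wop (pl (a i)) z t‖ₑ ^ q := ⟨_, rfl⟩
  have mU : ∀ j, Measurable (fun w : ℝ × ℝ => fU j w.2 w.1) := fun j => by
    rw [hfU]
    exact measurable_enorm_Uop (hadm j) q
  have mW : ∀ i, Measurable (fun w : (ℝ × ℝ) × ℝ => fW i w.2 w.1) := fun i => by
    rw [hfW]
    exact (sm_Wop (pl_meas (ham i))).enorm.pow_const q
  have mUt : ∀ j t, Measurable (fU j t) := fun j t =>
    (mU j).comp (measurable_id.prodMk measurable_const : Measurable fun x : ℝ => (x, t))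
  have mWt : ∀ i t, Measurable (fW i t) := fun i t =>
    (mW i).comp (measurable_id.prodMk measurable_const : Measurable fun z : ℝ × ℝ => (z, t))
  have hpt : ∀ w : (Fin n → ℝ) × ℝ, ‖extOp n (tens e g a) w‖ₑ ^ q ≤
      ENNReal.ofReal ‖T‖ ^ q * ((∏ j, fU j w.2 (w.1 (e (Sum.inl j)))) *
        ∏ i, fW i w.2 (w.1 (e (Sum.inr (i, 0))), w.1 (e (Sum.inr (i, 1))))) := by
    rintro ⟨x, t⟩
    have h3 : extOp m g (fun j => x (e (Sum.inl j)), t) =
        T (fun j => Uop (cutoff (u j)) (x (e (Sum.inl j))) t) := by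
      rw [hg]
      exact extOp_form T hu hub _
    rw [extOp_tens e hgm ham, h3, hfU, hfW]
    simp only
    rw [ENNReal.prod_rpow_of_nonneg hq0.le, ENNReal.prod_rpow_of_nonneg hq0.le,
      ← ENNReal.mul_rpow_of_nonneg _ _ hq0.le, ← ENNReal.mul_rpow_of_nonneg _ _ hq0.le]
    apply ENNReal.rpow_le_rpow _ hq0.le
    rw [enorm_mul, ← mul_assoc]
    apply mul_le_mul'
    · have h := T.le_opNorm (fun j => Uop (cutoff (u j)) (x (e (Sum.inl j))) t)
      rw [← ofReal_norm]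
      refine (ENNReal.ofReal_le_ofReal h).trans ?_
      rw [ENNReal.ofReal_mul (norm_nonneg _), ENNReal.ofReal_prod_of_nonneg
        (fun i _ => norm_nonneg _)]
      simp only [ofReal_norm]
      exact le_rfl
    · rw [← ofReal_norm, norm_prod, ENNReal.ofReal_prod_of_nonneg (fun i _ => norm_nonneg _)]
      simp only [ofReal_norm]
      exact le_rfl
  have hmT : ENNReal.ofReal ‖T‖ ^ q ≠ ∞ :=
    ENNReal.rpow_ne_top_of_nonneg hq0.le ENNReal.ofReal_ne_top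
  have hmeas : Measurable (fun w : (Fin n → ℝ) × ℝ => (∏ j, fU j w.2 (w.1 (e (Sum.inl j)))) *
        ∏ i, fW i w.2 (w.1 (e (Sum.inr (i, 0))), w.1 (e (Sum.inr (i, 1))))) := by
    apply Measurable.mul
    · apply Finset.measurable_fun_prod
      intro j _
      exact (mU j).comp (by fun_prop : Measurable fun w : (Fin n → ℝ) × ℝ =>
        ((w.1 (e (Sum.inl j)), w.2) : ℝ × ℝ))
    · apply Finset.measurable_fun_prod
      intro i _
      exact (mW i).comp (by fun_prop : Measurable fun w : (Fin n → ℝ) × ℝ =>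
        (((w.1 (e (Sum.inr (i, 0))), w.1 (e (Sum.inr (i, 1)))), w.2) : (ℝ × ℝ) × ℝ))
  have hW : ∀ t, ∏ i, ∫⁻ z, fW i t z ≤
      (∏ i, D i * J i) ^ q * ENNReal.ofReal ((1 + |t|) ^ (-(∑ i, l i * q))) := by
    intro t
    have ht : 0 < 1 + |t| := by positivity
    calc ∏ i, ∫⁻ z, fW i t z
        ≤ ∏ i, (D i * J i) ^ q * ENNReal.ofReal ((1 + |t|) ^ (-(l i * q))) := by
          refine Finset.prod_le_prod (fun _ _ => zero_le) fun i _ => ?_
          rw [hfW, hJ]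
          exact hD i (p i) (hp i) (V i) (a i) (ha i) t
      _ = _ := by
          rw [Finset.prod_mul_distrib, ENNReal.prod_rpow_of_nonneg hq0.le,
            ← ENNReal.ofReal_prod_of_nonneg (fun i _ => by positivity),
            ← Real.rpow_sum_of_pos ht, Finset.sum_neg_distrib]
  have key : ∫⁻ w : (Fin n → ℝ) × ℝ, ‖extOp n (tens e g a) w‖ₑ ^ q ≤
      ENNReal.ofReal ‖T‖ ^ q * ((∏ i, D i * J i) ^ q * C₁) := by
    calc ∫⁻ w : (Fin n → ℝ) × ℝ, ‖extOp n (tens e g a) w‖ₑ ^ q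
        ≤ ∫⁻ w : (Fin n → ℝ) × ℝ, ENNReal.ofReal ‖T‖ ^ q *
          ((∏ j, fU j w.2 (w.1 (e (Sum.inl j)))) *
          ∏ i, fW i w.2 (w.1 (e (Sum.inr (i, 0))), w.1 (e (Sum.inr (i, 1))))) :=
          lintegral_mono hpt
      _ = ENNReal.ofReal ‖T‖ ^ q * ∫⁻ w : (Fin n → ℝ) × ℝ,
          ((∏ j, fU j w.2 (w.1 (e (Sum.inl j)))) *
          ∏ i, fW i w.2 (w.1 (e (Sum.inr (i, 0))), w.1 (e (Sum.inr (i, 1))))) :=
          lintegral_const_mul' _ _ hmT
      _ = ENNReal.ofReal ‖T‖ ^ q *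
          ∫⁻ t, (∏ j, ∫⁻ x, fU j t x) * ∏ i, ∫⁻ z, fW i t z := by
          congr 1
          rw [Measure.volume_eq_prod, lintegral_prod_symm _ hmeas.aemeasurable]
          congr 1
          ext t
          exact lintegral_merge e (fun j => mUt j t) (fun i => mWt i t)
      _ ≤ ENNReal.ofReal ‖T‖ ^ q * ∫⁻ t, (∏ i, D i * J i) ^ q *
          ((∏ j, N1 q (cutoff (u j)) t) * ENNReal.ofReal ((1 + |t|) ^ (-(∑ i, l i * q)))) := by
          refine mul_le_mul_right (lintegral_mono fun t => ?_) _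
          have e1 : ∀ j, ∫⁻ x, fU j t x = N1 q (cutoff (u j)) t := by
            intro j
            rw [hfU]
            rfl
          simp only [e1]
          calc (∏ j, N1 q (cutoff (u j)) t) * ∏ i, ∫⁻ z, fW i t z
              ≤ (∏ j, N1 q (cutoff (u j)) t) *
                ((∏ i, D i * J i) ^ q * ENNReal.ofReal ((1 + |t|) ^ (-(∑ i, l i * q)))) :=
                mul_le_mul_right (hW t) _
            _ = _ := by ring
      _ = ENNReal.ofReal ‖T‖ ^ q * ((∏ i, D i * J i) ^ q * ∫⁻ t,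
          ((∏ j, N1 q (cutoff (u j)) t) * ENNReal.ofReal ((1 + |t|) ^ (-(∑ i, l i * q))))) := by
          congr 1
          refine lintegral_const_mul _ ?_
          refine Measurable.mul ?_ (by fun_prop)
          exact Finset.measurable_fun_prod _ fun j _ => N1_meas q (hadm j)
      _ ≤ _ := by
          refine mul_le_mul_right (mul_le_mul_right ?_ _) _
          exact hN (fun j => cutoff (u j)) hadm
  rw [← hg, eLpNorm_eq_lintegral_rpow_enorm_toReal (by simpa using hq0) ENNReal.ofReal_ne_top,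
    ENNReal.toReal_ofReal hq0.le]
  refine (ENNReal.rpow_le_rpow key (by positivity)).trans (le_of_eq ?_)
  rw [ENNReal.mul_rpow_of_nonneg _ _ (by positivity), ENNReal.mul_rpow_of_nonneg _ _ (by positivity),
    ← ENNReal.rpow_mul, ← ENNReal.rpow_mul, mul_one_div_cancel hq0.ne', ENNReal.rpow_one,
    ENNReal.rpow_one, ENNReal.coe_mul, ENNReal.coe_toNNReal
      (ENNReal.rpow_ne_top_of_nonneg (by positivity) hC₁), Finset.prod_mul_distrib,
    ENNReal.ofNNReal_finsetProd, hJ]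
  ring

end Pool.Agent.H.MP_b7167f_an.SV
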